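import Mathlib
set_option autoImplicit false

/-! Plancherel inequality for the push forward under an injective differentiable map, by Gaussian
regularisation and Schur's test. -/

namespace Pool.Agent.R412.RT

open MeasureTheory Complex Set
open scoped ENNReal RealInnerProductSpace ComplexConjugate

abbrev E (n : ℕ) := EuclideanSpace ℝ (Fin n)

/-- `e^(2 π i s)` -/
noncomputable def ee (s : ℝ) : ℂ := cexp (2 * Real.pi * s * I)

theorem ee_norm (s : ℝ) : ‖ee s‖ = 1 := by
  unfold ee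
  rw [show (2 * (Real.pi : ℂ) * s * I) = ((2 * Real.pi * s : ℝ) : ℂ) * I by push_cast; ring]
  exact Complex.norm_exp_ofReal_mul_I _

theorem ee_cont : Continuous ee := by unfold ee; fun_prop

theorem ee_meas : Measurable ee := ee_cont.measurable

theorem ee_add (s t : ℝ) : ee (s + t) = ee s * ee t := by
  unfold ee
  rw [← Complex.exp_add]
  congr 1
  push_cast
  ring

theorem ee_conj (s : ℝ) : conj (ee s) = ee (-s) := by
  unfold ee
  rw [← Complex.exp_conj]
  congr 1
  simp only [map_mul, conj_ofReal, conj_I, map_ofNat]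
  push_cast
  ring

/-- the Gaussian kernel -/
noncomputable def Kg (n : ℕ) (ε : ℝ) (v : E n) : ℝ :=
  (Real.pi / ε) ^ ((n : ℝ) / 2) * Real.exp (-(Real.pi ^ 2 / ε) * ‖v‖ ^ 2)

theorem Kg_nonneg (n : ℕ) (ε : ℝ) (hε : 0 < ε) (v : E n) : 0 ≤ Kg n ε v := by
  unfold Kg; positivity

theorem Kg_neg (n : ℕ) (ε : ℝ) (v : E n) : Kg n ε (-v) = Kg n ε v := by
  unfold Kg; rw [norm_neg]

theorem Kg_cont (n : ℕ) (ε : ℝ) : Continuous (Kg n ε) := by unfold Kg; fun_prop

theorem Kg_int (n : ℕ) (ε : ℝ) (hε : 0 < ε) : ∫⁻ v : E n, ENNReal.ofReal (Kg n ε v) = 1 := by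
  have hb : 0 < Real.pi ^ 2 / ε := by positivity
  have h1 := GaussianFourier.integral_rexp_neg_mul_sq_norm (V := E n) hb
  have h2 : ∫ v : E n, Kg n ε v = 1 := by
    unfold Kg
    rw [integral_const_mul, h1, finrank_euclideanSpace, Fintype.card_fin,
      ← Real.mul_rpow (by positivity) (by positivity)]
    have : Real.pi / ε * (Real.pi / (Real.pi ^ 2 / ε)) = 1 := by
      have := Real.pi_pos
      field_simp
    rw [this, Real.one_rpow]
  rw [← ofReal_integral_eq_lintegral_ofReal ?_ (Filter.Eventually.of_forall fun v => Kg_nonneg n ε hε v),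
    h2, ENNReal.ofReal_one]
  by_contra hni
  rw [integral_undef hni] at h2
  norm_num at h2

theorem gauss_ft (n : ℕ) (ε : ℝ) (hε : 0 < ε) (v : E n) :
    ∫ t : E n, ((Real.exp (-ε * ‖t‖ ^ 2) : ℝ) : ℂ) * ee ⟪v, t⟫ = (Kg n ε v : ℂ) := by
  have h := GaussianFourier.integral_cexp_neg_mul_sq_norm_add (V := E n) (b := (ε : ℂ))
    (by simpa using hε) (2 * Real.pi * I) v
  have e1 : ∀ t : E n, ((Real.exp (-ε * ‖t‖ ^ 2) : ℝ) : ℂ) * ee ⟪v, t⟫ =
      cexp (-(ε : ℂ) * ‖t‖ ^ 2 + 2 * Real.pi * I * ⟪v, t⟫) := by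
    intro t
    unfold ee
    rw [Complex.ofReal_exp, ← Complex.exp_add]
    congr 1
    push_cast
    ring
  simp_rw [e1]
  rw [h]
  unfold Kg
  rw [finrank_euclideanSpace, Fintype.card_fin]
  push_cast
  rw [Complex.ofReal_cpow (by positivity)]
  push_cast
  congr 2
  have : (2 * (Real.pi : ℂ) * I) ^ 2 = -(4 * (Real.pi : ℂ) ^ 2) := by
    rw [mul_pow, mul_pow, I_sq]; ring
  rw [this]
  have hε' : (ε : ℂ) ≠ 0 := by exact_mod_cast hε.ne'
  field_simp

theorem gexp_int (n : ℕ) (ε : ℝ) (hε : 0 < ε) :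
    Integrable (fun t : E n => Real.exp (-ε * ‖t‖ ^ 2)) := by
  by_contra hni
  have h1 := GaussianFourier.integral_rexp_neg_mul_sq_norm (V := E n) hε
  rw [integral_undef hni] at h1
  have : 0 < (Real.pi / ε) ^ ((Module.finrank ℝ (E n) : ℝ) / 2) := by positivity
  linarith

/-- the regularised identity -/
theorem reg {n : ℕ} (P : E n → E n) (hP : Measurable P) (g : E n → ℂ) (hg : Integrable g) (ε : ℝ)
    (hε : 0 < ε) :
    ∫⁻ t : E n, ‖∫ x, ee ⟪P x, t⟫ * g x‖ₑ ^ 2 * ENNReal.ofReal (Real.exp (-ε * ‖t‖ ^ 2)) ≤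
      ∫⁻ x, ∫⁻ y, ‖g x‖ₑ * ‖g y‖ₑ * ENNReal.ofReal (Kg n ε (P x - P y)) := by
  set F : E n → ℂ := fun t => ∫ x, ee ⟪P x, t⟫ * g x with hF
  set h : E n → (E n × E n) → ℂ := fun t z =>
    ((Real.exp (-ε * ‖t‖ ^ 2) : ℝ) : ℂ) * (ee ⟪P z.1 - P z.2, t⟫ * (g z.1 * conj (g z.2))) with hh
  have hgm := hg.aestronglyMeasurable
  have hgg : Integrable (fun z : E n × E n => g z.1 * conj (g z.2)) (volume.prod volume) :=
    hg.mul_prod ((Complex.conjLIE.toContinuousLinearEquiv.integrable_comp_iff).2 hg)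
  have hprod : Integrable (fun p : E n × (E n × E n) =>
      ((Real.exp (-ε * ‖p.1‖ ^ 2) : ℝ) : ℂ) * (g p.2.1 * conj (g p.2.2)))
      (volume.prod (volume.prod volume)) :=
    (gexp_int n ε hε).ofReal.mul_prod hgg
  have hem : Measurable fun p : E n × (E n × E n) => ee ⟪P p.2.1 - P p.2.2, p.1⟫ :=
    ee_meas.comp (Measurable.inner ((hP.comp (measurable_fst.comp measurable_snd)).sub
      (hP.comp (measurable_snd.comp measurable_snd))) measurable_fst)
  have hint : Integrable (fun p : E n × (E n × E n) => h p.1 p.2)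
      (volume.prod (volume.prod volume)) := by
    have h1 := hprod.bdd_mul (c := 1) hem.aestronglyMeasurable
      (Filter.Eventually.of_forall fun p => (ee_norm _).le)
    refine h1.congr (Filter.Eventually.of_forall fun p => ?_)
    simp only [hh]
    ring
  have hsq : ∀ t, (F t * conj (F t)) = ∫ z : E n × E n, ee ⟪P z.1 - P z.2, t⟫ *
      (g z.1 * conj (g z.2)) ∂(volume.prod volume) := by
    intro t
    have e1 : conj (F t) = ∫ y, conj (ee ⟪P y, t⟫ * g y) := by
      simp only [hF]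
      rw [← integral_conj]
    rw [e1]
    simp only [hF]
    rw [← integral_prod_mul]
    refine integral_congr_ae (Filter.Eventually.of_forall fun z => ?_)
    simp only
    rw [map_mul, ee_conj, inner_sub_left, sub_eq_add_neg, ee_add]
    ring
  have hkey : ∫ t, ((Real.exp (-ε * ‖t‖ ^ 2) : ℝ) : ℂ) * (F t * conj (F t)) =
      ∫ z : E n × E n, (g z.1 * conj (g z.2)) * (Kg n ε (P z.1 - P z.2) : ℂ)
        ∂(volume.prod volume) := by
    have e1 : ∀ t, ((Real.exp (-ε * ‖t‖ ^ 2) : ℝ) : ℂ) * (F t * conj (F t)) =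
        ∫ z : E n × E n, h t z ∂(volume.prod volume) := by
      intro t
      rw [hsq, ← integral_const_mul]
    simp_rw [e1]
    rw [integral_integral_swap hint]
    refine integral_congr_ae (Filter.Eventually.of_forall fun z => ?_)
    simp only [hh]
    rw [← gauss_ft n ε hε, ← integral_const_mul]
    refine integral_congr_ae (Filter.Eventually.of_forall fun t => ?_)
    simp only
    ring
  -- real form
  have hFm : AEStronglyMeasurable F volume := by
    have : AEStronglyMeasurable (fun p : E n × E n => ee ⟪P p.2, p.1⟫ * g p.2)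
        (volume.prod volume) :=
      (ee_meas.comp (Measurable.inner (hP.comp measurable_snd) measurable_fst)).aestronglyMeasurable.mul
        hgm.comp_snd
    exact this.integral_prod_right'
  have hFb : ∀ t, ‖F t‖ ≤ ∫ x, ‖g x‖ := by
    intro t
    refine (norm_integral_le_integral_norm _).trans (le_of_eq ?_)
    refine integral_congr_ae (Filter.Eventually.of_forall fun x => ?_)
    simp only
    rw [norm_mul, ee_norm, one_mul]
  have hint2 : Integrable (fun t : E n => Real.exp (-ε * ‖t‖ ^ 2) * ‖F t‖ ^ 2) := by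
    have := (gexp_int n ε hε).bdd_mul (c := (∫ x, ‖g x‖) ^ 2) (hFm.norm.pow 2)
      (Filter.Eventually.of_forall fun t => by
        have h0 : 0 ≤ (‖F t‖) ^ 2 := by positivity
        show ‖(‖F t‖) ^ 2‖ ≤ _
        rw [Real.norm_of_nonneg h0]
        exact pow_le_pow_left₀ (norm_nonneg _) (hFb t) 2)
    refine this.congr (Filter.Eventually.of_forall fun t => ?_)
    simp only [Pi.pow_apply]
    ring
  have hre : ∫ t, ((Real.exp (-ε * ‖t‖ ^ 2) : ℝ) : ℂ) * (F t * conj (F t)) =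
      ((∫ t, Real.exp (-ε * ‖t‖ ^ 2) * ‖F t‖ ^ 2 : ℝ) : ℂ) := by
    rw [← integral_complex_ofReal]
    refine integral_congr_ae (Filter.Eventually.of_forall fun t => ?_)
    simp only
    rw [Complex.mul_conj, Complex.normSq_eq_norm_sq]
    push_cast
    ring
  have hle : ENNReal.ofReal (∫ t, Real.exp (-ε * ‖t‖ ^ 2) * ‖F t‖ ^ 2) ≤
      ∫⁻ z : E n × E n, ‖(g z.1 * conj (g z.2)) * (Kg n ε (P z.1 - P z.2) : ℂ)‖ₑ
        ∂(volume.prod volume) := by
    have h1 : ENNReal.ofReal (∫ t, Real.exp (-ε * ‖t‖ ^ 2) * ‖F t‖ ^ 2) =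
        ‖((∫ t, Real.exp (-ε * ‖t‖ ^ 2) * ‖F t‖ ^ 2 : ℝ) : ℂ)‖ₑ := by
      have h0 : 0 ≤ ∫ t, Real.exp (-ε * ‖t‖ ^ 2) * ‖F t‖ ^ 2 :=
        integral_nonneg fun t => by positivity
      rw [← ofReal_norm, Complex.norm_real, Real.norm_of_nonneg h0]
    rw [h1, ← hre, hkey]
    exact enorm_integral_le_lintegral_enorm _
  have hlhs : ∫⁻ t : E n, ‖F t‖ₑ ^ 2 * ENNReal.ofReal (Real.exp (-ε * ‖t‖ ^ 2)) =
      ENNReal.ofReal (∫ t, Real.exp (-ε * ‖t‖ ^ 2) * ‖F t‖ ^ 2) := by
    rw [ofReal_integral_eq_lintegral_ofReal hint2 (Filter.Eventually.of_forall fun t => by positivity)]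
    refine lintegral_congr fun t => ?_
    rw [ENNReal.ofReal_mul (by positivity), mul_comm, ENNReal.ofReal_pow (norm_nonneg _), ofReal_norm]
  rw [hlhs]
  refine hle.trans (le_of_eq ?_)
  have hm : AEMeasurable (fun z : E n × E n => ‖g z.1‖ₑ * ‖g z.2‖ₑ *
      ENNReal.ofReal (Kg n ε (P z.1 - P z.2))) (volume.prod volume) := by
    refine ((hgm.comp_fst.enorm.mul hgm.comp_snd.enorm)).mul ?_
    exact (((Kg_cont n ε).measurable.comp ((hP.comp measurable_fst).sub
      (hP.comp measurable_snd))).ennreal_ofReal).aemeasurable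
  rw [← lintegral_prod _ hm]
  refine lintegral_congr fun z => ?_
  rw [enorm_mul, enorm_mul]
  congr 1
  · congr 1
    rw [← ofReal_norm, Complex.norm_conj, ofReal_norm]
  · rw [← ofReal_norm, Complex.norm_real, Real.norm_of_nonneg (Kg_nonneg n ε hε _)]

end Pool.Agent.R412.RT
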