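import Mathlib
import Pool.Agent.R412.RT.A
set_option autoImplicit false

/-! Plancherel inequality for the push forward under an injective differentiable map. -/

namespace Pool.Agent.R412.RT

open MeasureTheory Complex Set Filter Topology
open scoped ENNReal RealInnerProductSpace ComplexConjugate

theorem amgm (a b p q : ℝ) (hp : 0 < p) (hq : 0 < q) :
    2 * (a * b) ≤ a ^ 2 / p * q + b ^ 2 / q * p := by
  have h : a ^ 2 / p * q + b ^ 2 / q * p - 2 * (a * b) = (a * q - b * p) ^ 2 / (p * q) := by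
    field_simp
    ring
  have : 0 ≤ (a * q - b * p) ^ 2 / (p * q) := by positivity
  linarith

theorem amgm' (a b : ℝ) (ha : 0 ≤ a) (hb : 0 ≤ b) (p q : ℝ) (hp : 0 < p) (hq : 0 < q) :
    2 * (ENNReal.ofReal a * ENNReal.ofReal b) ≤
      ENNReal.ofReal a ^ 2 / ENNReal.ofReal p * ENNReal.ofReal q +
        ENNReal.ofReal b ^ 2 / ENNReal.ofReal q * ENNReal.ofReal p := by
  rw [← ENNReal.ofReal_pow ha, ← ENNReal.ofReal_pow hb, ← ENNReal.ofReal_div_of_pos hp,
    ← ENNReal.ofReal_div_of_pos hq,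
    ← ENNReal.ofReal_mul (p := a ^ 2 / p) (by positivity),
    ← ENNReal.ofReal_mul (p := b ^ 2 / q) (by positivity), ← ENNReal.ofReal_mul ha,
    ← ENNReal.ofReal_add (by positivity) (by positivity),
    show (2 : ℝ≥0∞) = ENNReal.ofReal 2 by norm_num, ← ENNReal.ofReal_mul (by norm_num)]
  exact ENNReal.ofReal_le_ofReal (amgm a b p q hp hq)

theorem double_le {n : ℕ} (P : E n → E n) (hPm : Measurable P) (P' : E n → (E n →L[ℝ] E n))
    (V : Set (E n)) (hV : MeasurableSet V) (hP : ∀ x ∈ V, HasFDerivWithinAt P (P' x) V x)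
    (hinj : InjOn P V) (hdet : ∀ x ∈ V, (P' x).det ≠ 0)
    (hdm : Measurable fun x => |(P' x).det|) (g : E n → ℂ) (hg : Integrable g)
    (hgV : ∀ x, x ∉ V → g x = 0) (ε : ℝ) (hε : 0 < ε) :
    ∫⁻ x, ∫⁻ y, ‖g x‖ₑ * ‖g y‖ₑ * ENNReal.ofReal (Kg n ε (P x - P y)) ≤
      ∫⁻ x, ‖g x‖ₑ ^ 2 / ENNReal.ofReal |(P' x).det| := by
  set J : E n → ℝ≥0∞ := fun x => ENNReal.ofReal |(P' x).det| with hJ
  have hJm : Measurable J := hdm.ennreal_ofReal
  set H : E n → E n → ℝ≥0∞ := fun x y =>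
    (‖g x‖ₑ ^ 2 / J x) * (V.indicator J y * ENNReal.ofReal (Kg n ε (P x - P y))) with hH
  have hgm := hg.aestronglyMeasurable
  have hHm : AEMeasurable (Function.uncurry H) (volume.prod volume) := by
    simp only [hH, Function.uncurry_def]
    refine AEMeasurable.mul ?_ (AEMeasurable.mul ?_ ?_)
    · exact (hgm.comp_fst.enorm.pow_const 2).div (hJm.comp measurable_fst).aemeasurable
    · exact ((hJm.indicator hV).comp measurable_snd).aemeasurable
    · exact (((Kg_cont n ε).measurable.comp ((hPm.comp measurable_fst).sub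
        (hPm.comp measurable_snd))).ennreal_ofReal).aemeasurable
  have hpt : ∀ x y, 2 * (‖g x‖ₑ * ‖g y‖ₑ * ENNReal.ofReal (Kg n ε (P x - P y))) ≤
      H x y + H y x := by
    intro x y
    by_cases hx : x ∈ V
    · by_cases hy : y ∈ V
      · have h1 := amgm' ‖g x‖ ‖g y‖ (norm_nonneg _) (norm_nonneg _) |(P' x).det| |(P' y).det|
          (abs_pos.2 (hdet x hx)) (abs_pos.2 (hdet y hy))
        rw [ofReal_norm, ofReal_norm] at h1
        simp only [hH, indicator_of_mem hx, indicator_of_mem hy]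
        have e1 : Kg n ε (P y - P x) = Kg n ε (P x - P y) := by
          rw [← Kg_neg, neg_sub]
        rw [e1]
        calc 2 * (‖g x‖ₑ * ‖g y‖ₑ * ENNReal.ofReal (Kg n ε (P x - P y)))
            = (2 * (‖g x‖ₑ * ‖g y‖ₑ)) * ENNReal.ofReal (Kg n ε (P x - P y)) := by ring
          _ ≤ (‖g x‖ₑ ^ 2 / J x * J y + ‖g y‖ₑ ^ 2 / J y * J x) *
              ENNReal.ofReal (Kg n ε (P x - P y)) := by gcongr
          _ = _ := by ring
      · rw [hgV y hy]; simp
    · rw [hgV x hx]; simp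
  have hin : ∀ x, ∫⁻ y, H x y ≤ ‖g x‖ₑ ^ 2 / J x := by
    intro x
    simp only [hH]
    rw [lintegral_const_mul]
    · have h1 : ∫⁻ y, V.indicator J y * ENNReal.ofReal (Kg n ε (P x - P y)) ≤ 1 := by
        have e1 : ∀ y, V.indicator J y * ENNReal.ofReal (Kg n ε (P x - P y)) =
            V.indicator (fun y => J y * ENNReal.ofReal (Kg n ε (P x - P y))) y := by
          intro y
          by_cases hy : y ∈ V
          · simp [hy]
          · simp [hy]
        simp_rw [e1]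
        rw [lintegral_indicator hV]
        have h2 := lintegral_image_eq_lintegral_abs_det_fderiv_mul volume hV hP hinj
          (fun u => ENNReal.ofReal (Kg n ε (P x - u)))
        simp only [hJ]
        rw [← h2]
        calc ∫⁻ u in P '' V, ENNReal.ofReal (Kg n ε (P x - u))
            ≤ ∫⁻ u, ENNReal.ofReal (Kg n ε (P x - u)) := setLIntegral_le_lintegral _ _
          _ = ∫⁻ u, ENNReal.ofReal (Kg n ε u) :=
            lintegral_sub_left_eq_self (fun u => ENNReal.ofReal (Kg n ε u)) (P x)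
          _ = 1 := Kg_int n ε hε
      calc _ ≤ ‖g x‖ₑ ^ 2 / J x * 1 := by gcongr
        _ = _ := mul_one _
    · exact (hJm.indicator hV).mul ((Kg_cont n ε).measurable.comp
        (measurable_const.sub hPm)).ennreal_ofReal
  have hsum : 2 * ∫⁻ x, ∫⁻ y, ‖g x‖ₑ * ‖g y‖ₑ * ENNReal.ofReal (Kg n ε (P x - P y)) ≤
      2 * ∫⁻ x, ‖g x‖ₑ ^ 2 / J x := by
    have hA : AEMeasurable (fun z : E n × E n => ‖g z.1‖ₑ * ‖g z.2‖ₑ *
        ENNReal.ofReal (Kg n ε (P z.1 - P z.2))) (volume.prod volume) := by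
      refine ((hgm.comp_fst.enorm.mul hgm.comp_snd.enorm)).mul ?_
      exact (((Kg_cont n ε).measurable.comp ((hPm.comp measurable_fst).sub
        (hPm.comp measurable_snd))).ennreal_ofReal).aemeasurable
    have hHm' : AEMeasurable (fun z : E n × E n => H z.1 z.2) (volume.prod volume) := hHm
    have hsw : AEMeasurable (fun z : E n × E n => H z.2 z.1) (volume.prod volume) := by
      simp only [hH]
      refine AEMeasurable.mul ?_ (AEMeasurable.mul ?_ ?_)
      · exact (hgm.comp_snd.enorm.pow_const 2).div (hJm.comp measurable_snd).aemeasurable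
      · exact ((hJm.indicator hV).comp measurable_fst).aemeasurable
      · exact (((Kg_cont n ε).measurable.comp ((hPm.comp measurable_snd).sub
          (hPm.comp measurable_fst))).ennreal_ofReal).aemeasurable
    rw [← lintegral_prod _ hA, ← lintegral_const_mul'' _ hA]
    calc ∫⁻ z : E n × E n, 2 * (‖g z.1‖ₑ * ‖g z.2‖ₑ * ENNReal.ofReal (Kg n ε (P z.1 - P z.2)))
          ∂(volume.prod volume)
        ≤ ∫⁻ z : E n × E n, (H z.1 z.2 + H z.2 z.1) ∂(volume.prod volume) :=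
          lintegral_mono fun z => hpt z.1 z.2
      _ = (∫⁻ z : E n × E n, H z.1 z.2 ∂(volume.prod volume)) +
          (∫⁻ z : E n × E n, H z.2 z.1 ∂(volume.prod volume)) := lintegral_add_left' hHm' _
      _ = (∫⁻ x, ∫⁻ y, H x y) + (∫⁻ x, ∫⁻ y, H y x) := by
          rw [lintegral_prod _ hHm', lintegral_prod _ hsw]
      _ = (∫⁻ x, ∫⁻ y, H x y) + (∫⁻ x, ∫⁻ y, H x y) := by
          rw [lintegral_lintegral_swap (f := fun x y => H y x) hsw]
      _ ≤ (∫⁻ x, ‖g x‖ₑ ^ 2 / J x) + (∫⁻ x, ‖g x‖ₑ ^ 2 / J x) :=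
          add_le_add (lintegral_mono hin) (lintegral_mono hin)
      _ = _ := by rw [two_mul]
  exact (ENNReal.mul_le_mul_iff_right (by norm_num) (by norm_num)).1 hsum

/-- **Plancherel inequality** for the push forward. -/
theorem planch {n : ℕ} (P : E n → E n) (hPm : Measurable P) (P' : E n → (E n →L[ℝ] E n))
    (V : Set (E n)) (hV : MeasurableSet V) (hP : ∀ x ∈ V, HasFDerivWithinAt P (P' x) V x)
    (hinj : InjOn P V) (hdet : ∀ x ∈ V, (P' x).det ≠ 0)
    (hdm : Measurable fun x => |(P' x).det|) (g : E n → ℂ) (hg : Integrable g)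
    (hgV : ∀ x, x ∉ V → g x = 0) :
    ∫⁻ t : E n, ‖∫ x, ee ⟪P x, t⟫ * g x‖ₑ ^ 2 ≤
      ∫⁻ x, ‖g x‖ₑ ^ 2 / ENNReal.ofReal |(P' x).det| := by
  set F : E n → ℂ := fun t => ∫ x, ee ⟪P x, t⟫ * g x with hF
  have hFm : AEStronglyMeasurable F volume := by
    have : AEStronglyMeasurable (fun p : E n × E n => ee ⟪P p.2, p.1⟫ * g p.2)
        (volume.prod volume) :=
      (ee_meas.comp (Measurable.inner (hPm.comp measurable_snd)
        measurable_fst)).aestronglyMeasurable.mul hg.aestronglyMeasurable.comp_snd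
    exact this.integral_prod_right'
  have hlim : ∀ t : E n, Tendsto (fun k : ℕ => ‖F t‖ₑ ^ 2 *
      ENNReal.ofReal (Real.exp (-(1 / ((k : ℝ) + 1)) * ‖t‖ ^ 2))) atTop (𝓝 (‖F t‖ₑ ^ 2)) := by
    intro t
    have h1 : Tendsto (fun k : ℕ => Real.exp (-(1 / ((k : ℝ) + 1)) * ‖t‖ ^ 2)) atTop (𝓝 1) := by
      have h2 : Tendsto (fun k : ℕ => -(1 / ((k : ℝ) + 1)) * ‖t‖ ^ 2) atTop (𝓝 0) := by
        have := (tendsto_one_div_add_atTop_nhds_zero_nat (𝕜 := ℝ)).neg.mul_const (‖t‖ ^ 2)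
        simpa using this
      have := (Real.continuous_exp.tendsto 0).comp h2
      rwa [Real.exp_zero] at this
    have h3 : Tendsto (fun k : ℕ => ENNReal.ofReal (Real.exp (-(1 / ((k : ℝ) + 1)) * ‖t‖ ^ 2)))
        atTop (𝓝 1) := by
      have := ENNReal.tendsto_ofReal h1
      rwa [ENNReal.ofReal_one] at this
    have h4 := ENNReal.Tendsto.const_mul (a := ‖F t‖ₑ ^ 2) h3 (Or.inl one_ne_zero)
    rwa [mul_one] at h4
  calc ∫⁻ t : E n, ‖F t‖ₑ ^ 2 = ∫⁻ t : E n, liminf (fun k : ℕ => ‖F t‖ₑ ^ 2 *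
        ENNReal.ofReal (Real.exp (-(1 / ((k : ℝ) + 1)) * ‖t‖ ^ 2))) atTop := by
        refine lintegral_congr fun t => ?_
        rw [(hlim t).liminf_eq]
    _ ≤ liminf (fun k : ℕ => ∫⁻ t : E n, ‖F t‖ₑ ^ 2 *
        ENNReal.ofReal (Real.exp (-(1 / ((k : ℝ) + 1)) * ‖t‖ ^ 2))) atTop := by
        refine lintegral_liminf_le' fun k => ?_
        exact (hFm.enorm.pow_const 2).mul (by fun_prop)
    _ ≤ ∫⁻ x, ‖g x‖ₑ ^ 2 / ENNReal.ofReal |(P' x).det| := by
        refine liminf_le_of_frequently_le' (Frequently.of_forall fun k => ?_)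
        have hk : (0 : ℝ) < 1 / ((k : ℝ) + 1) := by positivity
        exact (reg P hPm g hg _ hk).trans
          (double_le P hPm P' V hV hP hinj hdet hdm g hg hgV _ hk)

end Pool.Agent.R412.RT
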