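import Mathlib
import Pool.Agent.R412.RT.A2
set_option autoImplicit false

/-! The paraboloid in the coordinates of an orthonormal basis. -/

namespace Pool.Agent.R412.RT

open MeasureTheory Complex Set Filter Topology Matrix
open scoped ENNReal RealInnerProductSpace ComplexConjugate

/-- the paraboloid `x ↦ (x, |x|^2)` -/
noncomputable def Phi {n : ℕ} (x : E n) : E (n + 1) :=
  WithLp.toLp 2 (Fin.snoc (fun i => x i) (∑ i, x i ^ 2))

/-- the normal `(-2x, 1)` -/
noncomputable def Nn {n : ℕ} (x : E n) : E (n + 1) :=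
  WithLp.toLp 2 (Fin.snoc (fun i => -2 * x i) 1)

@[simp] theorem Phi_cast {n : ℕ} (x : E n) (i : Fin n) : Phi x i.castSucc = x i := by
  simp [Phi]

@[simp] theorem Phi_last {n : ℕ} (x : E n) : Phi x (Fin.last n) = ∑ i, x i ^ 2 := by
  simp [Phi]

@[simp] theorem Nn_cast {n : ℕ} (x : E n) (i : Fin n) : Nn x i.castSucc = -2 * x i := by
  simp [Nn]

@[simp] theorem Nn_last {n : ℕ} (x : E n) : Nn x (Fin.last n) = 1 := by
  simp [Nn]

variable {n : ℕ} (e : OrthonormalBasis (Fin (n + 1)) ℝ (E (n + 1)))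

theorem inner_eq (a b : E n) : ⟪a, b⟫ = ∑ i, a i * b i := by
  simp [PiLp.inner_apply, mul_comm]

/-- coordinates of the paraboloid -/
noncomputable def ph (i : Fin (n + 1)) (x : E n) : ℝ := ⟪e i, Phi x⟫

theorem ph_eq (i : Fin (n + 1)) (x : E n) :
    ph e i x = ∑ j : Fin n, e i j.castSucc * x j + e i (Fin.last n) * ∑ j, x j ^ 2 := by
  unfold ph
  rw [inner_eq, Fin.sum_univ_castSucc]
  simp

/-- the normal component -/
noncomputable def Jn (m : Fin (n + 1)) (x : E n) : ℝ := ⟪e m, Nn x⟫

theorem Jn_eq (m : Fin (n + 1)) (x : E n) :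
    Jn e m x = e m (Fin.last n) - ∑ j : Fin n, 2 * x j * e m j.castSucc := by
  unfold Jn
  rw [inner_eq, Fin.sum_univ_castSucc]
  simp only [Nn_cast, Nn_last, mul_one]
  rw [add_comm, sub_eq_add_neg, ← Finset.sum_neg_distrib]
  congr 1
  refine Finset.sum_congr rfl fun j _ => ?_
  ring

/-- the matrix of derivatives -/
noncomputable def Am (m : Fin (n + 1)) (x : E n) : Matrix (Fin n) (Fin n) ℝ :=
  fun i j => e (m.succAbove i) j.castSucc + 2 * x j * e (m.succAbove i) (Fin.last n)

noncomputable def Bm : Matrix (Fin (n + 1)) (Fin (n + 1)) ℝ := fun i j => e i j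

theorem Bm_mul : Bm e * (Bm e)ᵀ = 1 := by
  ext i j
  rw [Matrix.mul_apply]
  simp only [Matrix.transpose_apply, Bm]
  rw [← inner_eq, Matrix.one_apply]
  exact orthonormal_iff_ite.1 e.orthonormal i j

theorem Bm_det : |(Bm e).det| = 1 := by
  have h := congrArg Matrix.det (Bm_mul e)
  rw [Matrix.det_mul, Matrix.det_transpose, Matrix.det_one] at h
  rw [abs_eq (by norm_num)]
  exact mul_self_eq_one_iff.1 h

noncomputable def Tm (m : Fin (n + 1)) (x : E n) : Matrix (Fin (n + 1)) (Fin (n + 1)) ℝ :=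
  fun k j => Fin.lastCases (e m k)
    (fun j' : Fin n => Fin.lastCases (2 * x j') (fun k' : Fin n => if k' = j' then 1 else 0) k) j

theorem Tm_det (m : Fin (n + 1)) (x : E n) : (Tm e m x).det = Jn e m x := by
  have h1 : (Tm e m x).submatrix (finSumFinEquiv (m := n) (n := 1))
      (finSumFinEquiv (m := n) (n := 1)) =
      Matrix.fromBlocks 1 (fun k _ => e m k.castSucc) (fun _ j => 2 * x j)
        (fun _ _ => e m (Fin.last n)) := by
    ext a b
    rcases a with a | a <;> rcases b with b | b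
    · simp only [Matrix.submatrix_apply, finSumFinEquiv_apply_left, Matrix.fromBlocks_apply₁₁]
      show Tm e m x a.castSucc b.castSucc = _
      simp [Tm, Matrix.one_apply]
    · simp only [Matrix.submatrix_apply, finSumFinEquiv_apply_left, finSumFinEquiv_apply_right,
        Matrix.fromBlocks_apply₁₂]
      have hb : Fin.natAdd n b = Fin.last n := by
        ext; simp
      rw [hb]
      show Tm e m x a.castSucc (Fin.last n) = _
      simp [Tm]
    · simp only [Matrix.submatrix_apply, finSumFinEquiv_apply_left, finSumFinEquiv_apply_right,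
        Matrix.fromBlocks_apply₂₁]
      have hb : Fin.natAdd n a = Fin.last n := by
        ext; simp
      rw [hb]
      show Tm e m x (Fin.last n) b.castSucc = _
      simp [Tm]
    · simp only [Matrix.submatrix_apply, finSumFinEquiv_apply_right, Matrix.fromBlocks_apply₂₂]
      have ha : Fin.natAdd n a = Fin.last n := by
        ext; simp
      have hb : Fin.natAdd n b = Fin.last n := by
        ext; simp
      rw [ha, hb]
      simp [Tm]
  rw [← Matrix.det_submatrix_equiv_self (finSumFinEquiv (m := n) (n := 1)), h1,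
    Matrix.det_fromBlocks_one₁₁, Matrix.det_unique, Matrix.sub_apply, Matrix.mul_apply, Jn_eq]

theorem BT_last (m i : Fin (n + 1)) (x : E n) :
    (Bm e * Tm e m x) i (Fin.last n) = if i = m then 1 else 0 := by
  rw [Matrix.mul_apply]
  simp only [Tm, Bm, Fin.lastCases_last]
  rw [← inner_eq]
  exact orthonormal_iff_ite.1 e.orthonormal i m

theorem BT_cast (m i : Fin (n + 1)) (j : Fin n) (x : E n) :
    (Bm e * Tm e m x) i j.castSucc = e i j.castSucc + 2 * x j * e i (Fin.last n) := by
  rw [Matrix.mul_apply, Fin.sum_univ_castSucc]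
  simp only [Tm, Bm, Fin.lastCases_castSucc, Fin.lastCases_last]
  simp [mul_comm]

theorem Am_det (m : Fin (n + 1)) (x : E n) :
    (Bm e).det * Jn e m x = (-1) ^ ((m : ℕ) + n) * (Am e m x).det := by
  rw [← Tm_det, ← Matrix.det_mul, Matrix.det_succ_column _ (Fin.last n), Finset.sum_eq_single m]
  · rw [BT_last, if_pos rfl, mul_one]
    congr 2
    ext i j
    rw [Matrix.submatrix_apply, Fin.succAbove_last, BT_cast]
    rfl
  · intro i _ hi
    rw [BT_last, if_neg hi]
    ring
  · intro h
    exact absurd (Finset.mem_univ m) h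

theorem Am_det_abs (m : Fin (n + 1)) (x : E n) : |(Am e m x).det| = |Jn e m x| := by
  have h := congrArg abs (Am_det e m x)
  rw [abs_mul, abs_mul, Bm_det, one_mul, abs_pow, abs_neg, abs_one, one_pow, one_mul] at h
  exact h.symm

/-- the map to the other coordinates -/
noncomputable def Pm (m : Fin (n + 1)) (x : E n) : E n :=
  WithLp.toLp 2 fun i => ph e (m.succAbove i) x

theorem Pm_apply (m : Fin (n + 1)) (x : E n) (i : Fin n) :
    Pm e m x i = ph e (m.succAbove i) x := rfl

noncomputable def Pd (m : Fin (n + 1)) (x : E n) : E n →L[ℝ] E n :=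
  LinearMap.toContinuousLinearMap (Matrix.toLin (EuclideanSpace.basisFun (Fin n) ℝ).toBasis
    (EuclideanSpace.basisFun (Fin n) ℝ).toBasis (Am e m x))

theorem Pd_det (m : Fin (n + 1)) (x : E n) : (Pd e m x).det = (Am e m x).det := by
  unfold Pd ContinuousLinearMap.det
  rw [LinearMap.coe_toContinuousLinearMap, LinearMap.det_toLin]

theorem Pd_apply (m : Fin (n + 1)) (x v : E n) (i : Fin n) :
    Pd e m x v i = ∑ j, Am e m x i j * v j := by
  unfold Pd
  rw [LinearMap.coe_toContinuousLinearMap']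
  have h := Matrix.toLin_apply (EuclideanSpace.basisFun (Fin n) ℝ).toBasis
    (EuclideanSpace.basisFun (Fin n) ℝ).toBasis (Am e m x) v
  rw [h]
  simp only [OrthonormalBasis.coe_toBasis, WithLp.ofLp_sum, WithLp.ofLp_smul, Finset.sum_apply,
    Pi.smul_apply, smul_eq_mul, EuclideanSpace.basisFun_apply, PiLp.single_apply,
    Matrix.mulVec, dotProduct, mul_ite, mul_one, mul_zero, Finset.sum_ite_eq,
    Finset.mem_univ, if_true]
  rfl

theorem Pm_deriv (m : Fin (n + 1)) (x : E n) : HasFDerivAt (Pm e m) (Pd e m x) x := by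
  rw [← hasFDerivWithinAt_univ, hasFDerivWithinAt_euclidean]
  intro i
  rw [hasFDerivWithinAt_univ]
  have h1 : ∀ j : Fin n, HasFDerivAt (fun y : E n => y j) (EuclideanSpace.proj j : E n →L[ℝ] ℝ) x :=
    fun j => (EuclideanSpace.proj (𝕜 := ℝ) j).hasFDerivAt
  have h2 : HasFDerivAt (fun y : E n => ∑ j : Fin n, e (m.succAbove i) j.castSucc * y j +
      e (m.succAbove i) (Fin.last n) * ∑ j, y j ^ 2)
      (∑ j : Fin n, e (m.succAbove i) j.castSucc • (EuclideanSpace.proj j : E n →L[ℝ] ℝ) +
        e (m.succAbove i) (Fin.last n) • ∑ j : Fin n,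
          (2 * x j) • (EuclideanSpace.proj j : E n →L[ℝ] ℝ)) x := by
    refine HasFDerivAt.add ?_ ?_
    · exact HasFDerivAt.fun_sum fun j _ => (h1 j).const_mul _
    · refine HasFDerivAt.const_mul ?_ _
      refine HasFDerivAt.fun_sum fun j _ => ?_
      have := (h1 j).pow 2
      simpa using this
  have e1 : (fun y : E n => Pm e m y i) = fun y : E n => ∑ j : Fin n,
      e (m.succAbove i) j.castSucc * y j + e (m.succAbove i) (Fin.last n) * ∑ j, y j ^ 2 := by
    ext y
    rw [Pm_apply, ph_eq]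
  rw [e1]
  refine h2.congr_fderiv ?_
  ext v
  have hR : ((PiLp.proj 2 (fun _ : Fin n => ℝ) i : E n →L[ℝ] ℝ).comp (Pd e m x)) v =
      ∑ j, Am e m x i j * v j := Pd_apply e m x v i
  refine Eq.trans ?_ hR.symm
  have hL : (∑ j : Fin n, e (m.succAbove i) j.castSucc • (EuclideanSpace.proj j : E n →L[ℝ] ℝ) +
        e (m.succAbove i) (Fin.last n) • ∑ j : Fin n,
          (2 * x j) • (EuclideanSpace.proj j : E n →L[ℝ] ℝ)) v =
      ∑ j : Fin n, e (m.succAbove i) j.castSucc * v j +
        e (m.succAbove i) (Fin.last n) * ∑ j : Fin n, (2 * x j) * v j := by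
    simp
  rw [hL, Finset.mul_sum, ← Finset.sum_add_distrib]
  refine Finset.sum_congr rfl fun j _ => ?_
  simp only [Am]
  ring

theorem Jn_mid (m : Fin (n + 1)) (x y : E n) :
    Jn e m ((1 / 2 : ℝ) • (x + y)) = (Jn e m x + Jn e m y) / 2 := by
  simp only [Jn_eq, PiLp.smul_apply, PiLp.add_apply, smul_eq_mul]
  have : ∑ j : Fin n, 2 * (1 / 2 * (x j + y j)) * e m j.castSucc =
      (∑ j : Fin n, 2 * x j * e m j.castSucc + ∑ j : Fin n, 2 * y j * e m j.castSucc) / 2 := by
    rw [← Finset.sum_add_distrib, Finset.sum_div]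
    refine Finset.sum_congr rfl fun j _ => ?_
    ring
  rw [this]
  ring

theorem Pm_mid (m : Fin (n + 1)) (x y : E n) (i : Fin n) :
    Pm e m x i - Pm e m y i = ∑ j, Am e m ((1 / 2 : ℝ) • (x + y)) i j * (x j - y j) := by
  rw [Pm_apply, Pm_apply, ph_eq, ph_eq]
  simp only [Am, PiLp.smul_apply, PiLp.add_apply, smul_eq_mul]
  rw [Finset.mul_sum, Finset.mul_sum, ← Finset.sum_add_distrib, ← Finset.sum_add_distrib,
    ← Finset.sum_sub_distrib]
  refine Finset.sum_congr rfl fun j _ => ?_
  ring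

/-- the region where the normal component has a fixed sign -/
def Vs (m : Fin (n + 1)) (s : ℝ) : Set (E n) := {x | 0 < s * Jn e m x}

theorem Pm_inj (m : Fin (n + 1)) (s : ℝ) : InjOn (Pm e m) (Vs e m s) := by
  intro x hx y hy hxy
  have hz : Jn e m ((1 / 2 : ℝ) • (x + y)) ≠ 0 := by
    rw [Jn_mid]
    intro h
    have hx' : 0 < s * Jn e m x := hx
    have hy' : 0 < s * Jn e m y := hy
    have h2 : Jn e m x + Jn e m y = 0 := by linarith
    have h3 : s * Jn e m x + s * Jn e m y = 0 := by rw [← mul_add, h2, mul_zero]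
    linarith
  have hdet : (Am e m ((1 / 2 : ℝ) • (x + y))).det ≠ 0 := by
    rw [← abs_pos, Am_det_abs, abs_pos]
    exact hz
  have hmv : (Am e m ((1 / 2 : ℝ) • (x + y))).mulVec (fun j => x j - y j) = 0 := by
    ext i
    show ∑ j, Am e m ((1 / 2 : ℝ) • (x + y)) i j * (x j - y j) = (0 : ℝ)
    rw [← Pm_mid, hxy, sub_self]
  have h0 := Matrix.eq_zero_of_mulVec_eq_zero hdet hmv
  ext j
  have := congrFun h0 j
  simpa [sub_eq_zero] using this

theorem Jn_cont (m : Fin (n + 1)) : Continuous (Jn e m) := by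
  have : Jn e m = fun x : E n => e m (Fin.last n) - ∑ j : Fin n, 2 * x j * e m j.castSucc := by
    ext x; exact Jn_eq e m x
  rw [this]
  fun_prop

theorem ph_cont (i : Fin (n + 1)) : Continuous (ph e i) := by
  have : ph e i = fun x : E n => ∑ j : Fin n, e i j.castSucc * x j +
      e i (Fin.last n) * ∑ j, x j ^ 2 := by
    ext x; exact ph_eq e i x
  rw [this]
  fun_prop

theorem Pm_cont (m : Fin (n + 1)) : Continuous (Pm e m) :=
  continuous_iff_continuousAt.2 fun x => (Pm_deriv e m x).continuousAt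

theorem Vs_meas (m : Fin (n + 1)) (s : ℝ) : MeasurableSet (Vs e m s) :=
  measurableSet_lt measurable_const ((Jn_cont e m).measurable.const_mul s)

/-- Plancherel in the coordinates other than `m` -/
theorem slab0 (m : Fin (n + 1)) (s : ℝ) (g : E n → ℂ) (hg : Integrable g)
    (hgV : ∀ x, x ∉ Vs e m s → g x = 0) :
    ∫⁻ t : E n, ‖∫ x, ee ⟪Pm e m x, t⟫ * g x‖ₑ ^ 2 ≤
      ∫⁻ x, ‖g x‖ₑ ^ 2 / ENNReal.ofReal |Jn e m x| := by
  have h := planch (Pm e m) (Pm_cont e m).measurable (Pd e m) (Vs e m s) (Vs_meas e m s)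
    (fun x _ => (Pm_deriv e m x).hasFDerivWithinAt) (Pm_inj e m s)
    (fun x hx => by
      rw [Pd_det, ← abs_pos, Am_det_abs, abs_pos]
      intro h0
      have hx' : 0 < s * Jn e m x := hx
      rw [h0, mul_zero] at hx'
      exact lt_irrefl _ hx')
    (by
      have : (fun x => |(Pd e m x).det|) = fun x => |Jn e m x| := by
        ext x
        rw [Pd_det, Am_det_abs]
      rw [this]
      exact (Jn_cont e m).abs.measurable) g hg hgV
  refine h.trans (le_of_eq ?_)
  refine lintegral_congr fun x => ?_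
  rw [Pd_det, Am_det_abs]

end Pool.Agent.R412.RT
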