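import Mathlib
import Pool.Agent.R412.RT.B
set_option autoImplicit false

/-! Slab estimates for the Fourier extension operator of the paraboloid. -/

namespace Pool.Agent.R412.RT

open MeasureTheory Complex Set Filter Topology
open scoped ENNReal RealInnerProductSpace ComplexConjugate

/-- the Fourier extension operator of the paraboloid -/
noncomputable def Ex {n : ℕ} (f : E n → ℂ) (ξ : E (n + 1)) : ℂ := ∫ x, ee ⟪Phi x, ξ⟫ * f x

variable {n : ℕ} (e : OrthonormalBasis (Fin (n + 1)) ℝ (E (n + 1)))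

theorem inner_repr_symm (i : Fin (n + 1)) (y : Fin (n + 1) → ℝ) :
    ⟪e i, e.repr.symm (WithLp.toLp 2 y)⟫ = y i := by
  rw [← e.repr_apply_apply, LinearIsometryEquiv.apply_symm_apply]

theorem inner_split (x : E n) (ξ : E (n + 1)) :
    ⟪Phi x, ξ⟫ = ∑ i, ph e i x * ⟪e i, ξ⟫ := by
  rw [← e.sum_inner_mul_inner]
  refine Finset.sum_congr rfl fun i _ => ?_
  rw [real_inner_comm]
  rfl

theorem cov (F : E (n + 1) → ℝ≥0∞) (hF : Measurable F) :
    ∫⁻ ξ, F ξ = ∫⁻ y : Fin (n + 1) → ℝ, F (e.repr.symm (WithLp.toLp 2 y)) := by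
  have h := e.measurePreserving_repr_symm.comp (PiLp.volume_preserving_toLp (Fin (n + 1)))
  exact (h.lintegral_comp hF).symm

/-- the extension operator in the frame `e` -/
noncomputable def Ey (f : E n → ℂ) (y : Fin (n + 1) → ℝ) : ℂ :=
  ∫ x, ee (∑ i, ph e i x * y i) * f x

theorem Ex_eq (f : E n → ℂ) (y : Fin (n + 1) → ℝ) :
    Ex f (e.repr.symm (WithLp.toLp 2 y)) = Ey e f y := by
  unfold Ex Ey
  simp only [inner_split e, inner_repr_symm]

theorem Ey_meas (f : E n → ℂ) (hf : AEStronglyMeasurable f) : Measurable (Ey e f) := by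
  obtain ⟨f', hf', hff⟩ := hf
  have h1 : Ey e f = Ey e f' := by
    ext y
    unfold Ey
    refine integral_congr_ae ?_
    filter_upwards [hff] with x hx
    rw [hx]
  rw [h1]
  unfold Ey
  have : StronglyMeasurable (Function.uncurry fun (y : Fin (n + 1) → ℝ) (x : E n) =>
      ee (∑ i, ph e i x * y i) * f' x) := by
    refine StronglyMeasurable.mul ?_ (hf'.comp_measurable measurable_snd)
    refine (ee_meas.comp ?_).stronglyMeasurable
    refine Finset.measurable_sum _ fun i _ => ?_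
    exact ((ph_cont e i).measurable.comp measurable_snd).mul
      ((measurable_pi_apply i).comp measurable_fst)
  exact this.integral_prod_right.measurable

theorem Ex_meas (f : E n → ℂ) (hf : AEStronglyMeasurable f) : Measurable (Ex f) := by
  have e := EuclideanSpace.basisFun (Fin (n + 1)) ℝ
  have h1 : Ex f = fun ξ => Ey e f (e.repr ξ).ofLp := by
    ext ξ
    rw [← Ex_eq]
    simp
  rw [h1]
  exact (Ey_meas e f hf).comp ((PiLp.volume_preserving_ofLp (Fin (n + 1))).measurable.comp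
    e.measurePreserving_repr.measurable)

theorem split_lint (m : Fin (n + 1)) (F : (Fin (n + 1) → ℝ) → ℝ≥0∞) (hF : Measurable F) :
    ∫⁻ y, F y = ∫⁻ a : ℝ, ∫⁻ t : Fin n → ℝ, F (m.insertNth a t) := by
  have h := (volume_preserving_piFinSuccAbove (fun _ : Fin (n + 1) => ℝ) m).symm
  rw [← h.lintegral_comp hF, Measure.volume_eq_prod, lintegral_prod]
  · rfl
  · exact (hF.comp (MeasurableEquiv.piFinSuccAbove (fun _ : Fin (n + 1) => ℝ) m).symm.measurable).aemeasurable

/-- the slab estimate -/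
theorem slab (m : Fin (n + 1)) (s : ℝ) (w : ℝ → ℝ≥0∞) (hw : Measurable w) (g : E n → ℂ)
    (hg : Integrable g) (hgV : ∀ x, x ∉ Vs e m s → g x = 0) :
    ∫⁻ y : Fin (n + 1) → ℝ, w (y m) * ‖Ey e g y‖ₑ ^ 2 ≤
      (∫⁻ a, w a) * ∫⁻ x, ‖g x‖ₑ ^ 2 / ENNReal.ofReal |Jn e m x| := by
  have hm : Measurable (Ey e g) := Ey_meas e g hg.1
  have hF : Measurable fun y : Fin (n + 1) → ℝ => w (y m) * ‖Ey e g y‖ₑ ^ 2 :=
    (hw.comp (measurable_pi_apply m)).mul (hm.enorm.pow_const 2)
  rw [split_lint m _ hF, ← lintegral_mul_const _ hw]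
  refine lintegral_mono fun a => ?_
  have h1 : ∀ t : Fin n → ℝ, w ((m.insertNth a t : Fin (n + 1) → ℝ) m) *
      ‖Ey e g (m.insertNth a t)‖ₑ ^ 2 =
      w a * ‖∫ x, ee ⟪Pm e m x, (WithLp.toLp 2 t : E n)⟫ * (ee (ph e m x * a) * g x)‖ₑ ^ 2 := by
    intro t
    rw [Fin.insertNth_apply_same]
    congr 3
    unfold Ey
    congr 1
    ext x
    rw [← mul_assoc, ← ee_add, Fin.sum_univ_succAbove _ m, Fin.insertNth_apply_same, inner_eq,
      add_comm]
    simp only [Fin.insertNth_apply_succAbove, Pm_apply]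
  have hgi : Integrable fun x => ee (ph e m x * a) * g x := by
    refine hg.bdd_mul (c := 1) ?_ ?_
    · exact (ee_meas.comp ((ph_cont e m).measurable.mul_const a)).aestronglyMeasurable
    · exact Eventually.of_forall fun x => (ee_norm _).le
  have h2 : ∫⁻ t : Fin n → ℝ, w a * ‖∫ x, ee ⟪Pm e m x, (WithLp.toLp 2 t : E n)⟫ *
      (ee (ph e m x * a) * g x)‖ₑ ^ 2 =
      ∫⁻ t : E n, w a * ‖∫ x, ee ⟪Pm e m x, t⟫ * (ee (ph e m x * a) * g x)‖ₑ ^ 2 :=
    (PiLp.volume_preserving_toLp (Fin n)).lintegral_comp_emb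
      (MeasurableEquiv.toLp 2 (Fin n → ℝ)).measurableEmbedding (fun t : E n =>
      w a * ‖∫ x, ee ⟪Pm e m x, t⟫ * (ee (ph e m x * a) * g x)‖ₑ ^ 2)
  have h3 := slab0 e m s (fun x => ee (ph e m x * a) * g x) hgi
    (fun x hx => by rw [hgV x hx, mul_zero])
  have h4 : ∀ x, ‖ee (ph e m x * a) * g x‖ₑ = ‖g x‖ₑ := by
    intro x
    rw [enorm_mul, ← ofReal_norm (ee _), ee_norm, ENNReal.ofReal_one, one_mul]
  simp_rw [h4] at h3
  simp_rw [h1]
  rw [h2]
  have hmm : AEMeasurable (fun t : E n =>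
      ‖∫ x, ee ⟪Pm e m x, t⟫ * (ee (ph e m x * a) * g x)‖ₑ ^ 2) := by
    have : AEStronglyMeasurable (fun p : E n × E n =>
        ee ⟪Pm e m p.2, p.1⟫ * (ee (ph e m p.2 * a) * g p.2)) (volume.prod volume) :=
      (ee_meas.comp (Measurable.inner ((Pm_cont e m).measurable.comp measurable_snd)
        measurable_fst)).aestronglyMeasurable.mul hgi.aestronglyMeasurable.comp_snd
    exact this.integral_prod_right'.enorm.pow_const 2
  rw [lintegral_const_mul'' _ hmm]
  exact mul_le_mul_right h3 _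

end Pool.Agent.R412.RT
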