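import Mathlib
import Pool.Agent.R412.RT.C
set_option autoImplicit false

/-! The estimate for functions dominated by functions of one coordinate. -/

namespace Pool.Agent.R412.RT

open MeasureTheory Complex Set Filter Topology
open scoped ENNReal RealInnerProductSpace ComplexConjugate

variable {n : ℕ} (e : OrthonormalBasis (Fin (n + 1)) ℝ (E (n + 1)))

/-- the minimum of the slab constants -/
noncomputable def Mn (L : Fin (n + 1) → ℝ≥0∞) (x : E n) : ℝ≥0∞ :=
  ⨅ i, L i / ENNReal.ofReal |Jn e i x|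

theorem Jn_exists (x : E n) : ∃ i, Jn e i x ≠ 0 := by
  by_contra h
  push Not at h
  have h1 : Nn x = 0 := by
    rw [← e.sum_repr (Nn x)]
    refine Finset.sum_eq_zero fun i _ => ?_
    rw [e.repr_apply_apply]
    have : ⟪e i, Nn x⟫ = 0 := h i
    rw [this, zero_smul]
  have h2 := Nn_last x
  rw [h1] at h2
  simp at h2

theorem ratio_meas (L : Fin (n + 1) → ℝ≥0∞) (i : Fin (n + 1)) :
    Measurable fun x : E n => L i / ENNReal.ofReal |Jn e i x| :=
  Measurable.const_div (Jn_cont e i).abs.measurable.ennreal_ofReal _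

theorem Mn_meas (L : Fin (n + 1) → ℝ≥0∞) : Measurable (Mn e L) :=
  Measurable.iInf fun i => ratio_meas e L i

/-- where the index attains the minimum -/
def Sx (L : Fin (n + 1) → ℝ≥0∞) (i : Fin (n + 1)) : Set (E n) :=
  {x | L i / ENNReal.ofReal |Jn e i x| ≤ Mn e L x}

theorem Sx_meas (L : Fin (n + 1) → ℝ≥0∞) (i : Fin (n + 1)) : MeasurableSet (Sx e L i) :=
  measurableSet_le (ratio_meas e L i) (Mn_meas e L)

theorem Sx_exists (L : Fin (n + 1) → ℝ≥0∞) (x : E n) : ∃ i, x ∈ Sx e L i ∧
    ∀ j < i, x ∉ Sx e L j := by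
  classical
  have h0 : ∃ i, x ∈ Sx e L i := by
    obtain ⟨i, hi⟩ := exists_eq_ciInf_of_finite (f := fun i => L i / ENNReal.ofReal |Jn e i x|)
    exact ⟨i, hi.le⟩
  set s : Finset (Fin (n + 1)) := Finset.univ.filter fun i => x ∈ Sx e L i with hs
  have hne : s.Nonempty := by
    obtain ⟨i, hi⟩ := h0
    exact ⟨i, by simp [hs, hi]⟩
  refine ⟨s.min' hne, ?_, ?_⟩
  · have := s.min'_mem hne
    simpa [hs] using this
  · intro j hj hjS
    have : j ∈ s := by simp [hs, hjS]
    exact absurd (s.min'_le j this) (not_le.2 hj)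

noncomputable def idx (L : Fin (n + 1) → ℝ≥0∞) (x : E n) : Fin (n + 1) :=
  (Sx_exists e L x).choose

theorem idx_mem (L : Fin (n + 1) → ℝ≥0∞) (x : E n) : x ∈ Sx e L (idx e L x) :=
  (Sx_exists e L x).choose_spec.1

theorem idx_min (L : Fin (n + 1) → ℝ≥0∞) (x : E n) : ∀ j < idx e L x, x ∉ Sx e L j :=
  (Sx_exists e L x).choose_spec.2

theorem idx_eq (L : Fin (n + 1) → ℝ≥0∞) (i : Fin (n + 1)) :
    {x | idx e L x = i} = Sx e L i ∩ ⋂ j : Fin (n + 1), ⋂ _ : j < i, (Sx e L j)ᶜ := by
  ext x
  simp only [mem_ofPred_eq, mem_inter_iff, mem_iInter, mem_compl_iff]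
  constructor
  · rintro rfl
    exact ⟨idx_mem e L x, idx_min e L x⟩
  · rintro ⟨h1, h2⟩
    rcases lt_trichotomy (idx e L x) i with h | h | h
    · exact absurd (idx_mem e L x) (h2 _ h)
    · exact h
    · exact absurd h1 (idx_min e L x i h)

theorem idx_set_meas (L : Fin (n + 1) → ℝ≥0∞) (i : Fin (n + 1)) :
    MeasurableSet {x | idx e L x = i} := by
  rw [idx_eq]
  exact (Sx_meas e L i).inter (MeasurableSet.iInter fun j => MeasurableSet.iInter fun _ =>
    (Sx_meas e L j).compl)

theorem idx_J (L : Fin (n + 1) → ℝ≥0∞) (hL0 : ∀ i, L i ≠ 0) (hLt : ∀ i, L i ≠ ∞) (x : E n) :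
    Jn e (idx e L x) x ≠ 0 := by
  intro h
  have h1 : L (idx e L x) / ENNReal.ofReal |Jn e (idx e L x) x| ≤ Mn e L x := idx_mem e L x
  rw [h, abs_zero, ENNReal.ofReal_zero, ENNReal.div_zero (hL0 _), top_le_iff] at h1
  obtain ⟨j, hj⟩ := Jn_exists e x
  have h2 : Mn e L x ≤ L j / ENNReal.ofReal |Jn e j x| := iInf_le _ j
  rw [h1, top_le_iff] at h2
  have h3 : L j / ENNReal.ofReal |Jn e j x| ≠ ∞ := by
    refine ENNReal.div_ne_top (hLt j) ?_
    rw [Ne, ENNReal.ofReal_eq_zero, not_le]
    exact abs_pos.2 hj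
  exact h3 h2

/-- the sign of the normal component at the chosen index -/
noncomputable def cx (L : Fin (n + 1) → ℝ≥0∞) (x : E n) : Fin (n + 1) × Bool :=
  (idx e L x, decide (0 < Jn e (idx e L x) x))

noncomputable def sg (b : Bool) : ℝ := if b then 1 else -1

theorem cx_meas (L : Fin (n + 1) → ℝ≥0∞) (p : Fin (n + 1) × Bool) :
    MeasurableSet {x | cx e L x = p} := by
  have : {x | cx e L x = p} = {x | idx e L x = p.1} ∩
      {x | decide (0 < Jn e p.1 x) = p.2} := by
    ext x
    simp only [cx, mem_ofPred_eq, mem_inter_iff, Prod.ext_iff]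
    constructor
    · rintro ⟨h1, h2⟩
      exact ⟨h1, by rw [← h1]; exact h2⟩
    · rintro ⟨h1, h2⟩
      exact ⟨h1, by rw [h1]; exact h2⟩
  rw [this]
  refine (idx_set_meas e L _).inter ?_
  have h2 : MeasurableSet {x : E n | 0 < Jn e p.1 x} :=
    measurableSet_lt measurable_const (Jn_cont e p.1).measurable
  cases hb : p.2
  · have : {x : E n | decide (0 < Jn e p.1 x) = false} = {x : E n | 0 < Jn e p.1 x}ᶜ := by
      ext x; simp
    rw [this]
    exact h2.compl
  · have : {x : E n | decide (0 < Jn e p.1 x) = true} = {x : E n | 0 < Jn e p.1 x} := by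
      ext x; simp
    rw [this]
    exact h2

theorem cx_Vs (L : Fin (n + 1) → ℝ≥0∞) (hL0 : ∀ i, L i ≠ 0) (hLt : ∀ i, L i ≠ ∞) (x : E n) :
    x ∈ Vs e (cx e L x).1 (sg (cx e L x).2) := by
  have h := idx_J e L hL0 hLt x
  show 0 < sg (decide (0 < Jn e (idx e L x) x)) * Jn e (idx e L x) x
  by_cases h1 : 0 < Jn e (idx e L x) x
  · simp [sg, h1]
  · have h2 : Jn e (idx e L x) x < 0 := lt_of_le_of_ne (not_lt.1 h1) h
    simp only [sg, h1, decide_false]
    simp only [Bool.false_eq_true, if_false]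
    linarith

/-- the piece of `f` belonging to `p` -/
noncomputable def gp (L : Fin (n + 1) → ℝ≥0∞) (f : E n → ℂ) (p : Fin (n + 1) × Bool) (x : E n) :
    ℂ := {x | cx e L x = p}.indicator f x

theorem gp_int (L : Fin (n + 1) → ℝ≥0∞) (f : E n → ℂ) (hf : Integrable f)
    (p : Fin (n + 1) × Bool) : Integrable (gp e L f p) := hf.indicator (cx_meas e L p)

theorem gp_sum (L : Fin (n + 1) → ℝ≥0∞) (f : E n → ℂ) (x : E n) :
    f x = ∑ p, gp e L f p x := by
  classical
  unfold gp
  simp only [indicator_apply, mem_ofPred_eq]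
  rw [Finset.sum_ite_eq]
  simp

theorem Ey_sum (L : Fin (n + 1) → ℝ≥0∞) (f : E n → ℂ) (hf : Integrable f) (y : Fin (n + 1) → ℝ) :
    Ey e f y = ∑ p, Ey e (gp e L f p) y := by
  unfold Ey
  rw [← integral_finsetSum]
  · congr 1
    ext x
    rw [gp_sum e L f x, Finset.mul_sum]
  · intro p _
    refine (gp_int e L f hf p).bdd_mul (c := 1) ?_ ?_
    · refine (ee_meas.comp ?_).aestronglyMeasurable
      exact Finset.measurable_sum _ fun i _ => (ph_cont e i).measurable.mul_const _
    · exact Eventually.of_forall fun x => (ee_norm _).le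

/-- **the box estimate** -/
theorem box (L : Fin (n + 1) → ℝ≥0∞) (hL0 : ∀ i, L i ≠ 0) (hLt : ∀ i, L i ≠ ∞)
    (w : Fin (n + 1) → ℝ → ℝ≥0∞) (hw : ∀ i, Measurable (w i)) (hwL : ∀ i, ∫⁻ a, w i a ≤ L i)
    (W : (Fin (n + 1) → ℝ) → ℝ≥0∞) (hW : ∀ y i, W y ≤ w i (y i)) (f : E n → ℂ)
    (hf : Integrable f) :
    ∫⁻ y : Fin (n + 1) → ℝ, W y * ‖Ey e f y‖ₑ ^ 2 ≤
      (2 * (n + 1)) * ∫⁻ x, ‖f x‖ₑ ^ 2 * Mn e L x := by
  have hm : ∀ p, Measurable (Ey e (gp e L f p)) := fun p => Ey_meas e _ (gp_int e L f hf p).1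
  have hcard : (Finset.univ : Finset (Fin (n + 1) × Bool)).card = 2 * (n + 1) := by
    simp [mul_comm]
  calc ∫⁻ y : Fin (n + 1) → ℝ, W y * ‖Ey e f y‖ₑ ^ 2
      ≤ ∫⁻ y : Fin (n + 1) → ℝ, (2 * (n + 1)) * ∑ p : Fin (n + 1) × Bool,
          w p.1 (y p.1) * ‖Ey e (gp e L f p) y‖ₑ ^ 2 := by
        refine lintegral_mono fun y => ?_
        have h1 : ‖Ey e f y‖ₑ ^ 2 ≤ (2 * (n + 1)) * ∑ p, ‖Ey e (gp e L f p) y‖ₑ ^ 2 := by
          rw [Ey_sum e L f hf y]
          refine (pow_le_pow_left' (enorm_sum_le _ _) 2).trans ?_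
          have h2 := ENNReal.rpow_sum_le_const_mul_sum_rpow (Finset.univ)
            (fun p => ‖Ey e (gp e L f p) y‖ₑ) (p := 2) (by norm_num)
          rw [hcard] at h2
          norm_num at h2
          simpa using h2
        calc W y * ‖Ey e f y‖ₑ ^ 2 ≤ W y * ((2 * (n + 1)) *
              ∑ p, ‖Ey e (gp e L f p) y‖ₑ ^ 2) := mul_le_mul_right h1 _
          _ = (2 * (n + 1)) * ∑ p, W y * ‖Ey e (gp e L f p) y‖ₑ ^ 2 := by
              rw [← mul_assoc, mul_comm (W y), mul_assoc, Finset.mul_sum]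
          _ ≤ _ := by
              refine mul_le_mul_right (Finset.sum_le_sum fun p _ => ?_) _
              exact mul_le_mul_left (hW y p.1) _
    _ = (2 * (n + 1)) * ∑ p : Fin (n + 1) × Bool, ∫⁻ y : Fin (n + 1) → ℝ,
          w p.1 (y p.1) * ‖Ey e (gp e L f p) y‖ₑ ^ 2 := by
        rw [lintegral_const_mul, lintegral_finsetSum]
        · intro p _
          exact ((hw p.1).comp (measurable_pi_apply p.1)).mul ((hm p).enorm.pow_const 2)
        · exact Finset.measurable_sum _ fun p _ =>
            ((hw p.1).comp (measurable_pi_apply p.1)).mul ((hm p).enorm.pow_const 2)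
    _ ≤ (2 * (n + 1)) * ∑ p : Fin (n + 1) × Bool, ∫⁻ x, ‖gp e L f p x‖ₑ ^ 2 * Mn e L x := by
        refine mul_le_mul_right (Finset.sum_le_sum fun p _ => ?_) _
        refine (slab e p.1 (sg p.2) (w p.1) (hw p.1) (gp e L f p) (gp_int e L f hf p) ?_).trans ?_
        · intro x hx
          unfold gp
          rw [indicator_of_notMem]
          intro hp
          have hp' : cx e L x = p := hp
          have := cx_Vs e L hL0 hLt x
          rw [hp'] at this
          exact hx this
        · refine (mul_le_mul_left (hwL p.1) _).trans ?_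
          rw [← lintegral_const_mul']
          · refine lintegral_mono fun x => ?_
            by_cases hp : cx e L x = p
            · have hi : idx e L x = p.1 := by rw [← hp]; rfl
              have h3 : L p.1 / ENNReal.ofReal |Jn e p.1 x| ≤ Mn e L x := by
                have := idx_mem e L x
                rw [hi] at this
                exact this
              calc L p.1 * (‖gp e L f p x‖ₑ ^ 2 / ENNReal.ofReal |Jn e p.1 x|)
                  = ‖gp e L f p x‖ₑ ^ 2 * (L p.1 / ENNReal.ofReal |Jn e p.1 x|) := by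
                    rw [div_eq_mul_inv, div_eq_mul_inv]; ring
                _ ≤ _ := mul_le_mul_right h3 _
            · have : gp e L f p x = 0 := by
                unfold gp
                rw [indicator_of_notMem]
                exact hp
              rw [this]
              simp
          · exact hLt p.1
    _ = (2 * (n + 1)) * ∫⁻ x, ‖f x‖ₑ ^ 2 * Mn e L x := by
        congr 1
        rw [← lintegral_finsetSum']
        · refine lintegral_congr fun x => ?_
          classical
          rw [← Finset.sum_mul]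
          congr 1
          unfold gp
          rw [Finset.sum_eq_single (cx e L x)]
          · rw [indicator_of_mem]
            rfl
          · intro p _ hp
            rw [indicator_of_notMem]
            · simp
            · exact fun h => hp h.symm
          · intro h
            exact absurd (Finset.mem_univ _) h
        · intro p _
          exact (((gp_int e L f hf p).1.enorm).pow_const 2).mul (Mn_meas e L).aemeasurable

end Pool.Agent.R412.RT
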