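import Mathlib
import Pool.Agent.R412.RT.C
set_option autoImplicit false

/-! The slab estimate in an arbitrary direction. -/

namespace Pool.Agent.R412.RS

open MeasureTheory Complex Set Filter Topology
open scoped ENNReal RealInnerProductSpace ComplexConjugate
open Pool.Agent.R412.RT

variable {n : ℕ}

/-- the region where the component of the normal in the direction `v` has a fixed sign -/
def Vd (v : E (n + 1)) (s : ℝ) : Set (E n) := {x | 0 < s * ⟪v, Nn x⟫}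

theorem exists_frame (v : E (n + 1)) (hv : v ≠ 0) :
    ∃ e : OrthonormalBasis (Fin (n + 1)) ℝ (E (n + 1)), v = ‖v‖ • e 0 := by
  set v' : Fin (n + 1) → E (n + 1) := fun _ => (‖v‖)⁻¹ • v with hv'
  have hnv : ‖v‖ ≠ 0 := norm_ne_zero_iff.2 hv
  have horth : Orthonormal ℝ (({0} : Set (Fin (n + 1))).domRestrict v') := by
    constructor
    · rintro ⟨i, hi⟩
      show ‖(‖v‖)⁻¹ • v‖ = 1
      rw [norm_smul, norm_inv, norm_norm, inv_mul_cancel₀ hnv]
    · rintro ⟨i, hi⟩ ⟨j, hj⟩ hij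
      have hi' : i = 0 := hi
      have hj' : j = 0 := hj
      exact absurd (Subtype.ext (hi'.trans hj'.symm)) hij
  obtain ⟨b, hb⟩ := horth.exists_orthonormalBasis_extension_of_card_eq
    (by simp) (v := v')
  refine ⟨b, ?_⟩
  rw [hb 0 (mem_singleton _), hv']
  simp only [smul_smul]
  rw [mul_inv_cancel₀ hnv, one_smul]

/-- **the slab estimate** in an arbitrary direction -/
theorem slabE (v : E (n + 1)) (hv : v ≠ 0) (s : ℝ) (w : ℝ → ℝ≥0∞) (hw : Measurable w)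
    (g : E n → ℂ) (hg : Integrable g) (hgV : ∀ x, x ∉ Vd v s → g x = 0) :
    ∫⁻ ξ : E (n + 1), w ⟪v, ξ⟫ * ‖Ex g ξ‖ₑ ^ 2 ≤
      (∫⁻ a, w a) * ∫⁻ x, ‖g x‖ₑ ^ 2 / ENNReal.ofReal |⟪v, Nn x⟫| := by
  obtain ⟨e, he⟩ := exists_frame v hv
  set c : ℝ := ‖v‖ with hc
  have hc0 : 0 < c := norm_pos_iff.2 hv
  have hF : Measurable fun ξ : E (n + 1) => w ⟪v, ξ⟫ * ‖Ex g ξ‖ₑ ^ 2 :=
    (hw.comp (by fun_prop)).mul ((Ex_meas g hg.1).enorm.pow_const 2)
  rw [cov e _ hF]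
  have h1 : ∀ y : Fin (n + 1) → ℝ, w ⟪v, e.repr.symm (WithLp.toLp 2 y)⟫ *
      ‖Ex g (e.repr.symm (WithLp.toLp 2 y))‖ₑ ^ 2 = w (c * y 0) * ‖Ey e g y‖ₑ ^ 2 := by
    intro y
    rw [Ex_eq]
    congr 2
    rw [he, inner_smul_left, inner_repr_symm]
    rfl
  simp_rw [h1]
  have hJ : ∀ x : E n, ⟪v, Nn x⟫ = c * Jn e 0 x := by
    intro x
    unfold Jn
    conv_lhs => rw [he]
    rw [inner_smul_left]
    rfl
  have h2 := slab e 0 s (fun a => w (c * a)) (hw.comp (measurable_const.mul measurable_id)) g hg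
    (fun x hx => by
      refine hgV x fun hx' => hx ?_
      have hx'' : 0 < s * ⟪v, Nn x⟫ := hx'
      rw [hJ x] at hx''
      show 0 < s * Jn e 0 x
      have : s * (c * Jn e 0 x) = c * (s * Jn e 0 x) := by ring
      rw [this] at hx''
      exact (mul_pos_iff_of_pos_left hc0).1 hx'')
  refine h2.trans (le_of_eq ?_)
  have h3 : ∫⁻ a, w (c * a) = (ENNReal.ofReal c)⁻¹ * ∫⁻ a, w a := by
    have h5 := Measure.map_addHaar_smul (volume : Measure ℝ) hc0.ne'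
    have h6 : ∫⁻ a, w a ∂(Measure.map (c • ·) (volume : Measure ℝ)) = ∫⁻ a, w (c * a) :=
      lintegral_map hw (measurable_const_smul c)
    rw [← h6, h5, lintegral_smul_measure, smul_eq_mul, Module.finrank_self, pow_one,
      abs_of_pos (by positivity), ENNReal.ofReal_inv_of_pos hc0]
  have h4 : ∀ x : E n, ‖g x‖ₑ ^ 2 / ENNReal.ofReal |Jn e 0 x| =
      ENNReal.ofReal c * (‖g x‖ₑ ^ 2 / ENNReal.ofReal |⟪v, Nn x⟫|) := by
    intro x
    rw [hJ x, abs_mul, abs_of_pos hc0, ENNReal.ofReal_mul hc0.le, div_eq_mul_inv, div_eq_mul_inv,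
      ENNReal.mul_inv (Or.inr ENNReal.ofReal_ne_top) (Or.inl ENNReal.ofReal_ne_top)]
    calc ‖g x‖ₑ ^ 2 * (ENNReal.ofReal |Jn e 0 x|)⁻¹
        = (ENNReal.ofReal c * (ENNReal.ofReal c)⁻¹) *
            (‖g x‖ₑ ^ 2 * (ENNReal.ofReal |Jn e 0 x|)⁻¹) := by
          rw [ENNReal.mul_inv_cancel (by simpa using hc0) ENNReal.ofReal_ne_top, one_mul]
      _ = _ := by ring
  simp_rw [h4]
  rw [h3, lintegral_const_mul' _ _ ENNReal.ofReal_ne_top]
  calc (ENNReal.ofReal c)⁻¹ * (∫⁻ a, w a) * (ENNReal.ofReal c *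
        ∫⁻ x, ‖g x‖ₑ ^ 2 / ENNReal.ofReal |⟪v, Nn x⟫|)
      = (ENNReal.ofReal c * (ENNReal.ofReal c)⁻¹) * ((∫⁻ a, w a) *
        ∫⁻ x, ‖g x‖ₑ ^ 2 / ENNReal.ofReal |⟪v, Nn x⟫|) := by ring
    _ = _ := by
        rw [ENNReal.mul_inv_cancel (by simpa using hc0) ENNReal.ofReal_ne_top, one_mul]

end Pool.Agent.R412.RS
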