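import Mathlib
import Pool.Agent.R412.RT.D
set_option autoImplicit false

/-! The polar estimate. -/

namespace Pool.Agent.R412.RT

open MeasureTheory Complex Set Filter Topology
open scoped ENNReal RealInnerProductSpace ComplexConjugate

variable {n : ℕ} (e : OrthonormalBasis (Fin (n + 1)) ℝ (E (n + 1)))

/-- the point `(z, r)` -/
noncomputable def pt (z : E n) (r : ℝ) : E (n + 1) := WithLp.toLp 2 (Fin.snoc (fun i => z i) r)

theorem pt_Nn (x : E n) (r : ℝ) : pt ((-2 * r) • x) r = r • Nn x := by
  ext i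
  refine Fin.lastCases ?_ (fun j => ?_) i
  · simp [pt]
  · simp [pt]; ring

theorem pt_cont : Continuous fun p : E n × ℝ => pt p.1 p.2 := by
  unfold pt
  refine (PiLp.continuous_toLp 2 _).comp ?_
  refine continuous_pi fun i => ?_
  refine Fin.lastCases ?_ (fun j => ?_) i
  · simp only [Fin.snoc_last]
    exact continuous_snd
  · simp only [Fin.snoc_castSucc]
    fun_prop

/-- the rotated box -/
def RB (l : Fin (n + 1) → ℝ) : Set (E (n + 1)) := {ξ | ∀ i, |⟪e i, ξ⟫| ≤ l i}

theorem RB_meas (l : Fin (n + 1) → ℝ) : MeasurableSet (RB e l) := by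
  have : RB e l = ⋂ i, {ξ | |⟪e i, ξ⟫| ≤ l i} := by
    ext; simp [RB]
  rw [this]
  exact MeasurableSet.iInter fun i => measurableSet_le (by fun_prop) measurable_const

theorem RB_vol (l : Fin (n + 1) → ℝ) : volume (RB e l) = ∏ i, ENNReal.ofReal (2 * l i) := by
  rw [← lintegral_indicator_one (RB_meas e l), cov e _ (measurable_one.indicator (RB_meas e l))]
  have h1 : ∀ y : Fin (n + 1) → ℝ, (RB e l).indicator (1 : E (n + 1) → ℝ≥0∞)
      (e.repr.symm (WithLp.toLp 2 y)) =
      (Set.pi univ fun i => Icc (-l i) (l i)).indicator (1 : (Fin (n + 1) → ℝ) → ℝ≥0∞) y := by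
    intro y
    have : e.repr.symm (WithLp.toLp 2 y) ∈ RB e l ↔
        y ∈ (Set.pi univ fun i => Icc (-l i) (l i)) := by
      simp only [RB, mem_ofPred_eq, inner_repr_symm, Set.mem_pi, mem_univ, true_implies, mem_Icc,
        abs_le]
    by_cases h : y ∈ (Set.pi univ fun i => Icc (-l i) (l i))
    · rw [indicator_of_mem h, indicator_of_mem (this.2 h)]
      rfl
    · rw [indicator_of_notMem h, indicator_of_notMem (fun h' => h (this.1 h'))]
  simp_rw [h1]
  rw [lintegral_indicator_one (MeasurableSet.univ_pi fun i => measurableSet_Icc), volume_pi_pi]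
  refine Finset.prod_congr rfl fun i _ => ?_
  rw [Real.volume_Icc]
  congr 1
  ring

theorem slices (S : Set (E (n + 1))) (hS : MeasurableSet S) :
    volume S = ∫⁻ r : ℝ, volume {z : E n | pt z r ∈ S} := by
  rw [← lintegral_indicator_one hS]
  have h1 := (PiLp.volume_preserving_toLp (Fin (n + 1))).lintegral_comp
    (measurable_one.indicator hS)
  have hSm : Measurable fun a : Fin (n + 1) → ℝ =>
      S.indicator (1 : E (n + 1) → ℝ≥0∞) (WithLp.toLp 2 a) :=
    (measurable_one.indicator hS).comp (PiLp.volume_preserving_toLp (Fin (n + 1))).measurable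
  rw [← h1, split_lint (Fin.last n) _ hSm]
  refine lintegral_congr fun r => ?_
  have h2 : MeasurableSet {z : E n | pt z r ∈ S} := by
    have : Measurable fun z : E n => pt z r :=
      (pt_cont.comp (Continuous.prodMk continuous_id continuous_const)).measurable
    exact this hS
  rw [← lintegral_indicator_one h2]
  have h3 := (PiLp.volume_preserving_toLp (Fin n)).lintegral_comp
    (measurable_one.indicator h2)
  rw [← h3]
  refine lintegral_congr fun t => ?_
  have h4 : (WithLp.toLp 2 ((Fin.last n).insertNth r t : Fin (n + 1) → ℝ) : E (n + 1)) =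
      pt (WithLp.toLp 2 t) r := by
    unfold pt
    congr 1
    rw [Fin.insertNth_last']
  show S.indicator 1 (WithLp.toLp 2 ((Fin.last n).insertNth r t : Fin (n + 1) → ℝ) : E (n + 1)) =
    {z : E n | pt z r ∈ S}.indicator 1 (WithLp.toLp 2 t : E n)
  rw [h4]
  rfl

theorem scaled (S : Set (E (n + 1))) (r : ℝ) (hr : 0 < r) :
    ENNReal.ofReal (r ^ n) * volume {x : E n | r • Nn x ∈ S} =
      ENNReal.ofReal ((1 / 2) ^ n) * volume {z : E n | pt z r ∈ S} := by
  have h1 : {x : E n | r • Nn x ∈ S} = (fun x : E n => (-2 * r) • x) ⁻¹' {z : E n | pt z r ∈ S} := by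
    ext x
    simp only [mem_ofPred_eq, mem_preimage, pt_Nn]
  have hne : (-2 * r) ≠ 0 := by
    have : r ≠ 0 := hr.ne'
    simpa using this
  rw [h1, Measure.addHaar_preimage_smul _ hne, ← mul_assoc, ← ENNReal.ofReal_mul (by positivity)]
  congr 2
  rw [finrank_euclideanSpace, Fintype.card_fin, abs_inv, abs_pow, abs_mul, abs_neg,
    abs_of_pos hr, abs_two, mul_pow, mul_inv, one_div, inv_pow]
  have : r ^ n ≠ 0 := by positivity
  field_simp

theorem Mn_lt (L : Fin (n + 1) → ℝ≥0∞) (hLt : ∀ i, L i ≠ ∞) (x : E n) : Mn e L x ≠ ∞ := by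
  obtain ⟨j, hj⟩ := Jn_exists e x
  refine ne_top_of_le_ne_top ?_ (iInf_le _ j)
  refine ENNReal.div_ne_top (hLt j) ?_
  rw [Ne, ENNReal.ofReal_eq_zero, not_le]
  exact abs_pos.2 hj

theorem Mn_pow (M : ℝ≥0∞) (hM : M ≠ ∞) :
    M ^ (n + 1) = (n + 1) * ∫⁻ r in Ioi (0 : ℝ), (if ENNReal.ofReal r ≤ M then
      ENNReal.ofReal (r ^ n) else 0) := by
  obtain ⟨ρ, hρ⟩ : ∃ ρ : ℝ, 0 ≤ ρ ∧ M = ENNReal.ofReal ρ := ⟨M.toReal, ENNReal.toReal_nonneg,
    (ENNReal.ofReal_toReal hM).symm⟩
  obtain ⟨hρ0, rfl⟩ := hρ
  have h1 : ∫⁻ r in Ioi (0 : ℝ), (if ENNReal.ofReal r ≤ ENNReal.ofReal ρ then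
      ENNReal.ofReal (r ^ n) else 0) = ∫⁻ r in Ioc (0 : ℝ) ρ, ENNReal.ofReal (r ^ n) := by
    rw [← lintegral_indicator measurableSet_Ioi, ← lintegral_indicator measurableSet_Ioc]
    refine lintegral_congr fun r => ?_
    by_cases h0 : 0 < r
    · by_cases h2 : r ≤ ρ
      · rw [indicator_of_mem (show r ∈ Ioi (0 : ℝ) from h0),
          indicator_of_mem (show r ∈ Ioc (0 : ℝ) ρ from ⟨h0, h2⟩),
          if_pos (ENNReal.ofReal_le_ofReal h2)]
      · rw [indicator_of_mem (show r ∈ Ioi (0 : ℝ) from h0),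
          indicator_of_notMem (fun h : r ∈ Ioc (0 : ℝ) ρ => h2 h.2), if_neg]
        rw [ENNReal.ofReal_le_ofReal_iff hρ0]
        exact h2
    · rw [indicator_of_notMem (fun h : r ∈ Ioi (0 : ℝ) => h0 h),
        indicator_of_notMem (fun h : r ∈ Ioc (0 : ℝ) ρ => h0 h.1)]
  rw [h1, ← ofReal_integral_eq_lintegral_ofReal, ← intervalIntegral.integral_of_le hρ0,
    integral_pow, ← ENNReal.ofReal_pow hρ0]
  · have : ((n : ℝ≥0∞) + 1) = ENNReal.ofReal ((n : ℝ) + 1) := by
      rw [ENNReal.ofReal_add (by positivity) (by norm_num), ENNReal.ofReal_natCast,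
        ENNReal.ofReal_one]
    rw [this, ← ENNReal.ofReal_mul (by positivity)]
    congr 1
    rw [zero_pow (by omega), sub_zero]
    field_simp
  · exact (continuous_pow n).integrableOn_Ioc
  · refine (ae_restrict_mem measurableSet_Ioc).mono fun r hr => ?_
    exact pow_nonneg hr.1.le n

/-- **polar coordinates in the normal directions** -/
theorem polar (L : Fin (n + 1) → ℝ≥0∞) (hLt : ∀ i, L i ≠ ∞) :
    ∫⁻ x : E n, Mn e L x ^ (n + 1) ≤ 2 * (n + 1) * ∏ i, L i := by
  set l : Fin (n + 1) → ℝ := fun i => (L i).toReal with hl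
  have hLl : ∀ i, L i = ENNReal.ofReal (l i) := fun i => (ENNReal.ofReal_toReal (hLt i)).symm
  have hl0 : ∀ i, 0 ≤ l i := fun i => ENNReal.toReal_nonneg
  have hmeas : Measurable (Function.uncurry fun (x : E n) (r : ℝ) =>
      if ENNReal.ofReal r ≤ Mn e L x then ENNReal.ofReal (r ^ n) else 0) := by
    refine Measurable.ite ?_ ?_ measurable_const
    · exact measurableSet_le (measurable_snd.ennreal_ofReal) ((Mn_meas e L).comp measurable_fst)
    · exact (measurable_snd.pow_const n).ennreal_ofReal
  calc ∫⁻ x : E n, Mn e L x ^ (n + 1)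
      = ∫⁻ x : E n, (n + 1) * ∫⁻ r in Ioi (0 : ℝ), (if ENNReal.ofReal r ≤ Mn e L x then
          ENNReal.ofReal (r ^ n) else 0) := by
        refine lintegral_congr fun x => ?_
        exact Mn_pow _ (Mn_lt e L hLt x)
    _ = (n + 1) * ∫⁻ r in Ioi (0 : ℝ), ∫⁻ x : E n, (if ENNReal.ofReal r ≤ Mn e L x then
          ENNReal.ofReal (r ^ n) else 0) := by
        rw [lintegral_const_mul, lintegral_lintegral_swap hmeas.aemeasurable]
        exact hmeas.lintegral_prod_right'
    _ ≤ (n + 1) * ∫⁻ r in Ioi (0 : ℝ), ENNReal.ofReal ((1 / 2) ^ n) *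
          volume {z : E n | pt z r ∈ RB e l} := by
        refine mul_le_mul_right (setLIntegral_mono' measurableSet_Ioi fun r hr => ?_) _
        have hr' : 0 < r := hr
        rw [← scaled (RB e l) r hr']
        have h1 : MeasurableSet {x : E n | r • Nn x ∈ RB e l} := by
          have : Measurable fun x : E n => r • Nn x := by
            have h : (fun x : E n => r • Nn x) = fun x : E n => pt ((-2 * r) • x) r := by
              ext1 x; rw [pt_Nn]
            rw [h]
            exact (pt_cont.comp (Continuous.prodMk (continuous_const_smul _)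
              continuous_const)).measurable
          exact this (RB_meas e l)
        rw [← lintegral_indicator_const h1]
        refine lintegral_mono fun x => ?_
        by_cases hx : ENNReal.ofReal r ≤ Mn e L x
        · have hmem : x ∈ {x : E n | r • Nn x ∈ RB e l} := by
            intro i
            rw [inner_smul_right, abs_mul, abs_of_pos hr']
            show r * |Jn e i x| ≤ l i
            have h2 : ENNReal.ofReal r ≤ L i / ENNReal.ofReal |Jn e i x| :=
              hx.trans (iInf_le _ i)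
            by_cases hJ : Jn e i x = 0
            · rw [hJ, abs_zero, mul_zero]
              exact hl0 i
            · rw [ENNReal.le_div_iff_mul_le, hLl i, ← ENNReal.ofReal_mul hr'.le,
                ENNReal.ofReal_le_ofReal_iff (hl0 i)] at h2
              · exact h2
              · left
                rw [Ne, ENNReal.ofReal_eq_zero, not_le]
                exact abs_pos.2 hJ
              · left
                exact ENNReal.ofReal_ne_top
          rw [if_pos hx, indicator_of_mem hmem]
        · rw [if_neg hx]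
          exact zero_le
    _ ≤ (n + 1) * ∫⁻ r : ℝ, ENNReal.ofReal ((1 / 2) ^ n) *
          volume {z : E n | pt z r ∈ RB e l} := by
        refine mul_le_mul_right ?_ _
        exact setLIntegral_le_lintegral _ _
    _ = (n + 1) * (ENNReal.ofReal ((1 / 2) ^ n) * volume (RB e l)) := by
        rw [lintegral_const_mul' _ _ ENNReal.ofReal_ne_top, ← slices _ (RB_meas e l)]
    _ = 2 * (n + 1) * ∏ i, L i := by
        rw [RB_vol]
        simp_rw [ENNReal.ofReal_mul zero_le_two, ← hLl]
        rw [Finset.prod_mul_distrib, Finset.prod_const, Finset.card_univ, Fintype.card_fin,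
          ENNReal.ofReal_pow (by positivity), ENNReal.ofReal_ofNat, pow_succ]
        have h3 : ENNReal.ofReal (1 / 2) ^ n * 2 ^ n = 1 := by
          rw [← mul_pow, one_div, ENNReal.ofReal_inv_of_pos (by norm_num), ENNReal.ofReal_ofNat,
            ENNReal.inv_mul_cancel (by norm_num) (by norm_num), one_pow]
        calc ((n : ℝ≥0∞) + 1) * (ENNReal.ofReal (1 / 2) ^ n * (2 ^ n * 2 * ∏ i, L i))
            = (ENNReal.ofReal (1 / 2) ^ n * 2 ^ n) * (2 * (n + 1) * ∏ i, L i) := by ring
          _ = _ := by rw [h3, one_mul]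

end Pool.Agent.R412.RT
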