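import Mathlib
import Pool.Agent.R412.RT.P
set_option autoImplicit false

/-! The endpoint estimate for products of sets and products of Lorentz weights. -/

namespace Pool.Agent.R412.RT

open MeasureTheory Complex Set Filter Topology
open scoped ENNReal RealInnerProductSpace ComplexConjugate

variable {n : ℕ} (e : OrthonormalBasis (Fin (n + 1)) ℝ (E (n + 1)))

/-- `‖f‖^2` in `L^(2(n+1)/n)` -/
noncomputable def nf (f : E n → ℂ) : ℝ≥0∞ :=
  (∫⁻ x, ‖f x‖ₑ ^ (2 * ((n : ℝ) + 1) / n)) ^ ((n : ℝ) / (n + 1))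

/-- the constant -/
noncomputable def Cn (n : ℕ) : ℝ≥0∞ := (2 * (n + 1)) * (2 * (n + 1)) ^ (1 / ((n : ℝ) + 1))

theorem holder_Mn (hn : 0 < n) (L : Fin (n + 1) → ℝ≥0∞) (hLt : ∀ i, L i ≠ ∞) (f : E n → ℂ)
    (hf : AEStronglyMeasurable f) :
    ∫⁻ x, ‖f x‖ₑ ^ 2 * Mn e L x ≤
      nf f * ((2 * (n + 1)) ^ (1 / ((n : ℝ) + 1)) * (∏ i, L i) ^ (1 / ((n : ℝ) + 1))) := by
  have hn' : (0 : ℝ) < n := by exact_mod_cast hn
  have hpq : Real.HolderConjugate (((n : ℝ) + 1) / n) ((n : ℝ) + 1) := by
    rw [Real.holderConjugate_iff]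
    constructor
    · rw [lt_div_iff₀ hn']; linarith
    · field_simp
  have h := ENNReal.lintegral_mul_le_Lp_mul_Lq volume hpq
    (f := fun x => ‖f x‖ₑ ^ 2) (g := Mn e L) (hf.enorm.pow_const 2) (Mn_meas e L).aemeasurable
  refine h.trans ?_
  refine mul_le_mul' (le_of_eq ?_) ?_
  · unfold nf
    congr 1
    · refine lintegral_congr fun x => ?_
      rw [← ENNReal.rpow_natCast, ← ENNReal.rpow_mul]
      congr 1
      push_cast
      ring
    · field_simp
  · rw [← ENNReal.mul_rpow_of_nonneg _ _ (by positivity)]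
    refine ENNReal.rpow_le_rpow ?_ (by positivity)
    refine le_trans (le_of_eq ?_) (polar e L hLt)
    refine lintegral_congr fun x => ?_
    rw [← ENNReal.rpow_natCast]
    push_cast
    rfl

/-- for finite nonzero masses -/
theorem endpoint0 (hn : 0 < n) (L : Fin (n + 1) → ℝ≥0∞) (hL0 : ∀ i, L i ≠ 0)
    (hLt : ∀ i, L i ≠ ∞)
    (w : Fin (n + 1) → ℝ → ℝ≥0∞) (hw : ∀ i, Measurable (w i)) (hwL : ∀ i, ∫⁻ a, w i a ≤ L i)
    (W : (Fin (n + 1) → ℝ) → ℝ≥0∞) (hW : ∀ y i, W y ≤ w i (y i)) (f : E n → ℂ)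
    (hf : Integrable f) :
    ∫⁻ y : Fin (n + 1) → ℝ, W y * ‖Ey e f y‖ₑ ^ 2 ≤
      Cn n * (∏ i, L i) ^ (1 / ((n : ℝ) + 1)) * nf f := by
  refine (box e L hL0 hLt w hw hwL W hW f hf).trans ?_
  refine (mul_le_mul_right (holder_Mn e hn L hLt f hf.1) _).trans (le_of_eq ?_)
  unfold Cn
  ring

/-- the integral against a product weight -/
noncomputable def Tw (f : E n → ℂ) (w : Fin (n + 1) → ℝ → ℝ≥0∞) : ℝ≥0∞ :=
  ∫⁻ y : Fin (n + 1) → ℝ, (∏ i, w i (y i)) * ‖Ey e f y‖ₑ ^ 2

theorem prod_ind_le (A : Fin (n + 1) → Set ℝ) (y : Fin (n + 1) → ℝ) (i : Fin (n + 1)) :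
    ∏ j, (A j).indicator (1 : ℝ → ℝ≥0∞) (y j) ≤ (A i).indicator (1 : ℝ → ℝ≥0∞) (y i) := by
  classical
  rw [← Finset.mul_prod_erase _ _ (Finset.mem_univ i)]
  refine mul_le_of_le_one_right zero_le ?_
  refine Finset.prod_le_one' fun j _ => ?_
  exact indicator_le (fun _ _ => le_rfl) _

/-- **the endpoint estimate for products of sets** -/
theorem endpoint (hn : 0 < n) (A : Fin (n + 1) → Set ℝ) (hA : ∀ i, MeasurableSet (A i))
    (f : E n → ℂ) (hf : Integrable f) :
    Tw e f (fun i => (A i).indicator 1) ≤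
      Cn n * (∏ i, volume (A i)) ^ (1 / ((n : ℝ) + 1)) * nf f := by
  have hn' : (0 : ℝ) < n := by exact_mod_cast hn
  by_cases h0 : ∃ i, volume (A i) = 0
  · obtain ⟨i, hi⟩ := h0
    have h1 : Tw e f (fun i => (A i).indicator 1) = 0 := by
      unfold Tw
      have hpre : ∀ᵐ y : Fin (n + 1) → ℝ, y i ∉ A i := by
        have := (Measure.quasiMeasurePreserving_eval (μ := fun _ : Fin (n + 1) =>
          (volume : Measure ℝ)) i).ae (p := fun a => a ∉ A i) (measure_eq_zero_iff_ae_notMem.1 hi)
        exact this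
      rw [lintegral_eq_zero_iff' ?_]
      · filter_upwards [hpre] with y hy
        have : ∏ j, (A j).indicator (1 : ℝ → ℝ≥0∞) (y j) = 0 := by
          refine Finset.prod_eq_zero (Finset.mem_univ i) ?_
          exact indicator_of_notMem hy _
        simp only [this, zero_mul, Pi.zero_apply]
      · refine AEMeasurable.mul ?_ ((Ey_meas e f hf.1).enorm.pow_const 2).aemeasurable
        refine (Finset.measurable_prod _ fun j _ => ?_).aemeasurable
        exact (measurable_one.indicator (hA j)).comp (measurable_pi_apply j)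
    rw [h1]
    exact zero_le
  push Not at h0
  by_cases ht : ∃ i, volume (A i) = ∞
  · obtain ⟨i, hi⟩ := ht
    have h1 : ∏ i, volume (A i) = ∞ := by
      rw [← Finset.mul_prod_erase _ _ (Finset.mem_univ i), hi, ENNReal.top_mul]
      exact Finset.prod_ne_zero_iff.2 fun j _ => h0 j
    by_cases hf0 : nf f = 0
    · have hz : f =ᵐ[volume] 0 := by
        unfold nf at hf0
        rw [ENNReal.rpow_eq_zero_iff] at hf0
        rcases hf0 with ⟨h2, _⟩ | ⟨_, h3⟩
        · rw [lintegral_eq_zero_iff' (hf.1.enorm.pow_const _)] at h2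
          filter_upwards [h2] with x hx
          have hx' : ‖f x‖ₑ ^ (2 * ((n : ℝ) + 1) / n) = 0 := hx
          rw [ENNReal.rpow_eq_zero_iff] at hx'
          rcases hx' with ⟨h4, _⟩ | ⟨_, h5⟩
          · simpa using h4
          · exfalso
            have : 0 < 2 * ((n : ℝ) + 1) / n := by positivity
            linarith
        · exfalso
          have : 0 < (n : ℝ) / (n + 1) := by positivity
          linarith
      have h2 : ∀ y, Ey e f y = 0 := by
        intro y
        unfold Ey
        rw [integral_eq_zero_of_ae]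
        filter_upwards [hz] with x hx
        rw [hx]
        simp
      unfold Tw
      simp [h2]
    · have h3 : Cn n * (∏ i, volume (A i)) ^ (1 / ((n : ℝ) + 1)) * nf f = ∞ := by
        rw [h1, ENNReal.top_rpow_of_pos (by positivity), ENNReal.mul_top, ENNReal.top_mul hf0]
        unfold Cn
        refine mul_ne_zero (by positivity) ?_
        rw [Ne, ENNReal.rpow_eq_zero_iff]
        rintro (⟨h4, _⟩ | ⟨h4, _⟩)
        · exact absurd h4 (by positivity)
        · have : (2 * ((n : ℝ≥0∞) + 1)) ≠ ∞ :=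
            ENNReal.mul_ne_top (by norm_num) (by simp)
          exact this h4
      rw [h3]
      exact le_top
  push Not at ht
  refine endpoint0 e hn (fun i => volume (A i)) h0 ht (fun i => (A i).indicator 1)
    (fun i => measurable_one.indicator (hA i)) (fun i => ?_) _ (fun y i => prod_ind_le A y i) f hf
  rw [lintegral_indicator_one (hA i)]

/-- the Lorentz norm `L^(n+1,1)` -/
noncomputable def Lam (n : ℕ) (u : ℝ → ℝ≥0∞) : ℝ≥0∞ :=
  ∫⁻ t in Ioi (0 : ℝ), volume {a | ENNReal.ofReal t < u a} ^ (1 / ((n : ℝ) + 1))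

theorem Lam_ind (A : Set ℝ) : Lam n (A.indicator 1) = volume A ^ (1 / ((n : ℝ) + 1)) := by
  unfold Lam
  have h1 : ∀ t ∈ Ioi (0 : ℝ), volume {a | ENNReal.ofReal t < A.indicator (1 : ℝ → ℝ≥0∞) a} ^
      (1 / ((n : ℝ) + 1)) = (Iio (1 : ℝ)).indicator (fun _ => volume A ^ (1 / ((n : ℝ) + 1))) t := by
    intro t ht
    have ht' : 0 < t := ht
    by_cases h : t < 1
    · rw [indicator_of_mem (show t ∈ Iio (1 : ℝ) from h)]
      congr 2
      ext a
      by_cases ha : a ∈ A
      · simp [ha, ENNReal.ofReal_lt_one.2 h]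
      · simp [ha]
    · rw [indicator_of_notMem (fun h' : t ∈ Iio (1 : ℝ) => h h')]
      have h2 : {a | ENNReal.ofReal t < A.indicator (1 : ℝ → ℝ≥0∞) a} = ∅ := by
        ext a
        simp only [mem_ofPred_eq, mem_empty_iff_false, iff_false, not_lt]
        refine (indicator_le (fun _ _ => le_rfl) a : A.indicator (1 : ℝ → ℝ≥0∞) a ≤ 1).trans ?_
        show (1 : ℝ≥0∞) ≤ ENNReal.ofReal t
        rw [ENNReal.one_le_ofReal]
        exact not_lt.1 h
      rw [h2, measure_empty, ENNReal.zero_rpow_of_pos (by positivity)]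
  rw [setLIntegral_congr_fun measurableSet_Ioi h1, lintegral_indicator_const measurableSet_Iio,
    Measure.restrict_apply measurableSet_Iio]
  have : Iio (1 : ℝ) ∩ Ioi 0 = Ioo 0 1 := by
    ext; simp [and_comm]
  rw [this, Real.volume_Ioo]
  simp

theorem layer (M : ℝ≥0∞) : M = ∫⁻ t in Ioi (0 : ℝ), (if ENNReal.ofReal t < M then 1 else 0) := by
  by_cases hM : M = ∞
  · subst hM
    have : ∀ t : ℝ, (if ENNReal.ofReal t < ∞ then (1 : ℝ≥0∞) else 0) = 1 := fun t =>
      if_pos ENNReal.ofReal_lt_top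
    simp_rw [this]
    simp
  · obtain ⟨ρ, hρ0, rfl⟩ : ∃ ρ : ℝ, 0 ≤ ρ ∧ M = ENNReal.ofReal ρ := ⟨M.toReal,
      ENNReal.toReal_nonneg, (ENNReal.ofReal_toReal hM).symm⟩
    have h1 : ∀ t ∈ Ioi (0 : ℝ), (if ENNReal.ofReal t < ENNReal.ofReal ρ then (1 : ℝ≥0∞) else 0) =
        (Iio ρ).indicator (fun _ => 1) t := by
      intro t ht
      have ht' : 0 < t := ht
      by_cases h : t < ρ
      · rw [indicator_of_mem (show t ∈ Iio ρ from h), if_pos]
        rw [ENNReal.ofReal_lt_ofReal_iff (ht'.trans h)]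
        exact h
      · rw [indicator_of_notMem (fun h' : t ∈ Iio ρ => h h'), if_neg]
        rw [not_lt]
        exact ENNReal.ofReal_le_ofReal (not_lt.1 h)
    rw [setLIntegral_congr_fun measurableSet_Ioi h1, lintegral_indicator_const measurableSet_Iio,
      Measure.restrict_apply measurableSet_Iio]
    have : Iio ρ ∩ Ioi 0 = Ioo 0 ρ := by
      ext; simp [and_comm]
    rw [this, Real.volume_Ioo]
    simp

theorem Tw_layer (f : E n → ℂ) (hf : Integrable f) (w : Fin (n + 1) → ℝ → ℝ≥0∞)
    (hw : ∀ i, Measurable (w i)) (j : Fin (n + 1)) :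
    Tw e f w = ∫⁻ t in Ioi (0 : ℝ),
      Tw e f (Function.update w j ({a | ENNReal.ofReal t < w j a}.indicator 1)) := by
  classical
  have hu : ∀ (t : ℝ) (y : Fin (n + 1) → ℝ),
      ∏ i, (Function.update w j ({a | ENNReal.ofReal t < w j a}.indicator 1)) i (y i) =
      (if ENNReal.ofReal t < w j (y j) then 1 else 0) *
        ∏ i ∈ Finset.univ.erase j, w i (y i) := by
    intro t y
    rw [← Finset.mul_prod_erase _ _ (Finset.mem_univ j), Function.update_self, indicator_apply]
    congr 1
    refine Finset.prod_congr rfl fun i hi => ?_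
    rw [Function.update_of_ne (Finset.ne_of_mem_erase hi)]
  have hm0 : ∀ i, Measurable fun y : Fin (n + 1) → ℝ => w i (y i) := fun i =>
    (hw i).comp (measurable_pi_apply i)
  unfold Tw
  simp_rw [hu]
  rw [lintegral_lintegral_swap]
  · refine lintegral_congr fun y => ?_
    simp_rw [mul_assoc]
    rw [lintegral_mul_const, ← layer, ← mul_assoc,
      Finset.mul_prod_erase Finset.univ (fun i => w i (y i)) (Finset.mem_univ j)]
    exact Measurable.ite (measurableSet_lt ENNReal.measurable_ofReal measurable_const)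
      measurable_const measurable_const
  · refine Measurable.aemeasurable ?_
    refine Measurable.mul (Measurable.mul ?_ ?_) ?_
    · refine Measurable.ite ?_ measurable_const measurable_const
      exact measurableSet_lt measurable_fst.ennreal_ofReal ((hm0 j).comp measurable_snd)
    · exact Finset.measurable_prod _ fun i _ => (hm0 i).comp measurable_snd
    · exact ((Ey_meas e f hf.1).enorm.pow_const 2).comp measurable_snd

theorem lorentz_aux (hn : 0 < n) (f : E n → ℂ) (hf : Integrable f) (s : Finset (Fin (n + 1))) :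
    ∀ w : Fin (n + 1) → ℝ → ℝ≥0∞, (∀ i, Measurable (w i)) →
      (∀ i ∉ s, ∃ A : Set ℝ, MeasurableSet A ∧ w i = A.indicator 1) →
      Tw e f w ≤ Cn n * (∏ i, Lam n (w i)) * nf f := by
  classical
  induction s using Finset.induction_on with
  | empty =>
    intro w hw h
    choose A hA hwA using fun i => h i (Finset.notMem_empty i)
    have hw' : w = fun i => (A i).indicator 1 := by
      ext1 i; exact hwA i
    rw [hw']
    refine (endpoint e hn A hA f hf).trans (le_of_eq ?_)
    simp_rw [Lam_ind]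
    rw [ENNReal.prod_rpow_of_nonneg (by positivity)]
  | insert j s hj ih =>
    intro w hw h
    rw [Tw_layer e f hf w hw j]
    have hmt : ∀ t : ℝ, MeasurableSet {a | ENNReal.ofReal t < w j a} := fun t =>
      measurableSet_lt measurable_const (hw j)
    have h1 : ∀ t : ℝ, Tw e f (Function.update w j ({a | ENNReal.ofReal t < w j a}.indicator 1)) ≤
        Cn n * (volume {a | ENNReal.ofReal t < w j a} ^ (1 / ((n : ℝ) + 1)) *
          ∏ i ∈ Finset.univ.erase j, Lam n (w i)) * nf f := by
      intro t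
      refine (ih _ ?_ ?_).trans (le_of_eq ?_)
      · intro i
        by_cases hi : i = j
        · subst hi
          rw [Function.update_self]
          exact measurable_one.indicator (hmt t)
        · rw [Function.update_of_ne hi]
          exact hw i
      · intro i hi
        by_cases hij : i = j
        · subst hij
          exact ⟨_, hmt t, by rw [Function.update_self]⟩
        · rw [Function.update_of_ne hij]
          exact h i (by simp [hij, hi])
      · rw [← Finset.mul_prod_erase _ _ (Finset.mem_univ j), Function.update_self, Lam_ind]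
        congr 3
        refine Finset.prod_congr rfl fun i hi => ?_
        rw [Function.update_of_ne (Finset.ne_of_mem_erase hi)]
    refine (lintegral_mono fun t => h1 t).trans (le_of_eq ?_)
    have hanti : Measurable fun t : ℝ =>
        volume {a | ENNReal.ofReal t < w j a} ^ (1 / ((n : ℝ) + 1)) := by
      refine Measurable.pow_const ?_ _
      refine Antitone.measurable fun t t' htt => measure_mono fun a ha => ?_
      exact lt_of_le_of_lt (ENNReal.ofReal_le_ofReal htt) ha
    have h2 : ∀ t : ℝ, Cn n * (volume {a | ENNReal.ofReal t < w j a} ^ (1 / ((n : ℝ) + 1)) *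
          ∏ i ∈ Finset.univ.erase j, Lam n (w i)) * nf f =
        volume {a | ENNReal.ofReal t < w j a} ^ (1 / ((n : ℝ) + 1)) *
          (Cn n * (∏ i ∈ Finset.univ.erase j, Lam n (w i)) * nf f) := by
      intro t; ring
    simp_rw [h2]
    rw [lintegral_mul_const _ hanti, ← Finset.mul_prod_erase Finset.univ (fun i => Lam n (w i))
      (Finset.mem_univ j)]
    show Lam n (w j) * _ = _
    ring

/-- **the endpoint estimate for products of Lorentz weights** -/
theorem lorentz (hn : 0 < n) (f : E n → ℂ) (hf : Integrable f) (w : Fin (n + 1) → ℝ → ℝ≥0∞)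
    (hw : ∀ i, Measurable (w i)) :
    Tw e f w ≤ Cn n * (∏ i, Lam n (w i)) * nf f :=
  lorentz_aux e hn f hf Finset.univ w hw fun i hi => absurd (Finset.mem_univ i) hi

end Pool.Agent.R412.RT
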