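import Mathlib
import Pool.Agent.R412.RT.G
set_option autoImplicit false

/-! Layer cake and local constancy for general extension operators. -/

namespace Pool.Agent.R412.RT

open MeasureTheory Complex Set Filter Topology
open scoped ENNReal RealInnerProductSpace ComplexConjugate

section

variable {X : Type*} [MeasurableSpace X] (μ : Measure X) [SFinite μ] {ι : Type*} [Fintype ι]
  [DecidableEq ι] (p : ι → X → ℝ)

/-- a general extension operator -/
noncomputable def EP (f : X → ℂ) (y : ι → ℝ) : ℂ := ∫ x, ee (∑ i, p i x * y i) * f x ∂μ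

/-- the integral against a product weight -/
noncomputable def TP (f : X → ℂ) (w : ι → ℝ → ℝ≥0∞) : ℝ≥0∞ :=
  ∫⁻ y : ι → ℝ, (∏ i, w i (y i)) * ‖EP μ p f y‖ₑ ^ 2

omit [SFinite μ] [DecidableEq ι] in
theorem EP_congr (f g : X → ℂ) (h : f =ᵐ[μ] g) : EP μ p f = EP μ p g := by
  ext y
  unfold EP
  refine integral_congr_ae ?_
  filter_upwards [h] with x hx
  rw [hx]

omit [DecidableEq ι] in
theorem phase_meas (hp : ∀ i, Measurable (p i)) :
    Measurable fun q : (ι → ℝ) × X => ee (∑ i, p i q.2 * q.1 i) := by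
  refine ee_meas.comp ?_
  refine Finset.measurable_sum _ fun i _ => ?_
  exact ((hp i).comp measurable_snd).mul ((measurable_pi_apply i).comp measurable_fst)

omit [DecidableEq ι] in
theorem EP_meas (hp : ∀ i, Measurable (p i)) (f : X → ℂ) (hf : AEStronglyMeasurable f μ) :
    Measurable (EP μ p f) := by
  obtain ⟨f', hf', hff⟩ := hf
  rw [EP_congr μ p f f' hff]
  unfold EP
  have : StronglyMeasurable (Function.uncurry fun (y : ι → ℝ) (x : X) =>
      ee (∑ i, p i x * y i) * f' x) := by
    refine StronglyMeasurable.mul ?_ (hf'.comp_measurable measurable_snd)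
    exact (phase_meas p hp).stronglyMeasurable
  exact this.integral_prod_right.measurable

/-- the Lorentz norm `L^(d,1)` -/
noncomputable def Lo (d : ℝ) (u : ℝ → ℝ≥0∞) : ℝ≥0∞ :=
  ∫⁻ t in Ioi (0 : ℝ), volume {a | ENNReal.ofReal t < u a} ^ (1 / d)

theorem Lo_ind (d : ℝ) (hd : 0 < d) (A : Set ℝ) : Lo d (A.indicator 1) = volume A ^ (1 / d) := by
  unfold Lo
  have h1 : ∀ t ∈ Ioi (0 : ℝ), volume {a | ENNReal.ofReal t < A.indicator (1 : ℝ → ℝ≥0∞) a} ^
      (1 / d) = (Iio (1 : ℝ)).indicator (fun _ => volume A ^ (1 / d)) t := by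
    intro t ht
    have ht' : 0 < t := ht
    by_cases h : t < 1
    · rw [indicator_of_mem (show t ∈ Iio (1 : ℝ) from h)]
      congr 2
      ext a
      by_cases ha : a ∈ A
      · simp [ha, ENNReal.ofReal_lt_one.2 h]
      · simp [ha]
    · rw [indicator_of_notMem (fun h' : t ∈ Iio (1 : ℝ) => h h')]
      have h2 : {a | ENNReal.ofReal t < A.indicator (1 : ℝ → ℝ≥0∞) a} = ∅ := by
        ext a
        simp only [mem_ofPred_eq, mem_empty_iff_false, iff_false, not_lt]
        refine (indicator_le (fun _ _ => le_rfl) a : A.indicator (1 : ℝ → ℝ≥0∞) a ≤ 1).trans ?_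
        show (1 : ℝ≥0∞) ≤ ENNReal.ofReal t
        rw [ENNReal.one_le_ofReal]
        exact not_lt.1 h
      rw [h2, measure_empty, ENNReal.zero_rpow_of_pos (by positivity)]
  rw [setLIntegral_congr_fun measurableSet_Ioi h1, lintegral_indicator_const measurableSet_Iio,
    Measure.restrict_apply measurableSet_Iio]
  have : Iio (1 : ℝ) ∩ Ioi 0 = Ioo 0 1 := by
    ext; simp [and_comm]
  rw [this, Real.volume_Ioo]
  simp

theorem TP_layer (hp : ∀ i, Measurable (p i)) (f : X → ℂ) (hf : AEStronglyMeasurable f μ)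
    (w : ι → ℝ → ℝ≥0∞) (hw : ∀ i, Measurable (w i)) (j : ι) :
    TP μ p f w = ∫⁻ t in Ioi (0 : ℝ),
      TP μ p f (Function.update w j ({a | ENNReal.ofReal t < w j a}.indicator 1)) := by
  have hu : ∀ (t : ℝ) (y : ι → ℝ),
      ∏ i, (Function.update w j ({a | ENNReal.ofReal t < w j a}.indicator 1)) i (y i) =
      (if ENNReal.ofReal t < w j (y j) then 1 else 0) *
        ∏ i ∈ Finset.univ.erase j, w i (y i) := by
    intro t y
    rw [← Finset.mul_prod_erase _ _ (Finset.mem_univ j), Function.update_self, indicator_apply]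
    congr 1
    refine Finset.prod_congr rfl fun i hi => ?_
    rw [Function.update_of_ne (Finset.ne_of_mem_erase hi)]
  have hm0 : ∀ i, Measurable fun y : ι → ℝ => w i (y i) := fun i =>
    (hw i).comp (measurable_pi_apply i)
  unfold TP
  simp_rw [hu]
  rw [lintegral_lintegral_swap]
  · refine lintegral_congr fun y => ?_
    simp_rw [mul_assoc]
    rw [lintegral_mul_const, ← layer, ← mul_assoc,
      Finset.mul_prod_erase Finset.univ (fun i => w i (y i)) (Finset.mem_univ j)]
    exact Measurable.ite (measurableSet_lt ENNReal.measurable_ofReal measurable_const)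
      measurable_const measurable_const
  · refine Measurable.aemeasurable ?_
    refine Measurable.mul (Measurable.mul ?_ ?_) ?_
    · refine Measurable.ite ?_ measurable_const measurable_const
      exact measurableSet_lt measurable_fst.ennreal_ofReal ((hm0 j).comp measurable_snd)
    · exact Finset.measurable_prod _ fun i _ => (hm0 i).comp measurable_snd
    · exact ((EP_meas μ p hp f hf).enorm.pow_const 2).comp measurable_snd

theorem lo_aux (hp : ∀ i, Measurable (p i)) (d : ℝ) (hd : 0 < d) (f : X → ℂ)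
    (hf : AEStronglyMeasurable f μ) (K : ℝ≥0∞)
    (hK : ∀ A : ι → Set ℝ, (∀ i, MeasurableSet (A i)) →
      TP μ p f (fun i => (A i).indicator 1) ≤ K * ∏ i, volume (A i) ^ (1 / d)) (s : Finset ι) :
    ∀ w : ι → ℝ → ℝ≥0∞, (∀ i, Measurable (w i)) →
      (∀ i ∉ s, ∃ A : Set ℝ, MeasurableSet A ∧ w i = A.indicator 1) →
      TP μ p f w ≤ K * ∏ i, Lo d (w i) := by
  induction s using Finset.induction_on with
  | empty =>
    intro w hw h
    choose A hA hwA using fun i => h i (Finset.notMem_empty i)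
    have hw' : w = fun i => (A i).indicator 1 := by
      ext1 i; exact hwA i
    rw [hw']
    refine (hK A hA).trans (le_of_eq ?_)
    simp_rw [Lo_ind d hd]
  | insert j s hj ih =>
    intro w hw h
    rw [TP_layer μ p hp f hf w hw j]
    have hmt : ∀ t : ℝ, MeasurableSet {a | ENNReal.ofReal t < w j a} := fun t =>
      measurableSet_lt measurable_const (hw j)
    have h1 : ∀ t : ℝ, TP μ p f (Function.update w j ({a | ENNReal.ofReal t < w j a}.indicator 1)) ≤
        K * (volume {a | ENNReal.ofReal t < w j a} ^ (1 / d) *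
          ∏ i ∈ Finset.univ.erase j, Lo d (w i)) := by
      intro t
      refine (ih _ ?_ ?_).trans (le_of_eq ?_)
      · intro i
        by_cases hi : i = j
        · subst hi
          rw [Function.update_self]
          exact measurable_one.indicator (hmt t)
        · rw [Function.update_of_ne hi]
          exact hw i
      · intro i hi
        by_cases hij : i = j
        · subst hij
          exact ⟨_, hmt t, by rw [Function.update_self]⟩
        · rw [Function.update_of_ne hij]
          exact h i (by simp [hij, hi])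
      · rw [← Finset.mul_prod_erase _ _ (Finset.mem_univ j), Function.update_self, Lo_ind d hd]
        congr 2
        refine Finset.prod_congr rfl fun i hi => ?_
        rw [Function.update_of_ne (Finset.ne_of_mem_erase hi)]
    refine (lintegral_mono fun t => h1 t).trans (le_of_eq ?_)
    have hanti : Measurable fun t : ℝ =>
        volume {a | ENNReal.ofReal t < w j a} ^ (1 / d) := by
      refine Measurable.pow_const ?_ _
      refine Antitone.measurable fun t t' htt => measure_mono fun a ha => ?_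
      exact lt_of_le_of_lt (ENNReal.ofReal_le_ofReal htt) ha
    have h2 : ∀ t : ℝ, K * (volume {a | ENNReal.ofReal t < w j a} ^ (1 / d) *
          ∏ i ∈ Finset.univ.erase j, Lo d (w i)) =
        volume {a | ENNReal.ofReal t < w j a} ^ (1 / d) *
          (K * ∏ i ∈ Finset.univ.erase j, Lo d (w i)) := by
      intro t; ring
    simp_rw [h2]
    rw [lintegral_mul_const _ hanti, ← Finset.mul_prod_erase Finset.univ (fun i => Lo d (w i))
      (Finset.mem_univ j)]
    show Lo d (w j) * _ = _
    ring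

theorem lo_bound (hp : ∀ i, Measurable (p i)) (d : ℝ) (hd : 0 < d) (f : X → ℂ)
    (hf : AEStronglyMeasurable f μ) (K : ℝ≥0∞)
    (hK : ∀ A : ι → Set ℝ, (∀ i, MeasurableSet (A i)) →
      TP μ p f (fun i => (A i).indicator 1) ≤ K * ∏ i, volume (A i) ^ (1 / d))
    (w : ι → ℝ → ℝ≥0∞) (hw : ∀ i, Measurable (w i)) :
    TP μ p f w ≤ K * ∏ i, Lo d (w i) :=
  lo_aux μ p hp d hd f hf K hK Finset.univ w hw fun i hi => absurd (Finset.mem_univ i) hi

/-! ### averaging -/

/-- uniform probability on `(0, δ]` -/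
noncomputable def nu (δ : ℝ) : Measure ℝ := (ENNReal.ofReal δ)⁻¹ • volume.restrict (Ioc 0 δ)

instance (δ : ℝ) : SFinite (nu δ) := by unfold nu; infer_instance

theorem nu_prob (δ : ℝ) (hδ : 0 < δ) : IsProbabilityMeasure (nu δ) := by
  constructor
  unfold nu
  rw [Measure.smul_apply, Measure.restrict_apply_univ, Real.volume_Ioc, sub_zero, smul_eq_mul]
  exact ENNReal.inv_mul_cancel (by simpa using hδ) ENNReal.ofReal_ne_top

theorem nu_ae (δ : ℝ) : ∀ᵐ τ ∂(nu δ), τ ∈ Ioc 0 δ := by
  unfold nu
  exact Measure.ae_smul_measure (ae_restrict_mem measurableSet_Ioc) _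

theorem jens {Y : Type*} [MeasurableSpace Y] (ν : Measure Y) [IsProbabilityMeasure ν] (r : ℝ)
    (hr : 1 ≤ r) (F : Y → ℝ≥0∞) (hF : AEMeasurable F ν) :
    (∫⁻ y, F y ∂ν) ^ r ≤ ∫⁻ y, F y ^ r ∂ν := by
  rcases eq_or_lt_of_le hr with h | h
  · subst h
    simp
  · have hpq : Real.HolderConjugate r (r / (r - 1)) := Real.HolderConjugate.conjExponent h
    have h1 := ENNReal.lintegral_mul_le_Lp_mul_Lq ν hpq hF (g := fun _ => 1) aemeasurable_const
    simp only [Pi.mul_apply, mul_one, ENNReal.one_rpow, lintegral_const, measure_univ] at h1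
    calc (∫⁻ y, F y ∂ν) ^ r ≤ ((∫⁻ y, F y ^ r ∂ν) ^ (1 / r)) ^ r :=
          ENNReal.rpow_le_rpow h1 (by linarith)
      _ = _ := by
          rw [← ENNReal.rpow_mul, one_div, inv_mul_cancel₀ (by linarith), ENNReal.rpow_one]

/-- the averaged function -/
noncomputable def av (δ : ℝ) (u : ℝ → ℝ≥0∞) (t : ℝ) : ℝ≥0∞ := ∫⁻ τ, u (t - τ) ∂(nu δ)

theorem av_meas (δ : ℝ) (u : ℝ → ℝ≥0∞) (hu : Measurable u) : Measurable (av δ u) := by
  have : Measurable (Function.uncurry fun (t τ : ℝ) => u (t - τ)) :=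
    hu.comp (measurable_fst.sub measurable_snd)
  exact this.lintegral_prod_right'

/-- the multiplier -/
noncomputable def mj (δ : ℝ) (s : ℝ) : ℂ := ∫ τ, ee (s * τ) ∂(nu δ)

theorem mj_meas (δ : ℝ) : Measurable (mj δ) := by
  have : StronglyMeasurable (Function.uncurry fun (s τ : ℝ) => ee (s * τ)) :=
    (ee_meas.comp (measurable_fst.mul measurable_snd)).stronglyMeasurable
  exact this.integral_prod_right.measurable

theorem ee_sub_one (s : ℝ) : ‖ee s - 1‖ ≤ 2 * Real.pi * |s| := by
  have h := Real.norm_exp_I_mul_ofReal_sub_one_le (x := 2 * Real.pi * s)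
  have e1 : ee s = cexp (I * ((2 * Real.pi * s : ℝ) : ℂ)) := by
    unfold ee
    congr 1
    push_cast
    ring
  rw [e1]
  refine h.trans (le_of_eq ?_)
  rw [Real.norm_eq_abs, abs_mul, abs_of_pos (by positivity : (0 : ℝ) < 2 * Real.pi)]

theorem mj_ge (δ : ℝ) (hδ : 0 < δ) (K s : ℝ) (hs : |s| ≤ K) (hK : 4 * Real.pi * K * δ ≤ 1) :
    1 / 2 ≤ ‖mj δ s‖ := by
  have := nu_prob δ hδ
  have h1 : ‖mj δ s - 1‖ ≤ 1 / 2 := by
    have e1 : mj δ s - 1 = ∫ τ, (ee (s * τ) - 1) ∂(nu δ) := by
      rw [integral_sub, integral_const]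
      · simp [mj]
      · refine Integrable.of_bound (C := 1) ?_ (Eventually.of_forall fun τ => (ee_norm _).le)
        exact (ee_meas.comp (measurable_const.mul measurable_id)).aestronglyMeasurable
      · exact integrable_const _
    rw [e1]
    have h2 : ∀ᵐ τ ∂(nu δ), ‖ee (s * τ) - 1‖ ≤ 1 / 2 := by
      filter_upwards [nu_ae δ] with τ hτ
      refine (ee_sub_one _).trans ?_
      rw [abs_mul, abs_of_pos hτ.1]
      have hK0 : 0 ≤ K := (abs_nonneg s).trans hs
      have h3 : |s| * τ ≤ K * δ := mul_le_mul hs hτ.2 hτ.1.le hK0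
      nlinarith [Real.pi_pos]
    have := norm_integral_le_of_norm_le_const h2
    simpa using this
  have h2 : ‖(1 : ℂ)‖ ≤ ‖mj δ s‖ + ‖mj δ s - 1‖ := by
    have : (1 : ℂ) = mj δ s - (mj δ s - 1) := by ring
    calc ‖(1 : ℂ)‖ = ‖mj δ s - (mj δ s - 1)‖ := by rw [← this]
      _ ≤ _ := norm_sub_le _ _
  rw [norm_one] at h2
  linarith

/-- **local constancy in one coordinate** -/
theorem lc_one (hp : ∀ i, Measurable (p i)) (δ : ℝ) (hδ : 0 < δ) (K : ℝ)
    (hK : 4 * Real.pi * K * δ ≤ 1) (f : X → ℂ) (hf : Integrable f μ) (j : ι)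
    (hs : ∀ x, f x ≠ 0 → |p j x| ≤ K) (w : ι → ℝ → ℝ≥0∞) (hw : ∀ i, Measurable (w i)) :
    ∃ g : X → ℂ, Integrable g μ ∧ (∀ x, ‖g x‖ ≤ 2 * ‖f x‖) ∧
      TP μ p f w ≤ TP μ p g (Function.update w j (av δ (w j))) := by
  have hprob := nu_prob δ hδ
  set g : X → ℂ := fun x => f x / mj δ (p j x) with hg
  have hgle : ∀ x, ‖g x‖ ≤ 2 * ‖f x‖ := by
    intro x
    by_cases hx : f x = 0
    · simp [hg, hx]
    · have h1 := mj_ge δ hδ K (p j x) (hs x hx) hK
      rw [hg]
      simp only
      rw [norm_div, div_le_iff₀ (by linarith)]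
      nlinarith [norm_nonneg (f x)]
  have hfg : ∀ x, f x = g x * mj δ (p j x) := by
    intro x
    by_cases hx : f x = 0
    · simp [hg, hx]
    · have h1 := mj_ge δ hδ K (p j x) (hs x hx) hK
      have : mj δ (p j x) ≠ 0 := by
        intro h0
        rw [h0, norm_zero] at h1
        linarith
      rw [hg]
      field_simp
  have hmm : Measurable fun x => mj δ (p j x) := (mj_meas δ).comp (hp j)
  have hgi : Integrable g μ := by
    refine (hf.norm.const_mul 2).mono' ?_ (Eventually.of_forall hgle)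
    exact hf.1.div₀ hmm.aestronglyMeasurable
  refine ⟨g, hgi, hgle, ?_⟩
  have hEm : Measurable (EP μ p g) := EP_meas μ p hp g hgi.1
  have hsm : Measurable fun τ : ℝ => (Pi.single j τ : ι → ℝ) := measurable_pi_iff.2 fun i => by
    by_cases hi : i = j
    · subst hi; simp only [Pi.single_eq_same]; exact measurable_id
    · simp only [Pi.single_eq_of_ne hi]; exact measurable_const
  have hEf : ∀ y, EP μ p f y = ∫ τ, EP μ p g (y + Pi.single j τ) ∂(nu δ) := by
    intro y
    have hint : Integrable (Function.uncurry fun (x : X) (τ : ℝ) =>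
        ee (∑ i, p i x * (y + (Pi.single j τ : ι → ℝ)) i) * g x) (μ.prod (nu δ)) := by
      have h1 : Integrable (fun q : X × ℝ => g q.1) (μ.prod (nu δ)) := hgi.comp_fst (nu δ)
      refine h1.bdd_mul (c := 1) ?_ (Eventually.of_forall fun q => (ee_norm _).le)
      refine (ee_meas.comp ?_).aestronglyMeasurable
      refine Finset.measurable_sum _ fun i _ => ((hp i).comp measurable_fst).mul ?_
      exact measurable_const.add ((measurable_pi_apply i).comp (hsm.comp measurable_snd))
    unfold EP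
    rw [← integral_integral_swap hint]
    congr 1
    ext x
    rw [hfg x, mul_comm (g x), ← mul_assoc, integral_mul_const]
    congr 1
    unfold mj
    rw [← integral_const_mul]
    congr 1
    ext τ
    rw [← ee_add]
    congr 1
    simp only [Pi.add_apply, mul_add, Finset.sum_add_distrib]
    congr 1
    rw [Finset.sum_eq_single j]
    · rw [Pi.single_eq_same]
    · intro i _ hi
      rw [Pi.single_eq_of_ne hi, mul_zero]
    · intro h
      exact absurd (Finset.mem_univ j) h
  have hpm : Measurable fun y : ι → ℝ => ∏ i, w i (y i) :=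
    Finset.measurable_prod _ fun i _ => (hw i).comp (measurable_pi_apply i)
  have hshift : ∀ y : ι → ℝ, Measurable fun τ : ℝ => y + (Pi.single j τ : ι → ℝ) := fun y =>
    measurable_const.add hsm
  calc TP μ p f w ≤ ∫⁻ y : ι → ℝ, (∫⁻ τ, (∏ i, w i (y i)) *
        ‖EP μ p g (y + (Pi.single j τ : ι → ℝ))‖ₑ ^ 2 ∂(nu δ)) ∂volume := by
        unfold TP
        refine lintegral_mono fun y => ?_
        have hEm' : Measurable fun τ : ℝ => ‖EP μ p g (y + (Pi.single j τ : ι → ℝ))‖ₑ ^ 2 :=
          (hEm.comp (hshift y)).enorm.pow_const 2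
        rw [lintegral_const_mul _ hEm']
        refine mul_le_mul_right ?_ _
        rw [hEf y]
        have h1 : ‖∫ τ, EP μ p g (y + (Pi.single j τ : ι → ℝ)) ∂(nu δ)‖ₑ ≤
            ∫⁻ τ, ‖EP μ p g (y + (Pi.single j τ : ι → ℝ))‖ₑ ∂(nu δ) :=
          enorm_integral_le_lintegral_enorm _
        refine (pow_le_pow_left' h1 2).trans ?_
        have h2 := jens (nu δ) 2 (by norm_num) (fun τ => ‖EP μ p g (y + (Pi.single j τ : ι → ℝ))‖ₑ)
          (hEm.comp (hshift y)).enorm.aemeasurable
        simpa using h2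
    _ = ∫⁻ τ, (∫⁻ y : ι → ℝ, (∏ i, w i (y i)) *
        ‖EP μ p g (y + (Pi.single j τ : ι → ℝ))‖ₑ ^ 2 ∂volume) ∂(nu δ) := by
        refine lintegral_lintegral_swap ?_
        refine ((hpm.comp measurable_fst).mul ((hEm.comp ?_).enorm.pow_const 2)).aemeasurable
        exact measurable_fst.add (hsm.comp measurable_snd)
    _ = ∫⁻ τ, (∫⁻ y : ι → ℝ, (∏ i, w i ((y - (Pi.single j τ : ι → ℝ)) i)) *
        ‖EP μ p g y‖ₑ ^ 2 ∂volume) ∂(nu δ) := by
        refine lintegral_congr fun τ => ?_
        rw [← lintegral_add_right_eq_self (fun y : ι → ℝ =>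
          (∏ i, w i ((y - (Pi.single j τ : ι → ℝ)) i)) * ‖EP μ p g y‖ₑ ^ 2)
          (Pi.single j τ : ι → ℝ)]
        refine lintegral_congr fun y => ?_
        rw [add_sub_cancel_right]
    _ = ∫⁻ y : ι → ℝ, (∫⁻ τ, (∏ i, w i ((y - (Pi.single j τ : ι → ℝ)) i)) *
        ‖EP μ p g y‖ₑ ^ 2 ∂(nu δ)) ∂volume := by
        refine lintegral_lintegral_swap ?_
        refine ((hpm.comp ?_).mul ((hEm.comp measurable_snd).enorm.pow_const 2)).aemeasurable
        exact measurable_snd.sub (hsm.comp measurable_fst)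
    _ = TP μ p g (Function.update w j (av δ (w j))) := by
        unfold TP
        refine lintegral_congr fun y => ?_
        have h1 : ∀ τ : ℝ, (∏ i, w i ((y - (Pi.single j τ : ι → ℝ)) i)) * ‖EP μ p g y‖ₑ ^ 2 =
            w j (y j - τ) * ((∏ i ∈ Finset.univ.erase j, w i (y i)) * ‖EP μ p g y‖ₑ ^ 2) := by
          intro τ
          rw [← mul_assoc, ← Finset.mul_prod_erase _ _ (Finset.mem_univ j), Pi.sub_apply,
            Pi.single_eq_same]
          congr 2
          refine Finset.prod_congr rfl fun i hi => ?_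
          rw [Pi.sub_apply, Pi.single_eq_of_ne (Finset.ne_of_mem_erase hi), sub_zero]
        simp_rw [h1]
        have hwj : Measurable fun τ : ℝ => w j (y j - τ) :=
          (hw j).comp (measurable_const.sub measurable_id)
        rw [lintegral_mul_const _ hwj, ← mul_assoc,
          ← Finset.mul_prod_erase Finset.univ
          (fun i => Function.update w j (av δ (w j)) i (y i)) (Finset.mem_univ j),
          Function.update_self]
        congr 2
        refine Finset.prod_congr rfl fun i hi => ?_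
        rw [Function.update_of_ne (Finset.ne_of_mem_erase hi)]

/-- **local constancy** -/
theorem lc_all (hp : ∀ i, Measurable (p i)) (δ : ℝ) (hδ : 0 < δ) (K : ℝ)
    (hK : 4 * Real.pi * K * δ ≤ 1) (s : Finset ι) : ∀ (f : X → ℂ), Integrable f μ →
    (∀ x, f x ≠ 0 → ∀ i, |p i x| ≤ K) → ∀ (w : ι → ℝ → ℝ≥0∞), (∀ i, Measurable (w i)) →
    ∃ g : X → ℂ, Integrable g μ ∧ (∀ x, ‖g x‖ ≤ 2 ^ s.card * ‖f x‖) ∧
      TP μ p f w ≤ TP μ p g (fun i => if i ∈ s then av δ (w i) else w i) := by
  induction s using Finset.induction_on with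
  | empty =>
    intro f hf _ w hw
    exact ⟨f, hf, fun x => by simp, by simp⟩
  | insert j s hj ih =>
    intro f hf hs w hw
    obtain ⟨g, hg, hgle, hT⟩ := lc_one μ p hp δ hδ K hK f hf j (fun x hx => hs x hx j) w hw
    have hw' : ∀ i, Measurable (Function.update w j (av δ (w j)) i) := by
      intro i
      by_cases hi : i = j
      · subst hi
        rw [Function.update_self]
        exact av_meas δ _ (hw i)
      · rw [Function.update_of_ne hi]
        exact hw i
    obtain ⟨g', hg', hgle', hT'⟩ := ih g hg (fun x hx => hs x (fun h0 => hx (by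
      have := hgle x
      rw [h0, norm_zero, mul_zero] at this
      exact norm_le_zero_iff.1 this))) _ hw'
    refine ⟨g', hg', fun x => ?_, hT.trans (hT'.trans (le_of_eq ?_))⟩
    · rw [Finset.card_insert_of_notMem hj, pow_succ, mul_assoc]
      refine (hgle' x).trans ?_
      exact mul_le_mul_of_nonneg_left (hgle x) (by positivity)
    · congr 1
      ext1 i
      by_cases hi : i = j
      · subst hi
        rw [if_neg hj, Function.update_self, if_pos (Finset.mem_insert_self _ _)]
      · rw [Function.update_of_ne hi]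
        by_cases h : i ∈ s
        · rw [if_pos h, if_pos (Finset.mem_insert_of_mem h)]
        · rw [if_neg h, if_neg]
          simp [hi, h]

/-! ### the `L^r` bounds -/

theorem av_sup (δ : ℝ) (hδ : 0 < δ) (r : ℝ) (hr : 1 ≤ r) (u : ℝ → ℝ≥0∞) (hu : Measurable u)
    (t : ℝ) : av δ u t ≤ (ENNReal.ofReal δ)⁻¹ ^ (1 / r) * (∫⁻ a, u a ^ r) ^ (1 / r) := by
  have := nu_prob δ hδ
  have hm : Measurable fun τ : ℝ => u (t - τ) := hu.comp (measurable_const.sub measurable_id)
  have h1 := jens (nu δ) r hr (fun τ => u (t - τ)) hm.aemeasurable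
  have h2 : ∫⁻ τ, u (t - τ) ^ r ∂(nu δ) ≤ (ENNReal.ofReal δ)⁻¹ * ∫⁻ a, u a ^ r := by
    unfold nu
    rw [lintegral_smul_measure, smul_eq_mul]
    refine mul_le_mul_right ?_ _
    refine (setLIntegral_le_lintegral _ _).trans (le_of_eq ?_)
    exact lintegral_sub_left_eq_self (fun a => u a ^ r) t
  have h3 : av δ u t = (av δ u t ^ r) ^ (1 / r) := by
    rw [← ENNReal.rpow_mul, mul_one_div, div_self (by linarith), ENNReal.rpow_one]
  rw [h3, ← ENNReal.mul_rpow_of_nonneg _ _ (by positivity)]
  exact ENNReal.rpow_le_rpow (h1.trans h2) (by positivity)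

theorem av_norm (δ : ℝ) (hδ : 0 < δ) (r : ℝ) (hr : 1 ≤ r) (u : ℝ → ℝ≥0∞) (hu : Measurable u) :
    ∫⁻ t, av δ u t ^ r ≤ ∫⁻ a, u a ^ r := by
  have := nu_prob δ hδ
  calc ∫⁻ t, av δ u t ^ r ≤ ∫⁻ t : ℝ, (∫⁻ τ, u (t - τ) ^ r ∂(nu δ)) := by
        refine lintegral_mono fun t => ?_
        have hm : Measurable fun τ : ℝ => u (t - τ) := hu.comp (measurable_const.sub measurable_id)
        exact jens (nu δ) r hr (fun τ => u (t - τ)) hm.aemeasurable
    _ = ∫⁻ τ, (∫⁻ t : ℝ, u (t - τ) ^ r) ∂(nu δ) := by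
        refine lintegral_lintegral_swap ?_
        exact ((hu.comp (measurable_fst.sub measurable_snd)).pow_const r).aemeasurable
    _ = ∫⁻ τ, (∫⁻ a, u a ^ r) ∂(nu δ) := by
        refine lintegral_congr fun τ => ?_
        exact lintegral_sub_right_eq_self (fun a => u a ^ r) τ
    _ = ∫⁻ a, u a ^ r := by rw [lintegral_const, measure_univ, mul_one]

/-- the constant in the comparison of the norms -/
noncomputable def Cr (d r : ℝ) (S : ℝ) : ℝ := S ^ (1 - r / d) / (1 - r / d)

theorem lo_le (d r : ℝ) (hr : 1 ≤ r) (hrd : r < d) (S : ℝ) (hS : 0 < S) (u : ℝ → ℝ≥0∞)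
    (hu : Measurable u) (N : ℝ≥0∞) (hN : ∫⁻ a, u a ^ r ≤ N ^ r)
    (hSN : ∀ t, u t ≤ ENNReal.ofReal S * N) :
    Lo d u ≤ ENNReal.ofReal (Cr d r S) * N := by
  have hd : 0 < d := by linarith
  have hr0 : 0 < r := by linarith
  have hrd' : r / d < 1 := (div_lt_one hd).2 hrd
  have hC : 0 < Cr d r S := by
    unfold Cr
    have : 0 < 1 - r / d := by linarith
    positivity
  by_cases hNt : N = ∞
  · rw [hNt, ENNReal.mul_top (by simpa using hC)]
    exact le_top
  obtain ⟨ν, hν0, rfl⟩ : ∃ ν : ℝ, 0 ≤ ν ∧ N = ENNReal.ofReal ν := ⟨N.toReal,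
    ENNReal.toReal_nonneg, (ENNReal.ofReal_toReal hNt).symm⟩
  have hSN' : ∀ t, u t ≤ ENNReal.ofReal (S * ν) := by
    intro t
    rw [ENNReal.ofReal_mul hS.le]
    exact hSN t
  unfold Lo
  have h1 : ∀ t ∈ Ioi (0 : ℝ), volume {a | ENNReal.ofReal t < u a} ^ (1 / d) ≤
      (Ioo 0 (S * ν)).indicator (fun t => ENNReal.ofReal (ν ^ (r / d) * t ^ (-(r / d)))) t := by
    intro t ht
    have ht' : 0 < t := ht
    by_cases h : t < S * ν
    · rw [indicator_of_mem (show t ∈ Ioo 0 (S * ν) from ⟨ht', h⟩)]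
      have hc : volume {a | ENNReal.ofReal t < u a} ≤ ENNReal.ofReal (ν ^ r * t ^ (-r)) := by
        have h2 := mul_meas_ge_le_lintegral (μ := volume) (hu.pow_const r) (ENNReal.ofReal t ^ r)
        have h3 : volume {a | ENNReal.ofReal t < u a} ≤
            volume {a | ENNReal.ofReal t ^ r ≤ u a ^ r} :=
          measure_mono fun a ha => ENNReal.rpow_le_rpow (le_of_lt ha) hr0.le
        have h4 : ENNReal.ofReal t ^ r * volume {a | ENNReal.ofReal t < u a} ≤
            ENNReal.ofReal ν ^ r := (mul_le_mul_right h3 _).trans (h2.trans hN)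
        rw [ENNReal.ofReal_rpow_of_pos ht', ENNReal.ofReal_rpow_of_nonneg hν0 hr0.le] at h4
        rw [Real.rpow_neg ht'.le, ← div_eq_mul_inv, ENNReal.ofReal_div_of_pos (by positivity),
          ENNReal.le_div_iff_mul_le]
        · rw [mul_comm]; exact h4
        · left
          have : 0 < t ^ r := by positivity
          simpa using this
        · left
          exact ENNReal.ofReal_ne_top
      refine (ENNReal.rpow_le_rpow hc (by positivity)).trans (le_of_eq ?_)
      rw [ENNReal.ofReal_rpow_of_nonneg (by positivity) (by positivity),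
        Real.mul_rpow (by positivity) (by positivity), ← Real.rpow_mul hν0, ← Real.rpow_mul ht'.le]
      congr 3 <;> ring
    · rw [indicator_of_notMem (fun h' : t ∈ Ioo 0 (S * ν) => h h'.2)]
      have h2 : {a | ENNReal.ofReal t < u a} = ∅ := by
        ext a
        simp only [mem_ofPred_eq, mem_empty_iff_false, iff_false, not_lt]
        exact (hSN' a).trans (ENNReal.ofReal_le_ofReal (not_lt.1 h))
      rw [h2, measure_empty, ENNReal.zero_rpow_of_pos (by positivity)]
  calc ∫⁻ t in Ioi (0 : ℝ), volume {a | ENNReal.ofReal t < u a} ^ (1 / d)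
      ≤ ∫⁻ t in Ioi (0 : ℝ), (Ioo 0 (S * ν)).indicator
          (fun t => ENNReal.ofReal (ν ^ (r / d) * t ^ (-(r / d)))) t :=
        setLIntegral_mono' measurableSet_Ioi h1
    _ ≤ ∫⁻ t, (Ioo 0 (S * ν)).indicator
          (fun t => ENNReal.ofReal (ν ^ (r / d) * t ^ (-(r / d)))) t :=
        setLIntegral_le_lintegral _ _
    _ = ∫⁻ t in Ioo 0 (S * ν), ENNReal.ofReal (ν ^ (r / d) * t ^ (-(r / d))) :=
        lintegral_indicator measurableSet_Ioo _
    _ = ∫⁻ t in Ioc 0 (S * ν), ENNReal.ofReal (ν ^ (r / d) * t ^ (-(r / d))) := by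
        rw [setLIntegral_congr Ioo_ae_eq_Ioc]
    _ = ENNReal.ofReal (Cr d r S) * ENNReal.ofReal ν := by
        have hSν : 0 ≤ S * ν := by positivity
        have hex : -1 < -(r / d) := by linarith
        have hint : IntervalIntegrable (fun t : ℝ => ν ^ (r / d) * t ^ (-(r / d))) volume 0
            (S * ν) := (intervalIntegral.intervalIntegrable_rpow' hex).const_mul _
        rw [← ofReal_integral_eq_lintegral_ofReal, ← intervalIntegral.integral_of_le hSν,
          intervalIntegral.integral_const_mul, integral_rpow (Or.inl hex),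
          ← ENNReal.ofReal_mul hC.le]
        · congr 1
          have h5 : -(r / d) + 1 = 1 - r / d := by ring
          have h6 : 0 < 1 - r / d := by linarith
          rw [h5, Real.zero_rpow h6.ne', sub_zero, Real.mul_rpow hS.le hν0]
          unfold Cr
          by_cases hν : ν = 0
          · rw [hν, Real.zero_rpow (by positivity), zero_mul, mul_zero]
          · have hν' : 0 < ν := lt_of_le_of_ne hν0 (Ne.symm hν)
            have h7 : ν ^ (r / d) * ν ^ (1 - r / d) = ν := by
              rw [← Real.rpow_add hν']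
              have : r / d + (1 - r / d) = 1 := by ring
              rw [this, Real.rpow_one]
            calc ν ^ (r / d) * (S ^ (1 - r / d) * ν ^ (1 - r / d) / (1 - r / d))
                = S ^ (1 - r / d) / (1 - r / d) * (ν ^ (r / d) * ν ^ (1 - r / d)) := by ring
              _ = _ := by rw [h7]
        · rw [intervalIntegrable_iff_integrableOn_Ioc_of_le hSν] at hint
          exact hint
        · refine (ae_restrict_mem measurableSet_Ioc).mono fun t ht => ?_
          have : 0 ≤ t := ht.1.le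
          positivity

/-- **from sets to all product weights** -/
theorem Lr_bound (hp : ∀ i, Measurable (p i)) (δ : ℝ) (hδ : 0 < δ) (K : ℝ)
    (hK : 4 * Real.pi * K * δ ≤ 1) (d r : ℝ) (hr : 1 ≤ r) (hrd : r < d)
    (f : X → ℂ) (hf : Integrable f μ) (hs : ∀ x, f x ≠ 0 → ∀ i, |p i x| ≤ K) (B : ℝ≥0∞)
    (hB : ∀ g : X → ℂ, Integrable g μ → (∀ x, ‖g x‖ ≤ 2 ^ (Fintype.card ι) * ‖f x‖) →
      ∀ A : ι → Set ℝ, (∀ i, MeasurableSet (A i)) →
      TP μ p g (fun i => (A i).indicator 1) ≤ B * ∏ i, volume (A i) ^ (1 / d))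
    (w : ι → ℝ → ℝ≥0∞) (hw : ∀ i, Measurable (w i)) :
    TP μ p f w ≤ B * ∏ i, (ENNReal.ofReal (Cr d r (δ⁻¹ ^ (1 / r))) *
      (∫⁻ a, w i a ^ r) ^ (1 / r)) := by
  obtain ⟨g, hg, hgle, hT⟩ := lc_all μ p hp δ hδ K hK Finset.univ f hf hs w hw
  rw [Finset.card_univ] at hgle
  have hd : 0 < d := by linarith
  refine hT.trans ((lo_bound μ p hp d hd g hg.1 B (hB g hg hgle) _ fun i => ?_).trans ?_)
  · rw [if_pos (Finset.mem_univ i)]
    exact av_meas δ _ (hw i)
  · refine mul_le_mul_right (Finset.prod_le_prod' fun i _ => ?_) _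
    rw [if_pos (Finset.mem_univ i)]
    refine lo_le d r hr hrd _ (by positivity) _ (av_meas δ _ (hw i)) _ ?_ ?_
    · rw [← ENNReal.rpow_mul, one_div, inv_mul_cancel₀ (by linarith), ENNReal.rpow_one]
      exact av_norm δ hδ r hr _ (hw i)
    · intro t
      refine (av_sup δ hδ r hr _ (hw i) t).trans (le_of_eq ?_)
      rw [← ENNReal.ofReal_inv_of_pos hδ, ENNReal.ofReal_rpow_of_pos (by positivity)]

end

end Pool.Agent.R412.RT
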