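import Mathlib
import Pool.Agent.R412.RT.D2
import Pool.Agent.R412.RT.H
set_option autoImplicit false

/-! The polar estimate in arbitrary frames and the endpoint estimate. -/

namespace Pool.Agent.R412.RS

open MeasureTheory Complex Set Filter Topology
open scoped ENNReal RealInnerProductSpace ComplexConjugate
open Pool.Agent.R412.RT (E ee ee_norm ee_add ee_conj ee_meas Phi Nn Ex Ex_meas pt pt_Nn pt_cont
  slices scaled Mn_pow nf Cn)

section gen

variable {n k : ℕ} (v : Fin k → E (n + 1))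

/-- the symmetric slabs -/
def RB (l : Fin k → ℝ) : Set (E (n + 1)) := {ξ | ∀ i, |⟪v i, ξ⟫| ≤ l i}

theorem RB_meas (l : Fin k → ℝ) : MeasurableSet (RB v l) := by
  have : RB v l = ⋂ i, {ξ | |⟪v i, ξ⟫| ≤ l i} := by
    ext; simp [RB]
  rw [this]
  exact MeasurableSet.iInter fun i => measurableSet_le (by fun_prop) measurable_const

theorem Mn_lt (hv : Spans v) (L : Fin k → ℝ≥0∞) (hLt : ∀ i, L i ≠ ∞) (x : E n) :
    Mn v L x ≠ ∞ := by
  obtain ⟨j, hj⟩ := Js_exists v hv x
  refine ne_top_of_le_ne_top ?_ (iInf_le _ j)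
  refine ENNReal.div_ne_top (hLt j) ?_
  rw [Ne, ENNReal.ofReal_eq_zero, not_le]
  exact abs_pos.2 hj

/-- **polar coordinates in the normal directions** -/
theorem polar (hv : Spans v) (L : Fin k → ℝ≥0∞) (hLt : ∀ i, L i ≠ ∞) :
    ∫⁻ x : E n, Mn v L x ^ (n + 1) ≤
      (n + 1) * (ENNReal.ofReal ((1 / 2) ^ n) * volume (RB v fun i => (L i).toReal)) := by
  set l : Fin k → ℝ := fun i => (L i).toReal with hl
  have hLl : ∀ i, L i = ENNReal.ofReal (l i) := fun i => (ENNReal.ofReal_toReal (hLt i)).symm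
  have hl0 : ∀ i, 0 ≤ l i := fun i => ENNReal.toReal_nonneg
  have hmeas : Measurable (Function.uncurry fun (x : E n) (r : ℝ) =>
      if ENNReal.ofReal r ≤ Mn v L x then ENNReal.ofReal (r ^ n) else 0) := by
    refine Measurable.ite ?_ ?_ measurable_const
    · exact measurableSet_le (measurable_snd.ennreal_ofReal) ((Mn_meas v L).comp measurable_fst)
    · exact (measurable_snd.pow_const n).ennreal_ofReal
  calc ∫⁻ x : E n, Mn v L x ^ (n + 1)
      = ∫⁻ x : E n, (n + 1) * ∫⁻ r in Ioi (0 : ℝ), (if ENNReal.ofReal r ≤ Mn v L x then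
          ENNReal.ofReal (r ^ n) else 0) := by
        refine lintegral_congr fun x => ?_
        exact Mn_pow _ (Mn_lt v hv L hLt x)
    _ = (n + 1) * ∫⁻ r in Ioi (0 : ℝ), ∫⁻ x : E n, (if ENNReal.ofReal r ≤ Mn v L x then
          ENNReal.ofReal (r ^ n) else 0) := by
        rw [lintegral_const_mul, lintegral_lintegral_swap hmeas.aemeasurable]
        exact hmeas.lintegral_prod_right'
    _ ≤ (n + 1) * ∫⁻ r in Ioi (0 : ℝ), ENNReal.ofReal ((1 / 2) ^ n) *
          volume {z : E n | pt z r ∈ RB v l} := by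
        refine mul_le_mul_right (setLIntegral_mono' measurableSet_Ioi fun r hr => ?_) _
        have hr' : 0 < r := hr
        rw [← scaled (RB v l) r hr']
        have h1 : MeasurableSet {x : E n | r • Nn x ∈ RB v l} := by
          have : Measurable fun x : E n => r • Nn x := (Nn_cont.const_smul r).measurable
          exact this (RB_meas v l)
        rw [← lintegral_indicator_const h1]
        refine lintegral_mono fun x => ?_
        by_cases hx : ENNReal.ofReal r ≤ Mn v L x
        · have hmem : x ∈ {x : E n | r • Nn x ∈ RB v l} := by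
            intro i
            rw [inner_smul_right, abs_mul, abs_of_pos hr']
            show r * |Js v i x| ≤ l i
            have h2 : ENNReal.ofReal r ≤ L i / ENNReal.ofReal |Js v i x| :=
              hx.trans (iInf_le _ i)
            by_cases hJ : Js v i x = 0
            · rw [hJ, abs_zero, mul_zero]
              exact hl0 i
            · rw [ENNReal.le_div_iff_mul_le, hLl i, ← ENNReal.ofReal_mul hr'.le,
                ENNReal.ofReal_le_ofReal_iff (hl0 i)] at h2
              · exact h2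
              · left
                rw [Ne, ENNReal.ofReal_eq_zero, not_le]
                exact abs_pos.2 hJ
              · left
                exact ENNReal.ofReal_ne_top
          rw [if_pos hx, indicator_of_mem hmem]
        · rw [if_neg hx]
          exact zero_le
    _ ≤ (n + 1) * ∫⁻ r : ℝ, ENNReal.ofReal ((1 / 2) ^ n) *
          volume {z : E n | pt z r ∈ RB v l} := by
        refine mul_le_mul_right ?_ _
        exact setLIntegral_le_lintegral _ _
    _ = (n + 1) * (ENNReal.ofReal ((1 / 2) ^ n) * volume (RB v l)) := by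
        rw [lintegral_const_mul' _ _ ENNReal.ofReal_ne_top, ← slices _ (RB_meas v l)]

end gen

/-! ### bases -/

variable {n : ℕ} (v : Fin (n + 1) → E (n + 1))

theorem spans_of_li (hv : LinearIndependent ℝ v) : Spans v := by
  intro ξ h
  have hspan : Submodule.span ℝ (Set.range v) = ⊤ := hv.span_eq_top_of_card_eq_finrank' (by simp)
  have hle : Submodule.span ℝ (Set.range v) ≤ (ℝ ∙ ξ)ᗮ := by
    refine Submodule.span_le.2 ?_
    rintro _ ⟨i, rfl⟩
    rw [SetLike.mem_coe, Submodule.mem_orthogonal_singleton_iff_inner_left]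
    exact h i
  rw [hspan] at hle
  have h2 := hle (Submodule.mem_top : ξ ∈ (⊤ : Submodule ℝ (E (n + 1))))
  rw [Submodule.mem_orthogonal_singleton_iff_inner_right] at h2
  exact inner_self_eq_zero.1 h2

/-- the coordinates in the frame `v` -/
noncomputable def co (ξ : E (n + 1)) : Fin (n + 1) → ℝ := fun i => ⟪v i, ξ⟫

theorem co_meas : Measurable (co v) := by
  unfold co
  exact measurable_pi_iff.2 fun i => by fun_prop

theorem frame_map (hv : LinearIndependent ℝ v) : ∃ κ : ℝ≥0∞, κ ≠ 0 ∧ κ ≠ ∞ ∧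
    Measure.map (co v) volume = κ • (volume : Measure (Fin (n + 1) → ℝ)) := by
  set T0 : E (n + 1) →ₗ[ℝ] (Fin (n + 1) → ℝ) :=
    LinearMap.pi fun i => (innerSL ℝ (v i) : E (n + 1) →L[ℝ] ℝ).toLinearMap with hT0
  have hinj : Function.Injective T0 := by
    rw [← LinearMap.ker_eq_bot, LinearMap.ker_eq_bot']
    intro ξ hξ
    refine spans_of_li v hv ξ fun i => ?_
    exact congrFun hξ i
  set T := (T0.linearEquivOfInjective hinj (by simp)).toContinuousLinearEquiv with hT
  have hTco : (T : E (n + 1) → (Fin (n + 1) → ℝ)) = co v := by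
    ext ξ i
    rfl
  have hH : (Measure.map T (volume : Measure (E (n + 1)))).IsAddHaarMeasure :=
    T.isAddHaarMeasure_map volume
  rw [hTco] at hH
  refine ⟨(Measure.map (co v) volume).addHaarScalarFactor volume, ?_, ENNReal.coe_ne_top, ?_⟩
  · have := Measure.addHaarScalarFactor_pos_of_isAddHaarMeasure (Measure.map (co v) volume)
      (volume : Measure (Fin (n + 1) → ℝ))
    exact_mod_cast this.ne'
  · exact Measure.isAddLeftInvariant_eq_smul _ _

/-- the volume of the unit cell -/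
noncomputable def cell : ℝ≥0∞ := volume {ξ : E (n + 1) | ∀ i, ⟪v i, ξ⟫ ∈ Ioc (0 : ℝ) 1}

/-- the product set -/
def PS (A : Fin (n + 1) → Set ℝ) : Set (E (n + 1)) := {ξ | ∀ i, ⟪v i, ξ⟫ ∈ A i}

theorem PS_eq (A : Fin (n + 1) → Set ℝ) : PS v A = co v ⁻¹' (Set.pi univ A) := by
  ext ξ
  simp [PS, co]

theorem PS_meas (A : Fin (n + 1) → Set ℝ) (hA : ∀ i, MeasurableSet (A i)) :
    MeasurableSet (PS v A) := by
  rw [PS_eq]
  exact co_meas v (MeasurableSet.univ_pi hA)

theorem frame (hv : LinearIndependent ℝ v) : cell v ≠ 0 ∧ cell v ≠ ∞ ∧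
    Measure.map (co v) volume = cell v • (volume : Measure (Fin (n + 1) → ℝ)) := by
  obtain ⟨κ, h0, ht, hκ⟩ := frame_map v hv
  have : cell v = κ := by
    have h1 : cell v = volume (PS v fun _ => Ioc (0 : ℝ) 1) := rfl
    rw [h1, PS_eq, ← Measure.map_apply (co_meas v) (MeasurableSet.univ_pi fun _ => measurableSet_Ioc),
      hκ, Measure.smul_apply, volume_pi_pi]
    simp
  rw [this]
  exact ⟨h0, ht, hκ⟩

theorem PS_vol (hv : LinearIndependent ℝ v) (A : Fin (n + 1) → Set ℝ)
    (hA : ∀ i, MeasurableSet (A i)) : volume (PS v A) = cell v * ∏ i, volume (A i) := by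
  rw [PS_eq, ← Measure.map_apply (co_meas v) (MeasurableSet.univ_pi hA), (frame v hv).2.2,
    Measure.smul_apply, volume_pi_pi, smul_eq_mul]

theorem RB_vol (hv : LinearIndependent ℝ v) (l : Fin (n + 1) → ℝ) :
    volume (RB v l) = cell v * ∏ i, ENNReal.ofReal (2 * l i) := by
  have h1 : RB v l = PS v fun i => Icc (-l i) (l i) := by
    ext ξ
    simp [RB, PS, abs_le]
  rw [h1, PS_vol v hv _ fun i => measurableSet_Icc]
  congr 1
  refine Finset.prod_congr rfl fun i _ => ?_
  rw [Real.volume_Icc]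
  congr 1
  ring

theorem polar' (hv : LinearIndependent ℝ v) (L : Fin (n + 1) → ℝ≥0∞) (hLt : ∀ i, L i ≠ ∞) :
    ∫⁻ x : E n, Mn v L x ^ (n + 1) ≤ 2 * (n + 1) * (cell v * ∏ i, L i) := by
  refine (polar v (spans_of_li v hv) L hLt).trans (le_of_eq ?_)
  have hLl : ∀ i, ENNReal.ofReal ((L i).toReal) = L i := fun i => ENNReal.ofReal_toReal (hLt i)
  rw [RB_vol v hv]
  simp_rw [ENNReal.ofReal_mul zero_le_two, hLl]
  rw [Finset.prod_mul_distrib, Finset.prod_const, Finset.card_univ, Fintype.card_fin,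
    ENNReal.ofReal_pow (by positivity), ENNReal.ofReal_ofNat, pow_succ]
  have h3 : ENNReal.ofReal (1 / 2) ^ n * 2 ^ n = 1 := by
    rw [← mul_pow, one_div, ENNReal.ofReal_inv_of_pos (by norm_num), ENNReal.ofReal_ofNat,
      ENNReal.inv_mul_cancel (by norm_num) (by norm_num), one_pow]
  calc ((n : ℝ≥0∞) + 1) * (ENNReal.ofReal (1 / 2) ^ n * (cell v * (2 ^ n * 2 * ∏ i, L i)))
      = (ENNReal.ofReal (1 / 2) ^ n * 2 ^ n) * (2 * (n + 1) * (cell v * ∏ i, L i)) := by ring
    _ = _ := by rw [h3, one_mul]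

theorem holder_Mn (hn : 0 < n) (hv : LinearIndependent ℝ v) (L : Fin (n + 1) → ℝ≥0∞)
    (hLt : ∀ i, L i ≠ ∞) (f : E n → ℂ) (hf : AEStronglyMeasurable f) :
    ∫⁻ x, ‖f x‖ₑ ^ 2 * Mn v L x ≤
      nf f * ((2 * (n + 1)) ^ (1 / ((n : ℝ) + 1)) * (cell v * ∏ i, L i) ^ (1 / ((n : ℝ) + 1))) := by
  have hn' : (0 : ℝ) < n := by exact_mod_cast hn
  have hpq : Real.HolderConjugate (((n : ℝ) + 1) / n) ((n : ℝ) + 1) := by
    rw [Real.holderConjugate_iff]
    constructor
    · rw [lt_div_iff₀ hn']; linarith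
    · field_simp
  have h := ENNReal.lintegral_mul_le_Lp_mul_Lq volume hpq
    (f := fun x => ‖f x‖ₑ ^ 2) (g := Mn v L) (hf.enorm.pow_const 2) (Mn_meas v L).aemeasurable
  refine h.trans ?_
  refine mul_le_mul' (le_of_eq ?_) ?_
  · unfold nf
    congr 1
    · refine lintegral_congr fun x => ?_
      rw [← ENNReal.rpow_natCast, ← ENNReal.rpow_mul]
      congr 1
      push_cast
      ring
    · field_simp
  · rw [← ENNReal.mul_rpow_of_nonneg _ _ (by positivity)]
    refine ENNReal.rpow_le_rpow ?_ (by positivity)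
    refine le_trans (le_of_eq ?_) (polar' v hv L hLt)
    refine lintegral_congr fun x => ?_
    rw [← ENNReal.rpow_natCast]
    push_cast
    rfl

/-- `nf f = 0` only for `f = 0` a.e. -/
theorem nf_zero (hn : 0 < n) (f : E n → ℂ) (hf : Integrable f) (hf0 : nf f = 0) :
    ∀ ξ, Ex f ξ = 0 := by
  have hn' : (0 : ℝ) < n := by exact_mod_cast hn
  have hz : f =ᵐ[volume] 0 := by
    unfold nf at hf0
    rw [ENNReal.rpow_eq_zero_iff] at hf0
    rcases hf0 with ⟨h2, _⟩ | ⟨_, h3⟩
    · rw [lintegral_eq_zero_iff' (hf.1.enorm.pow_const _)] at h2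
      filter_upwards [h2] with x hx
      have hx' : ‖f x‖ₑ ^ (2 * ((n : ℝ) + 1) / n) = 0 := hx
      rw [ENNReal.rpow_eq_zero_iff] at hx'
      rcases hx' with ⟨h4, _⟩ | ⟨_, h5⟩
      · simpa using h4
      · exfalso
        have : 0 < 2 * ((n : ℝ) + 1) / n := by positivity
        linarith
    · exfalso
      have : 0 < (n : ℝ) / (n + 1) := by positivity
      linarith
  intro y
  unfold Ex
  rw [integral_eq_zero_of_ae]
  filter_upwards [hz] with x hx
  rw [hx]
  simp

theorem Cn_ne : Cn n ≠ 0 := by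
  unfold Cn
  refine mul_ne_zero (by positivity) ?_
  rw [Ne, ENNReal.rpow_eq_zero_iff]
  rintro (⟨h4, _⟩ | ⟨h4, _⟩)
  · exact absurd h4 (by positivity)
  · have : (2 * ((n : ℝ≥0∞) + 1)) ≠ ∞ :=
      ENNReal.mul_ne_top (by norm_num) (by simp)
    exact this h4

/-- **the endpoint estimate**, majorants by functions of one linear coordinate -/
theorem endpointW (hn : 0 < n) (hv : LinearIndependent ℝ v)
    (w : Fin (n + 1) → ℝ → ℝ≥0∞) (hw : ∀ i, Measurable (w i))
    (W : E (n + 1) → ℝ≥0∞) (hW : ∀ ξ i, W ξ ≤ w i ⟪v i, ξ⟫) (f : E n → ℂ)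
    (hf : Integrable f) :
    ∫⁻ ξ, W ξ * ‖Ex f ξ‖ₑ ^ 2 ≤
      Cn n * (cell v * ∏ i, ∫⁻ a, w i a) ^ (1 / ((n : ℝ) + 1)) * nf f := by
  have hfr := frame v hv
  by_cases h0 : ∃ i, ∫⁻ a, w i a = 0
  · obtain ⟨i, hi⟩ := h0
    rw [lintegral_eq_zero_iff (hw i)] at hi
    have h1 : ∀ᵐ ξ : E (n + 1), w i ⟪v i, ξ⟫ = 0 := by
      have h2 : ∀ᵐ y ∂(Measure.map (co v) (volume : Measure (E (n + 1)))), w i (y i) = 0 := by
        rw [hfr.2.2]
        refine Measure.ae_smul_measure ?_ _
        exact (Measure.quasiMeasurePreserving_eval (μ := fun _ : Fin (n + 1) =>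
          (volume : Measure ℝ)) i).ae (p := fun a => w i a = 0) hi
      exact ae_of_ae_map (co_meas v).aemeasurable h2
    have h3 : ∫⁻ ξ, W ξ * ‖Ex f ξ‖ₑ ^ 2 = 0 := by
      rw [lintegral_eq_zero_of_ae_eq_zero]
      filter_upwards [h1] with ξ hξ
      have : W ξ = 0 := le_antisymm ((hW ξ i).trans hξ.le) zero_le
      simp [this]
    rw [h3]
    exact zero_le
  push Not at h0
  by_cases ht : ∃ i, ∫⁻ a, w i a = ∞
  · obtain ⟨i, hi⟩ := ht
    have h1 : ∏ i, ∫⁻ a, w i a = ∞ := by
      rw [← Finset.mul_prod_erase _ _ (Finset.mem_univ i), hi, ENNReal.top_mul]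
      exact Finset.prod_ne_zero_iff.2 fun j _ => h0 j
    by_cases hf0 : nf f = 0
    · simp [nf_zero hn f hf hf0]
    · have h3 : Cn n * (cell v * ∏ i, ∫⁻ a, w i a) ^ (1 / ((n : ℝ) + 1)) * nf f = ∞ := by
        rw [h1, ENNReal.mul_top hfr.1, ENNReal.top_rpow_of_pos (by positivity),
          ENNReal.mul_top Cn_ne, ENNReal.top_mul hf0]
      rw [h3]
      exact le_top
  push Not at ht
  have hv0 : ∀ i, v i ≠ 0 := fun i => hv.ne_zero i
  refine (box v (spans_of_li v hv) hv0 (fun i => ∫⁻ a, w i a) h0 ht w hw (fun i => le_rfl) W hW f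
    hf).trans ?_
  refine (mul_le_mul_right (holder_Mn v hn hv _ ht f hf.1) _).trans (le_of_eq ?_)
  unfold Cn
  push_cast
  ring

/-- **the endpoint estimate for product sets in arbitrary linear frames** -/
theorem endpointS (hn : 0 < n) (hv : LinearIndependent ℝ v) (A : Fin (n + 1) → Set ℝ)
    (hA : ∀ i, MeasurableSet (A i)) (f : E n → ℂ) (hf : Integrable f) :
    ∫⁻ ξ in PS v A, ‖Ex f ξ‖ₑ ^ 2 ≤
      Cn n * volume (PS v A) ^ (1 / ((n : ℝ) + 1)) * nf f := by
  have h := endpointW v hn hv (fun i => (A i).indicator 1)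
    (fun i => measurable_one.indicator (hA i)) ((PS v A).indicator 1) (fun ξ i => by
      by_cases hξ : ξ ∈ PS v A
      · rw [indicator_of_mem hξ, indicator_of_mem (hξ i)]
        exact le_rfl
      · rw [indicator_of_notMem hξ]
        exact zero_le) f hf
  have h1 : ∀ i, ∫⁻ a, (A i).indicator (1 : ℝ → ℝ≥0∞) a = volume (A i) := fun i =>
    lintegral_indicator_one (hA i)
  simp_rw [h1] at h
  rw [← PS_vol v hv A hA] at h
  refine le_trans (le_of_eq ?_) h
  rw [← lintegral_indicator (PS_meas v A hA)]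
  refine lintegral_congr fun ξ => ?_
  by_cases hξ : ξ ∈ PS v A
  · rw [indicator_of_mem hξ, indicator_of_mem hξ, Pi.one_apply, one_mul]
  · rw [indicator_of_notMem hξ, indicator_of_notMem hξ, zero_mul]

end Pool.Agent.R412.RS
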