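import Mathlib
import Pool.Agent.R412.RT.P2
set_option autoImplicit false

/-! Product weights: Lorentz norms in arbitrary frames, `L^r` norms in orthonormal frames. -/

namespace Pool.Agent.R412.RS

open MeasureTheory Complex Set Filter Topology
open scoped ENNReal RealInnerProductSpace ComplexConjugate
open Pool.Agent.R412.RT (E ee ee_norm ee_add ee_conj ee_meas Phi Nn Ex Ex_meas nf Cn Lo Lo_ind layer)

section gen

variable {ι : Type*} [Fintype ι] [DecidableEq ι] (ρ : Measure (ι → ℝ)) [SFinite ρ]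

theorem layer_gen (w : ι → ℝ → ℝ≥0∞) (hw : ∀ i, Measurable (w i)) (j : ι) :
    ∫⁻ y, ∏ i, w i (y i) ∂ρ = ∫⁻ t in Ioi (0 : ℝ), (∫⁻ y,
      ∏ i, (Function.update w j ({a | ENNReal.ofReal t < w j a}.indicator 1)) i (y i) ∂ρ) := by
  have hu : ∀ (t : ℝ) (y : ι → ℝ),
      ∏ i, (Function.update w j ({a | ENNReal.ofReal t < w j a}.indicator 1)) i (y i) =
      (if ENNReal.ofReal t < w j (y j) then 1 else 0) *
        ∏ i ∈ Finset.univ.erase j, w i (y i) := by
    intro t y
    rw [← Finset.mul_prod_erase _ _ (Finset.mem_univ j), Function.update_self, indicator_apply]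
    congr 1
    refine Finset.prod_congr rfl fun i hi => ?_
    rw [Function.update_of_ne (Finset.ne_of_mem_erase hi)]
  have hm0 : ∀ i, Measurable fun y : ι → ℝ => w i (y i) := fun i =>
    (hw i).comp (measurable_pi_apply i)
  simp_rw [hu]
  rw [lintegral_lintegral_swap]
  · refine lintegral_congr fun y => ?_
    rw [lintegral_mul_const, ← layer,
      Finset.mul_prod_erase Finset.univ (fun i => w i (y i)) (Finset.mem_univ j)]
    exact Measurable.ite (measurableSet_lt ENNReal.measurable_ofReal measurable_const)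
      measurable_const measurable_const
  · refine Measurable.aemeasurable ?_
    refine Measurable.mul ?_ ?_
    · refine Measurable.ite ?_ measurable_const measurable_const
      exact measurableSet_lt measurable_fst.ennreal_ofReal ((hm0 j).comp measurable_snd)
    · exact Finset.measurable_prod _ fun i _ => (hm0 i).comp measurable_snd

theorem lo_gen_aux (d : ℝ) (hd : 0 < d) (K : ℝ≥0∞)
    (hK : ∀ A : ι → Set ℝ, (∀ i, MeasurableSet (A i)) →
      ∫⁻ y, ∏ i, (A i).indicator (1 : ℝ → ℝ≥0∞) (y i) ∂ρ ≤ K * ∏ i, volume (A i) ^ (1 / d))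
    (s : Finset ι) :
    ∀ w : ι → ℝ → ℝ≥0∞, (∀ i, Measurable (w i)) →
      (∀ i ∉ s, ∃ A : Set ℝ, MeasurableSet A ∧ w i = A.indicator 1) →
      ∫⁻ y, ∏ i, w i (y i) ∂ρ ≤ K * ∏ i, Lo d (w i) := by
  induction s using Finset.induction_on with
  | empty =>
    intro w hw h
    choose A hA hwA using fun i => h i (Finset.notMem_empty i)
    have hw' : w = fun i => (A i).indicator 1 := by
      ext1 i; exact hwA i
    rw [hw']
    refine (hK A hA).trans (le_of_eq ?_)
    simp_rw [Lo_ind d hd]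
  | insert j s hj ih =>
    intro w hw h
    rw [layer_gen ρ w hw j]
    have hmt : ∀ t : ℝ, MeasurableSet {a | ENNReal.ofReal t < w j a} := fun t =>
      measurableSet_lt measurable_const (hw j)
    have h1 : ∀ t : ℝ, ∫⁻ y, ∏ i, (Function.update w j
        ({a | ENNReal.ofReal t < w j a}.indicator 1)) i (y i) ∂ρ ≤
        K * (volume {a | ENNReal.ofReal t < w j a} ^ (1 / d) *
          ∏ i ∈ Finset.univ.erase j, Lo d (w i)) := by
      intro t
      refine (ih _ ?_ ?_).trans (le_of_eq ?_)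
      · intro i
        by_cases hi : i = j
        · subst hi
          rw [Function.update_self]
          exact measurable_one.indicator (hmt t)
        · rw [Function.update_of_ne hi]
          exact hw i
      · intro i hi
        by_cases hij : i = j
        · subst hij
          exact ⟨_, hmt t, by rw [Function.update_self]⟩
        · rw [Function.update_of_ne hij]
          exact h i (by simp [hij, hi])
      · rw [← Finset.mul_prod_erase _ _ (Finset.mem_univ j), Function.update_self, Lo_ind d hd]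
        congr 2
        refine Finset.prod_congr rfl fun i hi => ?_
        rw [Function.update_of_ne (Finset.ne_of_mem_erase hi)]
    refine (lintegral_mono fun t => h1 t).trans (le_of_eq ?_)
    have hanti : Measurable fun t : ℝ =>
        volume {a | ENNReal.ofReal t < w j a} ^ (1 / d) := by
      refine Measurable.pow_const ?_ _
      refine Antitone.measurable fun t t' htt => measure_mono fun a ha => ?_
      exact lt_of_le_of_lt (ENNReal.ofReal_le_ofReal htt) ha
    have h2 : ∀ t : ℝ, K * (volume {a | ENNReal.ofReal t < w j a} ^ (1 / d) *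
          ∏ i ∈ Finset.univ.erase j, Lo d (w i)) =
        volume {a | ENNReal.ofReal t < w j a} ^ (1 / d) *
          (K * ∏ i ∈ Finset.univ.erase j, Lo d (w i)) := by
      intro t; ring
    simp_rw [h2]
    rw [lintegral_mul_const _ hanti, ← Finset.mul_prod_erase Finset.univ (fun i => Lo d (w i))
      (Finset.mem_univ j)]
    show Lo d (w j) * _ = _
    ring

/-- from product sets to product weights, for any measure -/
theorem lo_gen (d : ℝ) (hd : 0 < d) (K : ℝ≥0∞)
    (hK : ∀ A : ι → Set ℝ, (∀ i, MeasurableSet (A i)) →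
      ∫⁻ y, ∏ i, (A i).indicator (1 : ℝ → ℝ≥0∞) (y i) ∂ρ ≤ K * ∏ i, volume (A i) ^ (1 / d))
    (w : ι → ℝ → ℝ≥0∞) (hw : ∀ i, Measurable (w i)) :
    ∫⁻ y, ∏ i, w i (y i) ∂ρ ≤ K * ∏ i, Lo d (w i) :=
  lo_gen_aux ρ d hd K hK Finset.univ w hw fun i hi => absurd (Finset.mem_univ i) hi

end gen

variable {n : ℕ}

theorem prod_ind (A : Fin (n + 1) → Set ℝ) (y : Fin (n + 1) → ℝ) :
    ∏ i, (A i).indicator (1 : ℝ → ℝ≥0∞) (y i) = (Set.pi univ A).indicator 1 y := by
  classical
  by_cases h : y ∈ Set.pi univ A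
  · rw [indicator_of_mem h]
    refine Finset.prod_eq_one fun i _ => ?_
    rw [indicator_of_mem (h i (mem_univ i))]
    rfl
  · rw [indicator_of_notMem h]
    have : ∃ i, y i ∉ A i := by
      by_contra h'
      push Not at h'
      exact h fun i _ => h' i
    obtain ⟨i, hi⟩ := this
    exact Finset.prod_eq_zero (Finset.mem_univ i) (indicator_of_notMem hi _)

/-- **product weights in arbitrary linear frames**, Lorentz norms at the endpoint -/
theorem lorentzS (hn : 0 < n) (v : Fin (n + 1) → E (n + 1)) (hv : LinearIndependent ℝ v)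
    (w : Fin (n + 1) → ℝ → ℝ≥0∞) (hw : ∀ i, Measurable (w i)) (f : E n → ℂ)
    (hf : Integrable f) :
    ∫⁻ ξ, (∏ i, w i ⟪v i, ξ⟫) * ‖Ex f ξ‖ₑ ^ 2 ≤
      Cn n * cell v ^ (1 / ((n : ℝ) + 1)) * nf f * ∏ i, Lo ((n : ℝ) + 1) (w i) := by
  set G : E (n + 1) → ℝ≥0∞ := fun ξ => ‖Ex f ξ‖ₑ ^ 2 with hG
  have hGm : Measurable G := (Ex_meas f hf.1).enorm.pow_const 2
  set ρ : Measure (Fin (n + 1) → ℝ) := Measure.map (co v) (volume.withDensity G) with hρ
  have key : ∀ F : (Fin (n + 1) → ℝ) → ℝ≥0∞, Measurable F →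
      ∫⁻ y, F y ∂ρ = ∫⁻ ξ, F (co v ξ) * G ξ := by
    intro F hF
    have hFc : Measurable fun ξ => F (co v ξ) := hF.comp (co_meas v)
    rw [hρ, lintegral_map hF (co_meas v), lintegral_withDensity_eq_lintegral_mul _ hGm hFc]
    refine lintegral_congr fun ξ => ?_
    simp only [Pi.mul_apply]
    rw [mul_comm]
  have hpm : ∀ w : Fin (n + 1) → ℝ → ℝ≥0∞, (∀ i, Measurable (w i)) →
      Measurable fun y : Fin (n + 1) → ℝ => ∏ i, w i (y i) := fun w hw =>
    Finset.measurable_prod _ fun i _ => (hw i).comp (measurable_pi_apply i)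
  have h1 := lo_gen ρ ((n : ℝ) + 1) (by positivity) (Cn n * cell v ^ (1 / ((n : ℝ) + 1)) * nf f)
    (fun A hA => by
      rw [key _ (hpm _ fun i => measurable_one.indicator (hA i))]
      have h2 := endpointS v hn hv A hA f hf
      rw [PS_vol v hv A hA, ENNReal.mul_rpow_of_nonneg _ _ (by positivity)] at h2
      calc ∫⁻ ξ, (∏ i, (A i).indicator (1 : ℝ → ℝ≥0∞) (co v ξ i)) * G ξ
          = ∫⁻ ξ in PS v A, ‖Ex f ξ‖ₑ ^ 2 := by
            rw [← lintegral_indicator (PS_meas v A hA)]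
            refine lintegral_congr fun ξ => ?_
            rw [prod_ind]
            have h3 : co v ξ ∈ Set.pi univ A ↔ ξ ∈ PS v A := by
              rw [PS_eq]; rfl
            by_cases hξ : ξ ∈ PS v A
            · rw [indicator_of_mem hξ, indicator_of_mem (h3.2 hξ), Pi.one_apply, one_mul]
            · rw [indicator_of_notMem hξ, indicator_of_notMem (fun h => hξ (h3.1 h)), zero_mul]
        _ ≤ _ := h2
        _ = _ := by
            rw [ENNReal.prod_rpow_of_nonneg (by positivity)]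
            ring) w hw
  rw [key _ (hpm w hw)] at h1
  exact h1

/-! ### orthonormal frames -/

theorem Phi_norm (x : E n) (R : ℝ) (hx : ‖x‖ ≤ R) : ‖Phi x‖ ≤ R + R ^ 2 := by
  have hR : 0 ≤ R := (norm_nonneg x).trans hx
  have h1 : ‖Phi x‖ ^ 2 = ‖x‖ ^ 2 + (‖x‖ ^ 2) ^ 2 := by
    rw [EuclideanSpace.norm_sq_eq, EuclideanSpace.norm_sq_eq, Fin.sum_univ_castSucc]
    simp only [Pool.Agent.R412.RT.Phi_cast, Pool.Agent.R412.RT.Phi_last, Real.norm_eq_abs, sq_abs]
  have h2 : ‖Phi x‖ ^ 2 ≤ (R + R ^ 2) ^ 2 := by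
    rw [h1]
    have h3 : ‖x‖ ^ 2 ≤ R ^ 2 := pow_le_pow_left₀ (norm_nonneg x) hx 2
    have h4 : (‖x‖ ^ 2) ^ 2 ≤ (R ^ 2) ^ 2 := pow_le_pow_left₀ (by positivity) h3 2
    nlinarith [mul_nonneg hR (sq_nonneg R)]
  exact (pow_le_pow_iff_left₀ (norm_nonneg _) (by positivity) two_ne_zero).1 h2

theorem nf_mono (f g : E n → ℂ) (c : ℝ) (hc : 0 ≤ c) (hn : 0 < n)
    (h : ∀ x, ‖g x‖ ≤ c * ‖f x‖) : nf g ≤ ENNReal.ofReal c ^ 2 * nf f := by
  have hn' : (0 : ℝ) < n := by exact_mod_cast hn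
  have hq : 0 ≤ 2 * ((n : ℝ) + 1) / n := by positivity
  have h1 : ∀ x, ‖g x‖ₑ ≤ ENNReal.ofReal c * ‖f x‖ₑ := by
    intro x
    rw [← ofReal_norm, ← ofReal_norm, ← ENNReal.ofReal_mul hc]
    exact ENNReal.ofReal_le_ofReal (h x)
  unfold nf
  calc (∫⁻ x, ‖g x‖ₑ ^ (2 * ((n : ℝ) + 1) / n)) ^ ((n : ℝ) / (n + 1))
      ≤ (∫⁻ x, ENNReal.ofReal c ^ (2 * ((n : ℝ) + 1) / n) *
          ‖f x‖ₑ ^ (2 * ((n : ℝ) + 1) / n)) ^ ((n : ℝ) / (n + 1)) := by
        refine ENNReal.rpow_le_rpow (lintegral_mono fun x => ?_) (by positivity)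
        rw [← ENNReal.mul_rpow_of_nonneg _ _ hq]
        exact ENNReal.rpow_le_rpow (h1 x) hq
    _ = _ := by
        rw [lintegral_const_mul' _ _ (ENNReal.rpow_ne_top_of_nonneg hq ENNReal.ofReal_ne_top),
          ENNReal.mul_rpow_of_nonneg _ _ (by positivity), ← ENNReal.rpow_mul]
        congr 1
        rw [← ENNReal.rpow_natCast]
        congr 1
        push_cast
        field_simp

/-- the scale of local constancy -/
noncomputable def dl (R : ℝ) : ℝ := 1 / (4 * Real.pi * (R + R ^ 2 + 1))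

/-- the constant -/
noncomputable def Cb (n : ℕ) (R r : ℝ) : ℝ≥0∞ :=
  Cn n * ENNReal.ofReal (2 ^ (n + 1)) ^ 2 *
    ENNReal.ofReal (Pool.Agent.R412.RT.Cr ((n : ℝ) + 1) r ((dl R)⁻¹ ^ (1 / r))) ^ (n + 1)

theorem Cb_ne_top (n : ℕ) (R r : ℝ) : Cb n R r ≠ ∞ := by
  unfold Cb Cn
  refine ENNReal.mul_ne_top (ENNReal.mul_ne_top (ENNReal.mul_ne_top ?_ ?_) ?_) ?_
  · exact ENNReal.mul_ne_top (by norm_num) (by simp)
  · exact ENNReal.rpow_ne_top_of_nonneg (by positivity)
      (ENNReal.mul_ne_top (by norm_num) (by simp))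
  · exact ENNReal.pow_ne_top ENNReal.ofReal_ne_top
  · exact ENNReal.pow_ne_top ENNReal.ofReal_ne_top

/-- **product weights in orthonormal frames**, `L^r` norms below the endpoint -/
theorem weightsO (hn : 0 < n) (R r : ℝ) (hR : 0 ≤ R) (hr : 1 ≤ r) (hrn : r < n + 1)
    (e : OrthonormalBasis (Fin (n + 1)) ℝ (E (n + 1)))
    (w : Fin (n + 1) → ℝ → ℝ≥0∞) (hw : ∀ i, Measurable (w i)) (f : E n → ℂ)
    (hf : Integrable f) (hfR : ∀ x, f x ≠ 0 → ‖x‖ ≤ R) :
    ∫⁻ ξ, (∏ i, w i ⟪e i, ξ⟫) * ‖Ex f ξ‖ₑ ^ 2 ≤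
      Cb n R r * nf f * ∏ i, (∫⁻ a, w i a ^ r) ^ (1 / r) := by
  have hδ : 0 < dl R := by
    unfold dl
    have := Real.pi_pos
    positivity
  have hK : 4 * Real.pi * (R + R ^ 2) * dl R ≤ 1 := by
    unfold dl
    have := Real.pi_pos
    rw [mul_one_div, div_le_one (by positivity)]
    nlinarith
  have hp : ∀ i, Measurable (Pool.Agent.R412.RT.ph e i : E n → ℝ) := fun i =>
    (Pool.Agent.R412.RT.ph_cont e i).measurable
  have h1 : ∫⁻ ξ, (∏ i, w i ⟪e i, ξ⟫) * ‖Ex f ξ‖ₑ ^ 2 =
      Pool.Agent.R412.RT.TP volume (Pool.Agent.R412.RT.ph e) f w := by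
    rw [Pool.Agent.R412.RT.cov e]
    · unfold Pool.Agent.R412.RT.TP
      refine lintegral_congr fun y => ?_
      simp only [Pool.Agent.R412.RT.inner_repr_symm, Pool.Agent.R412.RT.Ex_eq]
      rfl
    · refine Measurable.mul ?_ ((Ex_meas f hf.1).enorm.pow_const 2)
      exact Finset.measurable_prod _ fun i _ => (hw i).comp (by fun_prop)
  rw [h1]
  have h2 := Pool.Agent.R412.RT.Lr_bound volume (Pool.Agent.R412.RT.ph e) hp (dl R) hδ (R + R ^ 2)
    hK ((n : ℝ) + 1) r hr hrn f hf (fun x hx i => by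
      refine (abs_real_inner_le_norm _ _).trans ?_
      rw [e.orthonormal.1 i, one_mul]
      exact Phi_norm x R (hfR x hx)) (Cn n * (ENNReal.ofReal (2 ^ (n + 1)) ^ 2 * nf f))
    (fun g hg hgf A hA => by
      rw [Fintype.card_fin] at hgf
      have h3 := Pool.Agent.R412.RT.endpoint e hn A hA g hg
      refine (le_of_eq ?_).trans (h3.trans ?_)
      · rfl
      · rw [ENNReal.prod_rpow_of_nonneg (by positivity)]
        have h4 := nf_mono f g (2 ^ (n + 1)) (by positivity) hn hgf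
        calc Cn n * (∏ i, volume (A i)) ^ (1 / ((n : ℝ) + 1)) * nf g
            ≤ Cn n * (∏ i, volume (A i)) ^ (1 / ((n : ℝ) + 1)) *
              (ENNReal.ofReal (2 ^ (n + 1)) ^ 2 * nf f) := mul_le_mul_right h4 _
          _ = _ := by ring) w hw
  refine h2.trans (le_of_eq ?_)
  rw [Finset.prod_mul_distrib, Finset.prod_const, Finset.card_univ, Fintype.card_fin]
  unfold Cb
  ring

end Pool.Agent.R412.RS
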