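import Mathlib
import Pool.Agent.R412.RT.L
import Pool.Agent.H438R2.PD.A3
set_option autoImplicit false

/-! Planar blocks for the paraboloid in `ℝ^3`: the one dimensional Plancherel inequality and the
parabola. -/

namespace Pool.Agent.R412.RH

open MeasureTheory Complex Set Filter Topology
open scoped ENNReal RealInnerProductSpace ComplexConjugate
open Pool.Agent.R412.RT (E ee ee_norm ee_add ee_conj ee_meas ee_cont planch)
open Pool.Agent.H438R2.PD (E1 planar_parabola)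

/-- one dimensional Plancherel inequality -/
theorem planch1 (H : ℝ → ℂ) (hH : Integrable H) :
    ∫⁻ β : ℝ, ‖∫ u, ee (u * β) * H u‖ₑ ^ 2 ≤ ∫⁻ u, ‖H u‖ₑ ^ 2 := by
  set T : E 1 ≃ᵐ ℝ := (MeasurableEquiv.toLp 2 (Fin 1 → ℝ)).symm.trans
    (MeasurableEquiv.funUnique (Fin 1) ℝ) with hT
  have hTm : MeasurePreserving T volume volume :=
    (volume_preserving_funUnique (Fin 1) ℝ).comp (PiLp.volume_preserving_ofLp (Fin 1))
  have hTi : ∀ x y : E 1, ⟪x, y⟫ = T x * T y := by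
    intro x y
    rw [Pool.Agent.R412.RT.inner_eq, Fin.sum_univ_one]
    rfl
  have hg : Integrable fun x : E 1 => H (T x) :=
    (hTm.integrable_comp_emb T.measurableEmbedding).2 hH
  have hdet : (ContinuousLinearMap.id ℝ (E 1)).det = 1 := by
    unfold ContinuousLinearMap.det
    simp
  have h := planch (id : E 1 → E 1) measurable_id (fun _ => ContinuousLinearMap.id ℝ (E 1))
    univ MeasurableSet.univ (fun x _ => hasFDerivWithinAt_id x univ) (injOn_id _)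
    (fun x _ => by rw [hdet]; exact one_ne_zero) (by simp) (fun x => H (T x)) hg
    (fun x hx => absurd (mem_univ x) hx)
  have h1 : ∀ t : E 1, ∫ x : E 1, ee ⟪id x, t⟫ * H (T x) = ∫ u, ee (u * T t) * H u := by
    intro t
    rw [← hTm.integral_comp T.measurableEmbedding]
    refine integral_congr_ae (Eventually.of_forall fun x => ?_)
    simp only [id, hTi]
  simp_rw [h1] at h
  have h2 : ∫⁻ t : E 1, ‖∫ u, ee (u * T t) * H u‖ₑ ^ 2 =
      ∫⁻ β : ℝ, ‖∫ u, ee (u * β) * H u‖ₑ ^ 2 :=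
    hTm.lintegral_comp_emb T.measurableEmbedding (fun β => ‖∫ u, ee (u * β) * H u‖ₑ ^ 2)
  have h3 : ∫⁻ x : E 1, ‖H (T x)‖ₑ ^ 2 / ENNReal.ofReal |(ContinuousLinearMap.id ℝ (E 1)).det| =
      ∫⁻ u, ‖H u‖ₑ ^ 2 := by
    rw [← hTm.lintegral_comp_emb T.measurableEmbedding (fun u => ‖H u‖ₑ ^ 2)]
    refine lintegral_congr fun x => ?_
    rw [hdet, abs_one, ENNReal.ofReal_one, div_one]
  rw [h2, h3] at h
  exact h

/-- the extension operator of the parabola -/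
noncomputable def Ep (a : ℝ → ℂ) (α t : ℝ) : ℂ := ∫ s, ee (s * α + s ^ 2 * t) * a s

theorem Ep_eq (a : ℝ → ℂ) (ha : ∀ s, s ∉ Ioo (-1 : ℝ) 1 → a s = 0) (α t : ℝ) :
    Ep a α t = E1 a (-(2 * Real.pi) * α) (2 * Real.pi * t) := by
  unfold Ep E1
  rw [← integral_indicator measurableSet_Ioo]
  congr 1
  ext s
  by_cases hs : s ∈ Ioo (-1 : ℝ) 1
  · rw [indicator_of_mem hs, mul_comm]
    congr 1
    unfold ee
    congr 1
    push_cast
    ring
  · rw [indicator_of_notMem hs, ha s hs, mul_zero]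

theorem scale_le (c : ℝ) (hc : 1 ≤ |c|) (G : ℝ → ℝ≥0∞) (hG : Measurable G) :
    ∫⁻ x, G (c * x) ≤ ∫⁻ x, G x := by
  have hc0 : c ≠ 0 := by
    intro h
    rw [h, abs_zero] at hc
    linarith
  have h5 := Measure.map_addHaar_smul (volume : Measure ℝ) hc0
  have h6 : ∫⁻ a, G a ∂(Measure.map (c • ·) (volume : Measure ℝ)) = ∫⁻ a, G (c * a) :=
    lintegral_map hG (measurable_const_smul c)
  rw [← h6, h5, lintegral_smul_measure, smul_eq_mul, Module.finrank_self, pow_one]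
  refine mul_le_of_le_one_left zero_le ?_
  rw [← ENNReal.ofReal_one]
  refine ENNReal.ofReal_le_ofReal ?_
  rw [abs_inv]
  exact inv_le_one_of_one_le₀ hc

theorem E1_meas (a : ℝ → ℂ) (ha : Measurable a) : Measurable fun p : ℝ × ℝ => E1 a p.1 p.2 := by
  unfold E1
  have : StronglyMeasurable (Function.uncurry fun (p : ℝ × ℝ) (u : ℝ) =>
      a u * Complex.exp (((p.2 * u ^ 2 - p.1 * u : ℝ) : ℂ) * I)) := by
    refine Measurable.stronglyMeasurable ?_
    refine (ha.comp measurable_snd).mul ?_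
    refine Complex.measurable_exp.comp (Measurable.mul_const ?_ I)
    exact Complex.measurable_ofReal.comp (by fun_prop)
  exact this.integral_prod_right.measurable

/-- the restriction theorem for the parabola -/
theorem par (P : ℝ) (hP : 4 < P) : ∃ C : ℝ, 0 < C ∧ ∀ (a : ℝ → ℂ) (M : ℝ), 0 ≤ M →
    Measurable a → (∀ u, ‖a u‖ ≤ M) → (∀ s, s ∉ Ioo (-1 : ℝ) 1 → a s = 0) →
    ∫⁻ τ : ℝ × ℝ, ‖Ep a τ.1 τ.2‖ₑ ^ P ≤ ENNReal.ofReal (C * M ^ P) := by
  obtain ⟨C, hC, h⟩ := planar_parabola P hP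
  refine ⟨C, hC, fun a M hM0 ha hM has => ?_⟩
  have hpi : (1 : ℝ) ≤ |2 * Real.pi| := by
    rw [abs_of_pos (by positivity)]
    linarith [Real.pi_gt_three]
  have hpi' : 1 ≤ |-(2 * Real.pi)| := by rw [abs_neg]; exact hpi
  have hm := E1_meas a ha
  have hmm : Measurable fun p : ℝ × ℝ => ENNReal.ofReal (‖E1 a p.1 p.2‖ ^ P) :=
    (hm.norm.pow_const P).ennreal_ofReal
  set c : ℝ := 2 * Real.pi with hc
  clear_value c
  set G : ℝ × ℝ → ℝ≥0∞ := fun p => ENNReal.ofReal (‖E1 a p.1 p.2‖ ^ P) with hG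
  have hh : ∫⁻ l, ∫⁻ ξ, G (ξ, l) ≤ ENNReal.ofReal (C * M ^ P) := h a M ha hM
  have h1 : ∀ τ : ℝ × ℝ, ‖Ep a τ.1 τ.2‖ₑ ^ P = G (-c * τ.1, c * τ.2) := by
    intro τ
    rw [Ep_eq a has, ← ofReal_norm, ENNReal.ofReal_rpow_of_nonneg (norm_nonneg _) (by linarith),
      ← hc]
  clear_value G
  refine le_trans ?_ hh
  have hmeas2 : Measurable fun τ : ℝ × ℝ => G (-c * τ.1, c * τ.2) :=
    hmm.comp (by fun_prop : Measurable fun τ : ℝ × ℝ => (-c * τ.1, c * τ.2))
  calc ∫⁻ τ : ℝ × ℝ, ‖Ep a τ.1 τ.2‖ₑ ^ P = ∫⁻ τ : ℝ × ℝ, G (-c * τ.1, c * τ.2) :=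
        lintegral_congr h1
    _ = ∫⁻ t : ℝ, ∫⁻ α : ℝ, G (-c * α, c * t) := by
        rw [Measure.volume_eq_prod, lintegral_prod_symm _ hmeas2.aemeasurable]
    _ ≤ ∫⁻ t : ℝ, ∫⁻ ξ : ℝ, G (ξ, c * t) := by
        refine lintegral_mono fun t => ?_
        exact scale_le (-c) hpi' (fun ξ => G (ξ, c * t))
          (hmm.comp (measurable_id.prodMk measurable_const))
    _ ≤ ∫⁻ l : ℝ, ∫⁻ ξ : ℝ, G (ξ, l) := by
        exact scale_le c hpi (fun l => ∫⁻ ξ : ℝ, G (ξ, l)) hmm.lintegral_prod_left'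

/-- restriction to planar sets -/
theorem parS (P : ℝ) (hP : 4 < P) : ∃ C : ℝ, 0 < C ∧ ∀ (a : ℝ → ℂ) (M : ℝ), 0 ≤ M →
    Measurable a → (∀ u, ‖a u‖ ≤ M) → (∀ s, s ∉ Ioo (-1 : ℝ) 1 → a s = 0) →
    ∀ A : Set (ℝ × ℝ), MeasurableSet A →
    ∫⁻ τ in A, ‖Ep a τ.1 τ.2‖ₑ ^ 2 ≤ ENNReal.ofReal (C * M ^ 2) * volume A ^ (1 - 2 / P) := by
  obtain ⟨C, hC, h⟩ := par P hP
  refine ⟨C ^ (2 / P), by positivity, fun a M hM0 ha hM has A hA => ?_⟩
  have hP0 : 0 < P := by linarith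
  have hpq : Real.HolderConjugate (P / 2) (P / (P - 2)) := by
    rw [Real.holderConjugate_iff]
    constructor
    · linarith
    · field_simp
      ring
  have hm : Measurable fun τ : ℝ × ℝ => Ep a τ.1 τ.2 := by
    have h1 : (fun τ : ℝ × ℝ => Ep a τ.1 τ.2) = fun τ : ℝ × ℝ =>
        E1 a (-(2 * Real.pi) * τ.1) (2 * Real.pi * τ.2) := by
      ext τ
      rw [Ep_eq a has]
    rw [h1]
    exact (E1_meas a ha).comp (by fun_prop : Measurable fun τ : ℝ × ℝ =>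
      (-(2 * Real.pi) * τ.1, 2 * Real.pi * τ.2))
  have h1 := ENNReal.lintegral_mul_le_Lp_mul_Lq (volume.restrict A) hpq
    (f := fun τ : ℝ × ℝ => ‖Ep a τ.1 τ.2‖ₑ ^ 2) (g := fun _ => 1)
    (hm.enorm.pow_const 2).aemeasurable aemeasurable_const
  simp only [Pi.mul_apply, mul_one, ENNReal.one_rpow, lintegral_const,
    Measure.restrict_apply_univ, one_mul] at h1
  refine h1.trans ?_
  refine mul_le_mul' ?_ (le_of_eq ?_)
  · have h2 : ∫⁻ τ in A, (‖Ep a τ.1 τ.2‖ₑ ^ 2) ^ (P / 2) ≤ ENNReal.ofReal (C * M ^ P) := by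
      refine le_trans ?_ (h a M hM0 ha hM has)
      refine le_trans (setLIntegral_le_lintegral _ _) (le_of_eq ?_)
      refine lintegral_congr fun τ => ?_
      rw [← ENNReal.rpow_natCast, ← ENNReal.rpow_mul]
      congr 1
      push_cast
      ring
    refine (ENNReal.rpow_le_rpow h2 (by positivity)).trans (le_of_eq ?_)
    rw [ENNReal.ofReal_rpow_of_nonneg (by positivity) (by positivity), one_div_div,
      Real.mul_rpow hC.le (by positivity), ← Real.rpow_mul hM0]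
    congr 2
    rw [← Real.rpow_natCast]
    congr 1
    push_cast
    field_simp
  · congr 1
    field_simp

end Pool.Agent.R412.RH
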