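import Mathlib
import Pool.Agent.R412.RT.T1
set_option autoImplicit false

/-! Planar blocks for the paraboloid in `ℝ^3`: coordinates and the block estimate. -/

namespace Pool.Agent.R412.RH

open MeasureTheory Complex Set Filter Topology
open scoped ENNReal RealInnerProductSpace ComplexConjugate
open Pool.Agent.R412.RT (E ee ee_norm ee_add ee_conj ee_meas ee_cont Phi Nn Ex Ex_meas Ey Ex_eq
  Ey_meas ph ph_eq inner_eq cov inner_repr_symm split_lint)

variable (e : OrthonormalBasis (Fin 3) ℝ (E 3))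

/-- the third basis vector is vertical -/
def Vert : Prop := e 2 = EuclideanSpace.single (2 : Fin 3) (1 : ℝ)

variable (he : Vert e)

/-- horizontal parts -/
noncomputable def hz (j : Fin 2) : E 2 := WithLp.toLp 2 fun k => e j.castSucc k.castSucc

include he in
theorem last_zero (j : Fin 2) : e j.castSucc (Fin.last 2) = 0 := by
  have h1 : ⟪e j.castSucc, e 2⟫ = 0 := by
    refine e.orthonormal.2 ?_
    intro h
    have := congrArg Fin.val h
    simp at this
    omega
  rw [he] at h1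
  have h2 : ⟪e j.castSucc, (EuclideanSpace.single (2 : Fin 3) (1 : ℝ) : E 3)⟫ =
      e j.castSucc (Fin.last 2) := by
    rw [inner_eq, Finset.sum_eq_single (2 : Fin 3)]
    · simp
    · intro b _ hb
      simp [hb]
    · intro h
      exact absurd (Finset.mem_univ _) h
  rw [← h2, h1]

include he in
theorem hz_inner (i j : Fin 2) : ⟪hz e i, hz e j⟫ = ⟪e i.castSucc, e j.castSucc⟫ := by
  rw [inner_eq, inner_eq, Fin.sum_univ_castSucc (n := 2), last_zero e he i, zero_mul, add_zero]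
  rfl

include he in
theorem exists_b : ∃ b : OrthonormalBasis (Fin 2) ℝ (E 2), ∀ j, b j = hz e j := by
  have horth : Orthonormal ℝ ((univ : Set (Fin 2)).domRestrict (hz e)) := by
    rw [orthonormal_iff_ite]
    rintro ⟨i, hi⟩ ⟨j, hj⟩
    show ⟪hz e i, hz e j⟫ = _
    rw [hz_inner e he, orthonormal_iff_ite.1 e.orthonormal]
    by_cases h : i = j
    · subst h; simp
    · rw [if_neg, if_neg]
      · intro h'; exact h (by simpa using h')
      · intro h'; exact h (Fin.castSucc_injective _ h')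
  obtain ⟨b, hb⟩ := horth.exists_orthonormalBasis_extension_of_card_eq (by simp) (v := hz e)
  exact ⟨b, fun j => hb j (mem_univ j)⟩

/-- the horizontal basis -/
noncomputable def hb : OrthonormalBasis (Fin 2) ℝ (E 2) := (exists_b e he).choose

theorem hb_eq (j : Fin 2) : hb e he j = hz e j := (exists_b e he).choose_spec j

/-- the point with horizontal coordinates `(s, u)` -/
noncomputable def px (p : ℝ × ℝ) : E 2 :=
  (hb e he).repr.symm (WithLp.toLp 2 (![p.1, p.2] : Fin 2 → ℝ))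

theorem px_mp : MeasurePreserving (px e he) volume volume := by
  have h1 := (hb e he).measurePreserving_repr_symm.comp (PiLp.volume_preserving_toLp (Fin 2))
  have h2 := h1.comp (volume_preserving_finTwoArrow ℝ).symm
  exact h2

/-- as a measurable equivalence -/
noncomputable def pxe : (ℝ × ℝ) ≃ᵐ E 2 :=
  (MeasurableEquiv.finTwoArrow (α := ℝ)).symm.trans ((MeasurableEquiv.toLp 2 (Fin 2 → ℝ)).trans
    (hb e he).measurableEquiv.symm)

theorem pxe_eq : (pxe e he : ℝ × ℝ → E 2) = px e he := rfl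

theorem px_inner (p : ℝ × ℝ) : ⟪hz e 0, px e he p⟫ = p.1 ∧ ⟪hz e 1, px e he p⟫ = p.2 := by
  constructor
  · rw [← hb_eq e he, ← OrthonormalBasis.repr_apply_apply, px, LinearIsometryEquiv.apply_symm_apply]
    rfl
  · rw [← hb_eq e he, ← OrthonormalBasis.repr_apply_apply, px, LinearIsometryEquiv.apply_symm_apply]
    rfl

theorem px_norm (p : ℝ × ℝ) : ‖px e he p‖ ^ 2 = p.1 ^ 2 + p.2 ^ 2 := by
  rw [px, LinearIsometryEquiv.norm_map, EuclideanSpace.norm_sq_eq, Fin.sum_univ_two]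
  simp

theorem px_ph (p : ℝ × ℝ) : ph e 0 (px e he p) = p.1 ∧ ph e 1 (px e he p) = p.2 ∧
    ph e 2 (px e he p) = p.1 ^ 2 + p.2 ^ 2 := by
  have h0 : ∀ j : Fin 2, ph e j.castSucc (px e he p) = ⟪hz e j, px e he p⟫ := by
    intro j
    rw [ph_eq, last_zero e he j, zero_mul, add_zero, inner_eq]
    rfl
  refine ⟨?_, ?_, ?_⟩
  · exact (h0 0).trans (px_inner e he p).1
  · exact (h0 1).trans (px_inner e he p).2
  · rw [ph_eq, he, ← px_norm e he p, EuclideanSpace.norm_sq_eq]
    simp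

/-- the function in horizontal coordinates, for fixed `u` -/
noncomputable def Fu (f : E 2 → ℂ) (u s : ℝ) : ℂ := f (px e he (s, u))

theorem Ey_px (f : E 2 → ℂ) (y : Fin 3 → ℝ) :
    Ey e f y = ∫ p : ℝ × ℝ, ee (p.2 * y 1) * (ee (p.2 ^ 2 * y 2) *
      (ee (p.1 * y 0 + p.1 ^ 2 * y 2) * f (px e he p))) := by
  unfold Ey
  rw [← (px_mp e he).integral_comp (by rw [← pxe_eq]; exact (pxe e he).measurableEmbedding)]
  congr 1
  ext p
  rw [← mul_assoc, ← mul_assoc, ← ee_add, ← ee_add, Fin.sum_univ_three, (px_ph e he p).1,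
    (px_ph e he p).2.1, (px_ph e he p).2.2]
  congr 2
  ring

theorem Ey_par (f : E 2 → ℂ) (hf : Integrable f) (y : Fin 3 → ℝ) :
    Ey e f y = ∫ u, ee (u * y 1) * (ee (u ^ 2 * y 2) * Ep (Fu e he f u) (y 0) (y 2)) := by
  rw [Ey_px e he f y]
  have hint : Integrable (fun p : ℝ × ℝ => ee (p.2 * y 1) * (ee (p.2 ^ 2 * y 2) *
      (ee (p.1 * y 0 + p.1 ^ 2 * y 2) * f (px e he p)))) (volume.prod volume) := by
    have h1 : Integrable (fun p : ℝ × ℝ => f (px e he p)) (volume.prod volume) :=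
      ((px_mp e he).integrable_comp_emb
        (by rw [← pxe_eq]; exact (pxe e he).measurableEmbedding)).2 hf
    refine Integrable.bdd_mul (c := 1) (Integrable.bdd_mul (c := 1)
      (Integrable.bdd_mul (c := 1) h1 ?_ ?_) ?_ ?_) ?_ ?_
    · exact (ee_cont.comp (by fun_prop)).aestronglyMeasurable
    · exact Eventually.of_forall fun p => (ee_norm _).le
    · exact (ee_cont.comp (by fun_prop)).aestronglyMeasurable
    · exact Eventually.of_forall fun p => (ee_norm _).le
    · exact (ee_cont.comp (by fun_prop)).aestronglyMeasurable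
    · exact Eventually.of_forall fun p => (ee_norm _).le
  rw [Measure.volume_eq_prod, integral_prod_symm _ hint]
  congr 1
  ext u
  dsimp only
  rw [integral_const_mul, integral_const_mul]
  rfl

/-- the class of functions -/
structure Nice (M : ℝ) (f : E 2 → ℂ) : Prop where
  meas : Measurable f
  bd : ∀ x, ‖f x‖ ≤ M
  supp : ∀ x, 1 ≤ ‖x‖ → f x = 0

theorem Nice.integrable {M : ℝ} {f : E 2 → ℂ} (h : Nice M f) : Integrable f := by
  have h1 : IntegrableOn f (Metric.ball 0 1) :=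
    Measure.integrableOn_of_bounded (M := M) measure_ball_lt_top.ne h.meas.aestronglyMeasurable
      (Eventually.of_forall fun x => h.bd x)
  rw [← integrable_indicator_iff Metric.isOpen_ball.measurableSet] at h1
  refine h1.congr (Eventually.of_forall fun x => ?_)
  by_cases hx : x ∈ Metric.ball (0 : E 2) 1
  · rw [indicator_of_mem hx]
  · rw [indicator_of_notMem hx, h.supp x]
    simpa using hx

theorem Fu_meas (f : E 2 → ℂ) (hf : Measurable f) :
    Measurable fun p : ℝ × ℝ => Fu e he f p.1 p.2 := by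
  unfold Fu
  exact hf.comp ((px_mp e he).measurable.comp measurable_swap)

theorem Fu_supp {M : ℝ} (f : E 2 → ℂ) (h : Nice M f) (u s : ℝ) (hs : s ∉ Ioo (-1 : ℝ) 1) :
    Fu e he f u s = 0 := by
  refine h.supp _ ?_
  have h1 := px_norm e he (s, u)
  have h2 : 1 ≤ s ^ 2 := by
    rw [one_le_sq_iff_one_le_abs]
    by_contra h3
    push Not at h3
    exact hs (abs_lt.1 h3)
  have h3 : 1 ≤ ‖px e he (s, u)‖ ^ 2 := by
    rw [h1]
    nlinarith [sq_nonneg u]
  exact (one_le_sq_iff₀ (norm_nonneg _)).1 h3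

theorem Fu_supp' {M : ℝ} (f : E 2 → ℂ) (h : Nice M f) (u s : ℝ) (hu : u ∉ Ioo (-1 : ℝ) 1) :
    Fu e he f u s = 0 := by
  refine h.supp _ ?_
  have h1 := px_norm e he (s, u)
  have h2 : 1 ≤ u ^ 2 := by
    rw [one_le_sq_iff_one_le_abs]
    by_contra h3
    push Not at h3
    exact hu (abs_lt.1 h3)
  have h3 : 1 ≤ ‖px e he (s, u)‖ ^ 2 := by
    rw [h1]
    nlinarith [sq_nonneg s]
  exact (one_le_sq_iff₀ (norm_nonneg _)).1 h3

theorem Ep_meas3 (f : E 2 → ℂ) (hf : Measurable f) :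
    Measurable fun q : ℝ × (ℝ × ℝ) => Ep (Fu e he f q.1) q.2.1 q.2.2 := by
  unfold Ep
  have : StronglyMeasurable (Function.uncurry fun (q : ℝ × (ℝ × ℝ)) (s : ℝ) =>
      ee (s * q.2.1 + s ^ 2 * q.2.2) * Fu e he f q.1 s) := by
    refine Measurable.stronglyMeasurable (Measurable.mul ?_ ?_)
    · exact (ee_cont.comp (by fun_prop)).measurable
    · exact (Fu_meas e he f hf).comp
        ((measurable_fst.comp measurable_fst).prodMk measurable_snd)
  exact this.integral_prod_right.measurable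

/-- **the block estimate**: Plancherel in one horizontal coordinate -/
theorem block0 (f : E 2 → ℂ) (hf : Measurable f) (hfi : Integrable f) (A : Set (ℝ × ℝ))
    (hA : MeasurableSet A) :
    ∫⁻ y : Fin 3 → ℝ, A.indicator 1 (y 0, y 2) * ‖Ey e f y‖ₑ ^ 2 ≤
      ∫⁻ u, ∫⁻ τ in A, ‖Ep (Fu e he f u) τ.1 τ.2‖ₑ ^ 2 := by
  have hm := Ep_meas3 e he f hf
  have hF : Measurable fun y : Fin 3 → ℝ => A.indicator (1 : ℝ × ℝ → ℝ≥0∞) (y 0, y 2) *
      ‖Ey e f y‖ₑ ^ 2 := by
    refine Measurable.mul ?_ ((Ey_meas e f hfi.1).enorm.pow_const 2)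
    exact (measurable_one.indicator hA).comp
      ((measurable_pi_apply 0).prodMk (measurable_pi_apply 2))
  rw [split_lint 1 _ hF]
  have hi0 : ∀ (β : ℝ) (t : Fin 2 → ℝ), ((1 : Fin 3).insertNth β t : Fin 3 → ℝ) 0 = t 0 ∧
      ((1 : Fin 3).insertNth β t : Fin 3 → ℝ) 1 = β ∧
      ((1 : Fin 3).insertNth β t : Fin 3 → ℝ) 2 = t 1 := by
    intro β t
    refine ⟨?_, ?_, ?_⟩
    · exact Fin.insertNth_apply_succAbove (α := fun _ => ℝ) (1 : Fin 3) β t 0
    · exact Fin.insertNth_apply_same (α := fun _ => ℝ) (1 : Fin 3) β t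
    · exact Fin.insertNth_apply_succAbove (α := fun _ => ℝ) (1 : Fin 3) β t 1
  have h1 : ∀ (β : ℝ) (t : Fin 2 → ℝ),
      A.indicator (1 : ℝ × ℝ → ℝ≥0∞) (((1 : Fin 3).insertNth β t : Fin 3 → ℝ) 0,
        ((1 : Fin 3).insertNth β t : Fin 3 → ℝ) 2) * ‖Ey e f ((1 : Fin 3).insertNth β t)‖ₑ ^ 2 =
      A.indicator (1 : ℝ × ℝ → ℝ≥0∞) (t 0, t 1) *
        ‖∫ u, ee (u * β) * (ee (u ^ 2 * t 1) * Ep (Fu e he f u) (t 0) (t 1))‖ₑ ^ 2 := by
    intro β t
    rw [Ey_par e he f hfi, (hi0 β t).1, (hi0 β t).2.1, (hi0 β t).2.2]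
  simp_rw [h1]
  have hJm : Measurable fun q : ℝ × (ℝ × ℝ) =>
      ∫ u, ee (u * q.1) * (ee (u ^ 2 * q.2.2) * Ep (Fu e he f u) q.2.1 q.2.2) := by
    have : StronglyMeasurable (Function.uncurry fun (q : ℝ × (ℝ × ℝ)) (u : ℝ) =>
        ee (u * q.1) * (ee (u ^ 2 * q.2.2) * Ep (Fu e he f u) q.2.1 q.2.2)) := by
      refine Measurable.stronglyMeasurable (Measurable.mul ?_ (Measurable.mul ?_ ?_))
      · exact (ee_cont.comp (by fun_prop)).measurable
      · exact (ee_cont.comp (by fun_prop)).measurable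
      · exact hm.comp (measurable_snd.prodMk (measurable_snd.comp measurable_fst))
    exact this.integral_prod_right.measurable
  set Jf : ℝ × (ℝ × ℝ) → ℝ≥0∞ := fun q => A.indicator (1 : ℝ × ℝ → ℝ≥0∞) q.2 *
    ‖∫ u, ee (u * q.1) * (ee (u ^ 2 * q.2.2) * Ep (Fu e he f u) q.2.1 q.2.2)‖ₑ ^ 2 with hJf
  have hJfm : Measurable Jf :=
    ((measurable_one.indicator hA).comp measurable_snd).mul (hJm.enorm.pow_const 2)
  have h2 : ∀ β : ℝ, ∫⁻ t : Fin 2 → ℝ, Jf (β, (t 0, t 1)) = ∫⁻ τ : ℝ × ℝ, Jf (β, τ) := by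
    intro β
    exact (volume_preserving_finTwoArrow ℝ).lintegral_comp_emb
      (MeasurableEquiv.finTwoArrow (α := ℝ)).measurableEmbedding (fun τ => Jf (β, τ))
  calc ∫⁻ β : ℝ, ∫⁻ t : Fin 2 → ℝ, A.indicator (1 : ℝ × ℝ → ℝ≥0∞) (t 0, t 1) *
        ‖∫ u, ee (u * β) * (ee (u ^ 2 * t 1) * Ep (Fu e he f u) (t 0) (t 1))‖ₑ ^ 2
      = ∫⁻ β : ℝ, ∫⁻ τ : ℝ × ℝ, Jf (β, τ) := lintegral_congr h2
    _ = ∫⁻ τ : ℝ × ℝ, ∫⁻ β : ℝ, Jf (β, τ) := by
        exact lintegral_lintegral_swap hJfm.aemeasurable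
    _ ≤ ∫⁻ τ : ℝ × ℝ, A.indicator (1 : ℝ × ℝ → ℝ≥0∞) τ *
          ∫⁻ u, ‖Ep (Fu e he f u) τ.1 τ.2‖ₑ ^ 2 := by
        refine lintegral_mono fun τ => ?_
        have h3 : Measurable fun β : ℝ =>
            ‖∫ u, ee (u * β) * (ee (u ^ 2 * τ.2) * Ep (Fu e he f u) τ.1 τ.2)‖ₑ ^ 2 :=
          (hJm.comp (measurable_id.prodMk measurable_const)).enorm.pow_const 2
        rw [hJf]
        simp only
        rw [lintegral_const_mul _ h3]
        refine mul_le_mul_right ?_ _
        have hHi : Integrable fun u => ee (u ^ 2 * τ.2) * Ep (Fu e he f u) τ.1 τ.2 := by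
          have h4 : Integrable (fun p : ℝ × ℝ => ee (p.1 * τ.1 + p.1 ^ 2 * τ.2) *
              f (px e he p)) (volume.prod volume) := by
            have h5 : Integrable (fun p : ℝ × ℝ => f (px e he p)) (volume.prod volume) :=
              ((px_mp e he).integrable_comp_emb
                (by rw [← pxe_eq]; exact (pxe e he).measurableEmbedding)).2 hfi
            refine h5.bdd_mul (c := 1) ?_ ?_
            · exact (ee_cont.comp (by fun_prop)).aestronglyMeasurable
            · exact Eventually.of_forall fun p => (ee_norm _).le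
          have h6 : Integrable fun u => Ep (Fu e he f u) τ.1 τ.2 := h4.integral_prod_right
          refine h6.bdd_mul (c := 1) ?_ ?_
          · exact (ee_cont.comp (by fun_prop)).aestronglyMeasurable
          · exact Eventually.of_forall fun p => (ee_norm _).le
        refine (planch1 _ hHi).trans (le_of_eq ?_)
        refine lintegral_congr fun u => ?_
        rw [enorm_mul, ← ofReal_norm (ee _), ee_norm, ENNReal.ofReal_one, one_mul]
    _ = ∫⁻ τ in A, ∫⁻ u, ‖Ep (Fu e he f u) τ.1 τ.2‖ₑ ^ 2 := by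
        rw [← lintegral_indicator hA]
        refine lintegral_congr fun τ => ?_
        by_cases hτ : τ ∈ A
        · rw [indicator_of_mem hτ, indicator_of_mem hτ, Pi.one_apply, one_mul]
        · rw [indicator_of_notMem hτ, indicator_of_notMem hτ, zero_mul]
    _ = ∫⁻ u, ∫⁻ τ in A, ‖Ep (Fu e he f u) τ.1 τ.2‖ₑ ^ 2 := by
        refine lintegral_lintegral_swap ?_
        exact (hm.comp measurable_swap).enorm.pow_const 2 |>.aemeasurable

/-- the block estimate with the parabola inserted -/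
theorem block (P : ℝ) (hP : 4 < P) : ∃ C : ℝ, 0 < C ∧
    ∀ (e : OrthonormalBasis (Fin 3) ℝ (E 3)) (he : Vert e) (M : ℝ) (f : E 2 → ℂ), 0 ≤ M →
    Nice M f → ∀ (A : Set (ℝ × ℝ)), MeasurableSet A → ∀ S : Set ℝ, MeasurableSet S →
    (∀ u, u ∉ S → ∀ s, Fu e he f u s = 0) →
    ∫⁻ y : Fin 3 → ℝ, A.indicator 1 (y 0, y 2) * ‖Ey e f y‖ₑ ^ 2 ≤
      ENNReal.ofReal (C * M ^ 2) * volume A ^ (1 - 2 / P) * volume S := by
  obtain ⟨C, hC, h⟩ := parS P hP
  refine ⟨C, hC, fun e he M f hM0 hf A hA S hS hFS => ?_⟩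
  refine (block0 e he f hf.meas hf.integrable A hA).trans ?_
  rw [← lintegral_indicator_const hS]
  refine lintegral_mono fun u => ?_
  by_cases hu : u ∈ S
  · rw [indicator_of_mem hu]
    exact h (Fu e he f u) M hM0
      ((Fu_meas e he f hf.meas).comp (measurable_const.prodMk measurable_id))
      (fun s => hf.bd _) (fun s hs => Fu_supp e he f hf u s hs) A hA
  · rw [indicator_of_notMem hu]
    have : Fu e he f u = fun _ => 0 := by
      ext s
      exact hFS u hu s
    rw [this]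
    unfold Ep
    simp

end Pool.Agent.R412.RH
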