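import Mathlib
import Pool.Agent.R412.RT.T2
set_option autoImplicit false

/-! Planar blocks for the paraboloid in `ℝ^3`: the slab pieces and the theorem for sets. -/

namespace Pool.Agent.R412.RH

open MeasureTheory Complex Set Filter Topology
open scoped ENNReal RealInnerProductSpace ComplexConjugate
open Pool.Agent.R412.RT (E ee ee_norm ee_add ee_conj ee_meas ee_cont Phi Nn Ex Ex_meas Ey Ex_eq
  Ey_meas ph ph_eq inner_eq cov inner_repr_symm split_lint Nn_cast Nn_last)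
open Pool.Agent.R412.RS (Vd slabE Nn_cont Phi_cont)

/-- the model singularity -/
noncomputable def Gs (η w : ℝ) : ℝ≥0∞ := (Ioc (0 : ℝ) 1).indicator (fun w => ENNReal.ofReal (w ^ (η - 1))) w

theorem Gs_meas (η : ℝ) : Measurable (Gs η) :=
  Measurable.indicator (by fun_prop) measurableSet_Ioc

theorem Gs_int (η : ℝ) (hη : 0 < η) : ∫⁻ w, Gs η w = ENNReal.ofReal (1 / η) := by
  unfold Gs
  rw [lintegral_indicator measurableSet_Ioc]
  have hex : -1 < η - 1 := by linarith
  have hint : IntervalIntegrable (fun t : ℝ => t ^ (η - 1)) volume 0 1 :=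
    intervalIntegral.intervalIntegrable_rpow' hex
  rw [← ofReal_integral_eq_lintegral_ofReal, ← intervalIntegral.integral_of_le zero_le_one,
    integral_rpow (Or.inl hex)]
  · congr 1
    rw [sub_add_cancel, Real.zero_rpow hη.ne', Real.one_rpow, sub_zero]
  · rw [intervalIntegrable_iff_integrableOn_Ioc_of_le zero_le_one] at hint
    exact hint
  · refine (ae_restrict_mem measurableSet_Ioc).mono fun t ht => ?_
    have : 0 ≤ t := ht.1.le
    positivity

theorem Gs_shift (η : ℝ) (hη : 0 < η) (a σ : ℝ) (hσ : |σ| = 1) :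
    ∫⁻ u, Gs η (σ * (a - 2 * u)) ≤ ENNReal.ofReal (1 / η) := by
  have h1 : ∀ u : ℝ, Gs η (σ * (a - 2 * u)) = (fun w => Gs η (σ * a + w)) ((-2 * σ) * u) := by
    intro u
    simp only
    congr 1
    ring
  simp_rw [h1]
  have hc : 1 ≤ |(-2) * σ| := by
    rw [abs_mul, hσ]
    norm_num
  refine (scale_le (-2 * σ) hc (fun w => Gs η (σ * a + w))
    ((Gs_meas η).comp (measurable_const.add measurable_id))).trans ?_
  rw [lintegral_add_left_eq_self (fun w => Gs η w) (σ * a), Gs_int η hη]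

/-- the kernel of a slab piece -/
theorem ker_le (η lam w : ℝ) (hη : 0 < η) (hη1 : η < 1) (hlam : 0 < lam) (hw : lam < w) :
    1 / ENNReal.ofReal w ≤ ENNReal.ofReal (lam ^ (-η)) * (Gs η w + 1) := by
  have hw0 : 0 < w := hlam.trans hw
  have h1 : 1 / ENNReal.ofReal w = ENNReal.ofReal (w⁻¹) := by
    rw [one_div, ENNReal.ofReal_inv_of_pos hw0]
  have h2 : w⁻¹ ≤ lam ^ (-η) * w ^ (η - 1) := by
    have h3 : w⁻¹ = w ^ (-η) * w ^ (η - 1) := by
      rw [← Real.rpow_add hw0, ← Real.rpow_neg_one]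
      congr 1
      ring
    rw [h3]
    refine mul_le_mul_of_nonneg_right ?_ (by positivity)
    exact Real.rpow_le_rpow_of_nonpos hlam hw.le (by linarith)
  have h4 : ENNReal.ofReal (w ^ (η - 1)) ≤ Gs η w + 1 := by
    unfold Gs
    by_cases h5 : w ≤ 1
    · rw [indicator_of_mem (show w ∈ Ioc (0 : ℝ) 1 from ⟨hw0, h5⟩)]
      exact le_self_add
    · rw [indicator_of_notMem (fun h : w ∈ Ioc (0 : ℝ) 1 => h5 h.2), zero_add,
        ENNReal.ofReal_le_one]
      exact Real.rpow_le_one_of_one_le_of_nonpos (not_le.1 h5).le (by linarith)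
  rw [h1]
  refine (ENNReal.ofReal_le_ofReal h2).trans ?_
  rw [ENNReal.ofReal_mul (by positivity)]
  exact mul_le_mul_right h4 _

variable (e : OrthonormalBasis (Fin 3) ℝ (E 3)) (he : Vert e)

/-- the direction of the linear block -/
noncomputable def vd (a : ℝ) : E 3 := e 1 + a • e 2

include he in
theorem vd_Nn (a : ℝ) (x : E 2) : ⟪vd e a, Nn x⟫ = a - 2 * ⟪hz e 1, x⟫ := by
  unfold vd
  rw [inner_add_left, real_inner_smul_left]
  have h1 : ⟪e 1, Nn x⟫ = -(2 * ⟪hz e 1, x⟫) := by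
    rw [inner_eq, inner_eq, Fin.sum_univ_castSucc (n := 2)]
    have : e 1 (Fin.last 2) = 0 := last_zero e he 1
    rw [this, zero_mul, add_zero, Finset.mul_sum, ← Finset.sum_neg_distrib]
    refine Finset.sum_congr rfl fun k _ => ?_
    rw [Nn_cast]
    show e 1 k.castSucc * _ = -(2 * (e 1 k.castSucc * x k))
    ring
  have h2 : ⟪e 2, Nn x⟫ = 1 := by
    rw [he, inner_eq, Finset.sum_eq_single (2 : Fin 3)]
    · have : Nn x (2 : Fin 3) = 1 := Nn_last x
      rw [this]
      simp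
    · intro b _ hb
      simp [hb]
    · intro h
      exact absurd (Finset.mem_univ _) h
  rw [h1, h2]
  ring

theorem vd_ne (a : ℝ) : vd e a ≠ 0 := by
  intro h
  have h1 : ⟪e 1, vd e a⟫ = 1 := by
    unfold vd
    rw [inner_add_right, real_inner_smul_right]
    have h2 := orthonormal_iff_ite.1 e.orthonormal 1 1
    have h3 := orthonormal_iff_ite.1 e.orthonormal 1 2
    rw [h2, h3]
    simp
  rw [h, inner_zero_right] at h1
  norm_num at h1

/-- the piece of `f` where the normal component exceeds `lam`, with sign `σ` -/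
noncomputable def gs (f : E 2 → ℂ) (a lam σ : ℝ) (x : E 2) : ℂ :=
  {x | lam < σ * (a - 2 * ⟪hz e 1, x⟫)}.indicator f x

/-- the piece of `f` where the normal component is small -/
noncomputable def g0 (f : E 2 → ℂ) (a lam : ℝ) (x : E 2) : ℂ :=
  {x | |a - 2 * ⟪hz e 1, x⟫| ≤ lam}.indicator f x

theorem gs_set (a lam σ : ℝ) : MeasurableSet {x : E 2 | lam < σ * (a - 2 * ⟪hz e 1, x⟫)} :=
  measurableSet_lt measurable_const (by fun_prop)

theorem g0_set (a lam : ℝ) : MeasurableSet {x : E 2 | |a - 2 * ⟪hz e 1, x⟫| ≤ lam} :=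
  measurableSet_le (by fun_prop) measurable_const

theorem gs_nice {M : ℝ} {f : E 2 → ℂ} (h : Nice M f) (a lam σ : ℝ) :
    Nice M (gs e f a lam σ) where
  meas := h.meas.indicator (gs_set e a lam σ)
  bd x := (norm_indicator_le_norm_self _ _).trans (h.bd x)
  supp x hx := by
    unfold gs
    by_cases h1 : x ∈ {x | lam < σ * (a - 2 * ⟪hz e 1, x⟫)}
    · rw [indicator_of_mem h1]; exact h.supp x hx
    · rw [indicator_of_notMem h1]

theorem g0_nice {M : ℝ} {f : E 2 → ℂ} (h : Nice M f) (a lam : ℝ) :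
    Nice M (g0 e f a lam) where
  meas := h.meas.indicator (g0_set e a lam)
  bd x := (norm_indicator_le_norm_self _ _).trans (h.bd x)
  supp x hx := by
    unfold g0
    by_cases h1 : x ∈ {x | |a - 2 * ⟪hz e 1, x⟫| ≤ lam}
    · rw [indicator_of_mem h1]; exact h.supp x hx
    · rw [indicator_of_notMem h1]

theorem g_sum (f : E 2 → ℂ) (a lam : ℝ) (hlam : 0 < lam) (x : E 2) :
    f x = g0 e f a lam x + gs e f a lam 1 x + gs e f a lam (-1) x := by
  unfold g0 gs
  set J := a - 2 * ⟪hz e 1, x⟫ with hJ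
  rcases le_or_gt |J| lam with h | h
  · have h1 : x ∈ {x | |a - 2 * ⟪hz e 1, x⟫| ≤ lam} := h
    have h2 : x ∉ {x | lam < 1 * (a - 2 * ⟪hz e 1, x⟫)} := fun h3 => by
      have h4 : lam < 1 * J := h3
      rw [one_mul] at h4
      linarith [le_abs_self J]
    have h3 : x ∉ {x | lam < -1 * (a - 2 * ⟪hz e 1, x⟫)} := fun h3 => by
      have h4 : lam < -1 * J := h3
      linarith [neg_le_abs J]
    rw [indicator_of_mem h1, indicator_of_notMem h2, indicator_of_notMem h3]
    ring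
  · have h1 : x ∉ {x | |a - 2 * ⟪hz e 1, x⟫| ≤ lam} := fun h3 => by
      have h4 : |J| ≤ lam := h3
      linarith
    rcases le_or_gt 0 J with h0 | h0
    · rw [abs_of_nonneg h0] at h
      have h2 : x ∈ {x | lam < 1 * (a - 2 * ⟪hz e 1, x⟫)} := by
        show lam < 1 * J
        linarith
      have h3 : x ∉ {x | lam < -1 * (a - 2 * ⟪hz e 1, x⟫)} := fun h3 => by
        have h4 : lam < -1 * J := h3
        linarith
      rw [indicator_of_notMem h1, indicator_of_mem h2, indicator_of_notMem h3]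
      ring
    · rw [abs_of_neg h0] at h
      have h2 : x ∉ {x | lam < 1 * (a - 2 * ⟪hz e 1, x⟫)} := fun h3 => by
        have h4 : lam < 1 * J := h3
        linarith
      have h3 : x ∈ {x | lam < -1 * (a - 2 * ⟪hz e 1, x⟫)} := by
        show lam < -1 * J
        linarith
      rw [indicator_of_notMem h1, indicator_of_notMem h2, indicator_of_mem h3]
      ring

include he in
/-- the slab pieces -/
theorem slab_piece (η : ℝ) (hη : 0 < η) (hη1 : η < 1) {M : ℝ} {f : E 2 → ℂ}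
    (h : Nice M f) (a lam σ : ℝ) (hlam : 0 < lam) (hσ : |σ| = 1) (A : Set ℝ)
    (hA : MeasurableSet A) :
    ∫⁻ ξ : E 3, A.indicator 1 ⟪vd e a, ξ⟫ * ‖Ex (gs e f a lam σ) ξ‖ₑ ^ 2 ≤
      volume A * ENNReal.ofReal (M ^ 2 * lam ^ (-η) * (2 * (1 / η + 2))) := by
  have hn := gs_nice e h a lam σ
  have h1 := slabE (vd e a) (vd_ne e a) σ (A.indicator 1) (measurable_one.indicator hA)
    (gs e f a lam σ) hn.integrable (fun x hx => by
      unfold gs
      rw [indicator_of_notMem]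
      intro h2
      refine hx ?_
      show 0 < σ * ⟪vd e a, Nn x⟫
      rw [vd_Nn e he]
      exact hlam.trans h2)
  rw [lintegral_indicator_one hA] at h1
  refine h1.trans ?_
  refine mul_le_mul_right ?_ _
  -- the integral over the support
  have hS : MeasurableSet (Ioo (-1 : ℝ) 1) := measurableSet_Ioo
  have h2 : ∀ x : E 2, ‖gs e f a lam σ x‖ₑ ^ 2 / ENNReal.ofReal |⟪vd e a, Nn x⟫| ≤
      ENNReal.ofReal (M ^ 2 * lam ^ (-η)) * ((Ioo (-1 : ℝ) 1).indicator 1 ⟪hz e 0, x⟫ *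
        ((Ioo (-1 : ℝ) 1).indicator (fun u => Gs η (σ * (a - 2 * u)) + 1) ⟪hz e 1, x⟫)) := by
    intro x
    by_cases hx : gs e f a lam σ x = 0
    · rw [hx]
      simp
    · have hmem : lam < σ * (a - 2 * ⟪hz e 1, x⟫) := by
        by_contra h3
        refine hx ?_
        unfold gs
        rw [indicator_of_notMem]
        exact fun h4 => h3 h4
      set z := (pxe e he).symm x with hz'
      have hxz : x = px e he z := by
        rw [← pxe_eq, hz', MeasurableEquiv.apply_symm_apply]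
      have h5 : ‖x‖ < 1 := by
        by_contra h6
        exact hx (hn.supp x (not_lt.1 h6))
      have h6 : z.1 ^ 2 + z.2 ^ 2 < 1 := by
        rw [← px_norm e he z, ← hxz]
        exact (sq_lt_one_iff₀ (norm_nonneg _)).2 h5
      have h7 : ⟪hz e 0, x⟫ ∈ Ioo (-1 : ℝ) 1 := by
        rw [hxz, (px_inner e he z).1, mem_Ioo, ← abs_lt, ← sq_lt_one_iff_abs_lt_one]
        nlinarith [sq_nonneg z.2]
      have h8 : ⟪hz e 1, x⟫ ∈ Ioo (-1 : ℝ) 1 := by
        rw [hxz, (px_inner e he z).2, mem_Ioo, ← abs_lt, ← sq_lt_one_iff_abs_lt_one]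
        nlinarith [sq_nonneg z.1]
      rw [indicator_of_mem h7, indicator_of_mem h8, Pi.one_apply, one_mul]
      have h9 : |⟪vd e a, Nn x⟫| = σ * (a - 2 * ⟪hz e 1, x⟫) := by
        rw [vd_Nn e he, ← abs_of_pos (hlam.trans hmem), abs_mul, hσ, one_mul]
      rw [h9]
      have h10 : ‖gs e f a lam σ x‖ₑ ^ 2 ≤ ENNReal.ofReal (M ^ 2) := by
        rw [← ofReal_norm, ← ENNReal.ofReal_pow (norm_nonneg _)]
        exact ENNReal.ofReal_le_ofReal (pow_le_pow_left₀ (norm_nonneg _) (hn.bd x) 2)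
      calc ‖gs e f a lam σ x‖ₑ ^ 2 / ENNReal.ofReal (σ * (a - 2 * ⟪hz e 1, x⟫))
          = ‖gs e f a lam σ x‖ₑ ^ 2 * (1 / ENNReal.ofReal (σ * (a - 2 * ⟪hz e 1, x⟫))) := by
            rw [div_eq_mul_inv, one_div]
        _ ≤ ENNReal.ofReal (M ^ 2) * (ENNReal.ofReal (lam ^ (-η)) *
            (Gs η (σ * (a - 2 * ⟪hz e 1, x⟫)) + 1)) :=
            mul_le_mul' h10 (ker_le η lam _ hη hη1 hlam hmem)
        _ = _ := by
            rw [ENNReal.ofReal_mul (by positivity), mul_assoc]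
  refine (lintegral_mono h2).trans ?_
  rw [lintegral_const_mul' _ _ ENNReal.ofReal_ne_top, ENNReal.ofReal_mul (by positivity)
    (p := M ^ 2 * lam ^ (-η))]
  refine mul_le_mul_right ?_ _
  have hGm : Measurable fun u : ℝ => (Ioo (-1 : ℝ) 1).indicator
      (fun u => Gs η (σ * (a - 2 * u)) + 1) u := by
    refine Measurable.indicator ?_ hS
    exact ((Gs_meas η).comp (by fun_prop)).add measurable_const
  rw [← (px_mp e he).lintegral_comp_emb (by rw [← pxe_eq]; exact (pxe e he).measurableEmbedding)]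
  simp_rw [(px_inner e he _).1, (px_inner e he _).2]
  rw [Measure.volume_eq_prod, lintegral_prod_mul (f := (Ioo (-1 : ℝ) 1).indicator 1)
    (g := (Ioo (-1 : ℝ) 1).indicator (fun u => Gs η (σ * (a - 2 * u)) + 1))
    (measurable_one.indicator hS).aemeasurable hGm.aemeasurable, lintegral_indicator_one hS,
    lintegral_indicator hS, Real.volume_Ioo]
  have h11 : ∫⁻ u in Ioo (-1 : ℝ) 1, (Gs η (σ * (a - 2 * u)) + 1) ≤
      ENNReal.ofReal (1 / η + 2) := by
    rw [lintegral_add_right _ measurable_const, setLIntegral_const, one_mul, Real.volume_Ioo,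
      ENNReal.ofReal_add (by positivity) (by norm_num)]
    refine add_le_add ((setLIntegral_le_lintegral _ _).trans (Gs_shift η hη a σ hσ)) ?_
    refine ENNReal.ofReal_le_ofReal (by norm_num)
  rw [ENNReal.ofReal_mul (by norm_num) (p := 2)]
  refine mul_le_mul' (ENNReal.ofReal_le_ofReal (by norm_num)) h11

/-- the product set -/
def BS (a : ℝ) (A : Set (ℝ × ℝ)) (A1 : Set ℝ) : Set (E 3) :=
  {ξ | (⟪e 0, ξ⟫, ⟪e 2, ξ⟫) ∈ A ∧ ⟪e 1, ξ⟫ + a * ⟪e 2, ξ⟫ ∈ A1}

theorem BS_meas (a : ℝ) (A : Set (ℝ × ℝ)) (A1 : Set ℝ) (hA : MeasurableSet A)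
    (hA1 : MeasurableSet A1) : MeasurableSet (BS e a A A1) := by
  have h1 : Measurable fun ξ : E 3 => (⟪e 0, ξ⟫, ⟪e 2, ξ⟫) := by fun_prop
  have h2 : Measurable fun ξ : E 3 => ⟪e 1, ξ⟫ + a * ⟪e 2, ξ⟫ := by fun_prop
  exact (h1 hA).inter (h2 hA1)

theorem vd_inner (a : ℝ) (ξ : E 3) : ⟪vd e a, ξ⟫ = ⟪e 1, ξ⟫ + a * ⟪e 2, ξ⟫ := by
  unfold vd
  rw [inner_add_left, real_inner_smul_left]

theorem sq3 (a b c : ℝ≥0∞) : (a + b + c) ^ 2 ≤ 3 * (a ^ 2 + b ^ 2 + c ^ 2) := by
  have h2 := ENNReal.rpow_sum_le_const_mul_sum_rpow (Finset.univ : Finset (Fin 3))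
    (![a, b, c]) (p := 2) (by norm_num)
  simp only [Fin.sum_univ_three, Finset.card_univ, Fintype.card_fin] at h2
  norm_num at h2
  simpa using h2

/-- the set integral of the pieces by the slab estimate -/
theorem set_slab (g : E 2 → ℂ) (a : ℝ) (A : Set (ℝ × ℝ)) (A1 : Set ℝ)
    (hA : MeasurableSet A) (hA1 : MeasurableSet A1) :
    ∫⁻ ξ in BS e a A A1, ‖Ex g ξ‖ₑ ^ 2 ≤
      ∫⁻ ξ : E 3, A1.indicator 1 ⟪vd e a, ξ⟫ * ‖Ex g ξ‖ₑ ^ 2 := by
  rw [← lintegral_indicator (BS_meas e a A A1 hA hA1)]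
  refine lintegral_mono fun ξ => ?_
  by_cases h : ξ ∈ BS e a A A1
  · rw [indicator_of_mem h, indicator_of_mem]
    · simp
    · rw [vd_inner]; exact h.2
  · rw [indicator_of_notMem h]
    exact zero_le

/-- the set integral of the pieces by the block estimate -/
theorem set_block (g : E 2 → ℂ) (hg : Integrable g) (a : ℝ) (A : Set (ℝ × ℝ)) (A1 : Set ℝ)
    (hA : MeasurableSet A) (hA1 : MeasurableSet A1) :
    ∫⁻ ξ in BS e a A A1, ‖Ex g ξ‖ₑ ^ 2 ≤
      ∫⁻ y : Fin 3 → ℝ, A.indicator 1 (y 0, y 2) * ‖Ey e g y‖ₑ ^ 2 := by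
  have hm : Measurable fun ξ : E 3 => A.indicator (1 : ℝ × ℝ → ℝ≥0∞) (⟪e 0, ξ⟫, ⟪e 2, ξ⟫) *
      ‖Ex g ξ‖ₑ ^ 2 :=
    ((measurable_one.indicator hA).comp (by fun_prop)).mul ((Ex_meas g hg.1).enorm.pow_const 2)
  have h1 : ∫⁻ y : Fin 3 → ℝ, A.indicator 1 (y 0, y 2) * ‖Ey e g y‖ₑ ^ 2 =
      ∫⁻ ξ : E 3, A.indicator (1 : ℝ × ℝ → ℝ≥0∞) (⟪e 0, ξ⟫, ⟪e 2, ξ⟫) * ‖Ex g ξ‖ₑ ^ 2 := by
    rw [cov e _ hm]
    refine lintegral_congr fun y => ?_
    rw [Ex_eq]
    simp only [inner_repr_symm]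
  rw [h1, ← lintegral_indicator (BS_meas e a A A1 hA hA1)]
  refine lintegral_mono fun ξ => ?_
  by_cases h : ξ ∈ BS e a A A1
  · rw [indicator_of_mem h, indicator_of_mem h.1]
    simp
  · rw [indicator_of_notMem h]
    exact zero_le

theorem Ex_add3 (f g h k : E 2 → ℂ) (hg : Integrable g) (hh : Integrable h) (hk : Integrable k)
    (hf : ∀ x, f x = g x + h x + k x) (ξ : E 3) : Ex f ξ = Ex g ξ + Ex h ξ + Ex k ξ := by
  have hb : ∀ g : E 2 → ℂ, Integrable g → Integrable fun x => ee ⟪Phi x, ξ⟫ * g x := by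
    intro g hg
    refine hg.bdd_mul (c := 1) ?_ (Eventually.of_forall fun x => (ee_norm _).le)
    exact (ee_meas.comp (Phi_cont.inner continuous_const).measurable).aestronglyMeasurable
  have e1 : ∫ x, (ee ⟪Phi x, ξ⟫ * g x + ee ⟪Phi x, ξ⟫ * h x) =
      (∫ x, ee ⟪Phi x, ξ⟫ * g x) + ∫ x, ee ⟪Phi x, ξ⟫ * h x := integral_add (hb g hg) (hb h hh)
  have e2 : ∫ x, ((ee ⟪Phi x, ξ⟫ * g x + ee ⟪Phi x, ξ⟫ * h x) + ee ⟪Phi x, ξ⟫ * k x) =
      (∫ x, (ee ⟪Phi x, ξ⟫ * g x + ee ⟪Phi x, ξ⟫ * h x)) + ∫ x, ee ⟪Phi x, ξ⟫ * k x :=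
    integral_add ((hb g hg).add (hb h hh)) (hb k hk)
  unfold Ex
  rw [← e1, ← e2]
  congr 1
  ext x
  rw [hf x]
  ring

theorem zero_fun {M : ℝ} {f : E 2 → ℂ} (h : Nice M f) (hM : M ≤ 0) (ξ : E 3) : Ex f ξ = 0 := by
  have : f = fun _ => 0 := by
    ext x
    have := h.bd x
    exact norm_le_zero_iff.1 (this.trans hM)
  rw [this]
  unfold Ex
  simp

theorem null_dir (a : ℝ) (A1 : Set ℝ) (hA1 : MeasurableSet A1) (h0 : volume A1 = 0) :
    ∀ᵐ ξ : E 3, A1.indicator (1 : ℝ → ℝ≥0∞) ⟪vd e a, ξ⟫ = 0 := by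
  have hm : Measurable fun ξ : E 3 => A1.indicator (1 : ℝ → ℝ≥0∞) ⟪vd e a, ξ⟫ :=
    (measurable_one.indicator hA1).comp (by fun_prop)
  have h1 : ∫⁻ ξ : E 3, A1.indicator (1 : ℝ → ℝ≥0∞) ⟪vd e a, ξ⟫ = 0 := by
    rw [cov e _ hm]
    simp only [vd_inner, inner_repr_symm]
    have hm2 : Measurable fun y : Fin 3 → ℝ => A1.indicator (1 : ℝ → ℝ≥0∞) (y 1 + a * y 2) :=
      (measurable_one.indicator hA1).comp (by fun_prop)
    rw [split_lint 1 _ hm2]
    have hi0 : ∀ (β : ℝ) (t : Fin 2 → ℝ),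
        ((1 : Fin 3).insertNth β t : Fin 3 → ℝ) 1 + a * ((1 : Fin 3).insertNth β t : Fin 3 → ℝ) 2 =
        β + a * t 1 := by
      intro β t
      rw [Fin.insertNth_apply_same (α := fun _ => ℝ) (1 : Fin 3) β t]
      congr 2
    simp_rw [hi0]
    have hm3 : Measurable (Function.uncurry fun (β : ℝ) (t : Fin 2 → ℝ) =>
        A1.indicator (1 : ℝ → ℝ≥0∞) (β + a * t 1)) :=
      (measurable_one.indicator hA1).comp
        (by fun_prop : Measurable fun q : ℝ × (Fin 2 → ℝ) => q.1 + a * q.2 1)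
    rw [lintegral_lintegral_swap hm3.aemeasurable]
    refine lintegral_eq_zero_of_ae_eq_zero (Eventually.of_forall fun t => ?_)
    simp only [Pi.zero_apply]
    rw [lintegral_add_right_eq_self (fun β => A1.indicator (1 : ℝ → ℝ≥0∞) β) (a * t 1),
      lintegral_indicator_one hA1, h0]
  rw [lintegral_eq_zero_iff hm] at h1
  exact h1

/-- **products of a planar set and a linear set** -/
theorem planar_sets (q : ℝ) (hq3 : 3 < q) (hq4 : q < 4) : ∃ C : ℝ, 0 < C ∧
    ∀ (e : OrthonormalBasis (Fin 3) ℝ (E 3)), Vert e → ∀ (M : ℝ) (f : E 2 → ℂ), 0 ≤ M →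
    Nice M f → ∀ (a : ℝ) (A : Set (ℝ × ℝ)) (A1 : Set ℝ), MeasurableSet A → MeasurableSet A1 →
    ∫⁻ ξ in BS e a A A1, ‖Ex f ξ‖ₑ ^ 2 ≤
      ENNReal.ofReal (C * M ^ 2) * (volume A * volume A1) ^ (1 - 2 / q) := by
  set P : ℝ := 4 / (4 - q) with hPdef
  have h4q : 0 < 4 - q := by linarith
  have hP : 4 < P := by
    rw [hPdef, lt_div_iff₀ h4q]
    nlinarith
  have hq0 : 0 < q := by linarith
  obtain ⟨C1, hC1, hblock⟩ := block P hP
  set η : ℝ := 2 / q with hη
  have hη0 : 0 < η := by positivity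
  have hη1 : η < 1 := by rw [hη, div_lt_one hq0]; linarith
  set C2 : ℝ := 2 * (1 / η + 2) with hC2
  have hC20 : 0 < C2 := by positivity
  refine ⟨3 * (2 * C1 + 2 * C2), by positivity, ?_⟩
  intro e he M f hM hf a A A1 hA hA1
  have hex : 0 < 1 - 2 / q := by rw [← hη]; linarith
  rcases eq_or_lt_of_le hM with hM0 | hM0
  · simp [zero_fun hf hM0.ge]
  by_cases hAz : volume A = 0
  · have h1 := (set_block e f hf.integrable a A A1 hA hA1).trans
      (hblock e he M f hM hf A hA univ MeasurableSet.univ (fun u hu => absurd (mem_univ u) hu))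
    have hPex : 0 < 1 - 2 / P := by
      have : 2 / P < 1 := by rw [div_lt_one (by linarith)]; linarith
      linarith
    rw [hAz, ENNReal.zero_rpow_of_pos hPex, mul_zero, zero_mul] at h1
    exact h1.trans zero_le
  by_cases hA1z : volume A1 = 0
  · have h1 := set_slab e f a A A1 hA hA1
    have h2 : ∫⁻ ξ : E 3, A1.indicator 1 ⟪vd e a, ξ⟫ * ‖Ex f ξ‖ₑ ^ 2 = 0 := by
      refine lintegral_eq_zero_of_ae_eq_zero ?_
      filter_upwards [null_dir e a A1 hA1 hA1z] with ξ hξ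
      simp [hξ]
    rw [h2] at h1
    exact h1.trans zero_le
  by_cases hAt : volume A = ∞
  · rw [hAt, ENNReal.top_mul hA1z, ENNReal.top_rpow_of_pos hex, ENNReal.mul_top]
    · exact le_top
    · have : 0 < 3 * (2 * C1 + 2 * C2) * M ^ 2 := by positivity
      simpa using this
  by_cases hA1t : volume A1 = ∞
  · rw [hA1t, ENNReal.mul_top hAz, ENNReal.top_rpow_of_pos hex, ENNReal.mul_top]
    · exact le_top
    · have : 0 < 3 * (2 * C1 + 2 * C2) * M ^ 2 := by positivity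
      simpa using this
  -- real quantities
  obtain ⟨D, hD0, hD⟩ : ∃ D : ℝ, 0 < D ∧ volume A = ENNReal.ofReal D :=
    ⟨(volume A).toReal, ENNReal.toReal_pos hAz hAt, (ENNReal.ofReal_toReal hAt).symm⟩
  obtain ⟨L, hL0, hL⟩ : ∃ L : ℝ, 0 < L ∧ volume A1 = ENNReal.ofReal L :=
    ⟨(volume A1).toReal, ENNReal.toReal_pos hA1z hA1t, (ENNReal.ofReal_toReal hA1t).symm⟩
  set X : ℝ := D ^ (1 - 2 / P) with hX
  have hX0 : 0 < X := by positivity
  have hXη : X ^ η = D ^ (1 - 2 / q) := by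
    rw [hX, ← Real.rpow_mul hD0.le]
    congr 1
    rw [hη, hPdef]
    field_simp
    ring
  have hgoal : ENNReal.ofReal (3 * (2 * C1 + 2 * C2) * M ^ 2) *
      (volume A * volume A1) ^ (1 - 2 / q) =
      ENNReal.ofReal (3 * (2 * C1 + 2 * C2) * M ^ 2 * (X ^ η * L ^ (1 - η))) := by
    rw [hD, hL, ← ENNReal.ofReal_mul hD0.le, ENNReal.ofReal_rpow_of_pos (by positivity),
      ← ENNReal.ofReal_mul (by positivity), Real.mul_rpow hD0.le hL0.le, hXη]
  rw [hgoal]
  rcases le_or_gt X L with hXL | hXL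
  · -- everything by the block estimate
    have h1 := (set_block e f hf.integrable a A A1 hA hA1).trans
      (hblock e he M f hM hf A hA (Ioo (-1) 1) measurableSet_Ioo
        (fun u hu s => Fu_supp' e he f hf u s hu))
    refine h1.trans ?_
    rw [hD, ENNReal.ofReal_rpow_of_pos hD0, Real.volume_Ioo, ← ENNReal.ofReal_mul (by positivity),
      ← ENNReal.ofReal_mul (by positivity)]
    refine ENNReal.ofReal_le_ofReal ?_
    rw [← hX]
    have h2 : X ≤ X ^ η * L ^ (1 - η) := by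
      calc X = X ^ η * X ^ (1 - η) := by
            rw [← Real.rpow_add hX0]
            have : η + (1 - η) = 1 := by ring
            rw [this, Real.rpow_one]
        _ ≤ X ^ η * L ^ (1 - η) := by
            refine mul_le_mul_of_nonneg_left ?_ (by positivity)
            exact Real.rpow_le_rpow hX0.le hXL (by linarith)
    have h3 : 0 ≤ C1 * M ^ 2 := by positivity
    calc C1 * M ^ 2 * X * (1 - -1) ≤ C1 * M ^ 2 * (X ^ η * L ^ (1 - η)) * 2 := by
          have := mul_le_mul_of_nonneg_left h2 h3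
          linarith
      _ ≤ 3 * (2 * C1 + 2 * C2) * M ^ 2 * (X ^ η * L ^ (1 - η)) := by
          have h4 : 0 ≤ M ^ 2 * (X ^ η * L ^ (1 - η)) := by positivity
          nlinarith
  · -- three pieces
    set lam : ℝ := L / X with hlam
    have hlam0 : 0 < lam := by positivity
    have hn0 := g0_nice e hf a lam
    have hnp := gs_nice e hf a lam 1
    have hnm := gs_nice e hf a lam (-1)
    have hsum : ∀ ξ, ‖Ex f ξ‖ₑ ^ 2 ≤ 3 * (‖Ex (g0 e f a lam) ξ‖ₑ ^ 2 +
        ‖Ex (gs e f a lam 1) ξ‖ₑ ^ 2 + ‖Ex (gs e f a lam (-1)) ξ‖ₑ ^ 2) := by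
      intro ξ
      rw [Ex_add3 f _ _ _ hn0.integrable hnp.integrable hnm.integrable (g_sum e f a lam hlam0) ξ]
      refine (pow_le_pow_left' ((enorm_add_le _ _).trans (add_le_add_left (enorm_add_le _ _) _))
        2).trans (sq3 _ _ _)
    have hm : ∀ g : E 2 → ℂ, Integrable g → Measurable fun ξ => ‖Ex g ξ‖ₑ ^ 2 := fun g hg =>
      (Ex_meas g hg.1).enorm.pow_const 2
    have hI : ∫⁻ ξ in BS e a A A1, ‖Ex (g0 e f a lam) ξ‖ₑ ^ 2 ≤
        ENNReal.ofReal (C1 * M ^ 2 * L) := by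
      have hS : MeasurableSet {u : ℝ | |a - 2 * u| ≤ lam} :=
        measurableSet_le (by fun_prop) measurable_const
      refine ((set_block e _ hn0.integrable a A A1 hA hA1).trans
        (hblock e he M _ hM hn0 A hA {u : ℝ | |a - 2 * u| ≤ lam} hS (fun u hu s => ?_))).trans ?_
      · unfold Fu g0
        rw [indicator_of_notMem]
        intro h1
        have h2 : |a - 2 * ⟪hz e 1, px e he (s, u)⟫| ≤ lam := h1
        rw [(px_inner e he (s, u)).2] at h2
        exact hu h2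
      · have hvS : volume {u : ℝ | |a - 2 * u| ≤ lam} = ENNReal.ofReal lam := by
          have : {u : ℝ | |a - 2 * u| ≤ lam} = Icc ((a - lam) / 2) ((a + lam) / 2) := by
            ext u
            simp only [mem_ofPred_eq, mem_Icc, abs_le]
            constructor
            · rintro ⟨h1, h2⟩; constructor <;> linarith
            · rintro ⟨h1, h2⟩; constructor <;> linarith
          rw [this, Real.volume_Icc]
          congr 1
          ring
        rw [hD, ENNReal.ofReal_rpow_of_pos hD0, hvS, ← ENNReal.ofReal_mul (by positivity),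
          ← ENNReal.ofReal_mul (by positivity), ← hX]
        refine ENNReal.ofReal_le_ofReal (le_of_eq ?_)
        rw [hlam]
        field_simp
    have hII : ∀ σ : ℝ, |σ| = 1 → ∫⁻ ξ in BS e a A A1, ‖Ex (gs e f a lam σ) ξ‖ₑ ^ 2 ≤
        ENNReal.ofReal (L * (M ^ 2 * lam ^ (-η) * C2)) := by
      intro σ hσ
      refine ((set_slab e _ a A A1 hA hA1).trans
        (slab_piece e he η hη0 hη1 hf a lam σ hlam0 hσ A1 hA1)).trans (le_of_eq ?_)
      rw [hL, ← ENNReal.ofReal_mul hL0.le]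
    calc ∫⁻ ξ in BS e a A A1, ‖Ex f ξ‖ₑ ^ 2
        ≤ ∫⁻ ξ in BS e a A A1, 3 * (‖Ex (g0 e f a lam) ξ‖ₑ ^ 2 +
          ‖Ex (gs e f a lam 1) ξ‖ₑ ^ 2 + ‖Ex (gs e f a lam (-1)) ξ‖ₑ ^ 2) :=
          lintegral_mono hsum
      _ = 3 * ((∫⁻ ξ in BS e a A A1, ‖Ex (g0 e f a lam) ξ‖ₑ ^ 2) +
          (∫⁻ ξ in BS e a A A1, ‖Ex (gs e f a lam 1) ξ‖ₑ ^ 2) +
          ∫⁻ ξ in BS e a A A1, ‖Ex (gs e f a lam (-1)) ξ‖ₑ ^ 2) := by
          have m0 := hm _ hn0.integrable
          have m1 := hm _ hnp.integrable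
          have m2 := hm _ hnm.integrable
          have m01 : Measurable fun ξ => ‖Ex (g0 e f a lam) ξ‖ₑ ^ 2 +
              ‖Ex (gs e f a lam 1) ξ‖ₑ ^ 2 := m0.add m1
          have m012 : Measurable fun ξ => ‖Ex (g0 e f a lam) ξ‖ₑ ^ 2 +
              ‖Ex (gs e f a lam 1) ξ‖ₑ ^ 2 + ‖Ex (gs e f a lam (-1)) ξ‖ₑ ^ 2 := m01.add m2
          rw [lintegral_const_mul _ m012, lintegral_add_left m01, lintegral_add_left m0]
      _ ≤ 3 * (ENNReal.ofReal (C1 * M ^ 2 * L) + ENNReal.ofReal (L * (M ^ 2 * lam ^ (-η) * C2)) +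
          ENNReal.ofReal (L * (M ^ 2 * lam ^ (-η) * C2))) := by
          refine mul_le_mul_right (add_le_add (add_le_add hI (hII 1 (by norm_num)))
            (hII (-1) (by norm_num))) _
      _ = ENNReal.ofReal (3 * (C1 * M ^ 2 * L + L * (M ^ 2 * lam ^ (-η) * C2) +
          L * (M ^ 2 * lam ^ (-η) * C2))) := by
          rw [← ENNReal.ofReal_add (by positivity) (by positivity),
            ← ENNReal.ofReal_add (by positivity) (by positivity), ENNReal.ofReal_mul (by norm_num),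
            ENNReal.ofReal_ofNat]
      _ ≤ _ := by
          refine ENNReal.ofReal_le_ofReal ?_
          have h5 : L * lam ^ (-η) = X ^ η * L ^ (1 - η) := by
            rw [hlam, Real.div_rpow hL0.le hX0.le, Real.rpow_neg hL0.le, Real.rpow_neg hX0.le,
              Real.rpow_sub hL0, Real.rpow_one]
            field_simp
          have h6 : L ≤ X ^ η * L ^ (1 - η) := by
            calc L = L ^ η * L ^ (1 - η) := by
                  rw [← Real.rpow_add hL0]
                  have : η + (1 - η) = 1 := by ring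
                  rw [this, Real.rpow_one]
              _ ≤ X ^ η * L ^ (1 - η) := by
                  refine mul_le_mul_of_nonneg_right ?_ (by positivity)
                  exact Real.rpow_le_rpow hL0.le hXL.le hη0.le
          have h7 : 3 * (C1 * M ^ 2 * L + L * (M ^ 2 * lam ^ (-η) * C2) +
              L * (M ^ 2 * lam ^ (-η) * C2)) =
              3 * M ^ 2 * (C1 * L + 2 * C2 * (L * lam ^ (-η))) := by ring
          rw [h7, h5]
          have h8 : 0 ≤ X ^ η * L ^ (1 - η) := by positivity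
          have h9 : C1 * L ≤ C1 * (X ^ η * L ^ (1 - η)) := mul_le_mul_of_nonneg_left h6 hC1.le
          have h10 : 0 ≤ M ^ 2 := by positivity
          have h11 : C1 * L + 2 * C2 * (X ^ η * L ^ (1 - η)) ≤
              (2 * C1 + 2 * C2) * (X ^ η * L ^ (1 - η)) := by nlinarith
          calc 3 * M ^ 2 * (C1 * L + 2 * C2 * (X ^ η * L ^ (1 - η)))
              ≤ 3 * M ^ 2 * ((2 * C1 + 2 * C2) * (X ^ η * L ^ (1 - η))) :=
                mul_le_mul_of_nonneg_left h11 (by positivity)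
            _ = _ := by ring

end Pool.Agent.R412.RH
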