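import Mathlib
import Pool.Agent.R412.RT.T3
set_option autoImplicit false

/-! Planar blocks for the paraboloid in `ℝ^3`: product weights. -/

namespace Pool.Agent.R412.RH

open MeasureTheory Complex Set Filter Topology
open scoped ENNReal RealInnerProductSpace ComplexConjugate
open Pool.Agent.R412.RT (E ee ee_norm ee_add ee_conj ee_meas ee_cont Phi Nn Ex Ex_meas Ey Ex_eq
  Ey_meas ph ph_eq ph_cont inner_eq cov inner_repr_symm split_lint nu nu_prob nu_ae jens mj mj_meas
  mj_ge av av_meas av_sup av_norm Cr layer)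
open Pool.Agent.R412.RS (Phi_norm)

section gen

variable {α : Type*} [MeasurableSpace α] (μ : Measure α)

/-- the Lorentz norm on a measure space -/
noncomputable def LoG (d : ℝ) (u : α → ℝ≥0∞) : ℝ≥0∞ :=
  ∫⁻ t in Ioi (0 : ℝ), μ {a | ENNReal.ofReal t < u a} ^ (1 / d)

theorem loG_le (d r : ℝ) (hr : 1 ≤ r) (hrd : r < d) (S : ℝ) (hS : 0 < S) (u : α → ℝ≥0∞)
    (hu : Measurable u) (N : ℝ≥0∞) (hN : ∫⁻ a, u a ^ r ∂μ ≤ N ^ r)
    (hSN : ∀ t, u t ≤ ENNReal.ofReal S * N) :
    LoG μ d u ≤ ENNReal.ofReal (Cr d r S) * N := by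
  have hd : 0 < d := by linarith
  have hr0 : 0 < r := by linarith
  have hrd' : r / d < 1 := (div_lt_one hd).2 hrd
  have hC : 0 < Cr d r S := by
    unfold Cr
    have : 0 < 1 - r / d := by linarith
    positivity
  by_cases hNt : N = ∞
  · rw [hNt, ENNReal.mul_top (by simpa using hC)]
    exact le_top
  obtain ⟨ν, hν0, rfl⟩ : ∃ ν : ℝ, 0 ≤ ν ∧ N = ENNReal.ofReal ν := ⟨N.toReal,
    ENNReal.toReal_nonneg, (ENNReal.ofReal_toReal hNt).symm⟩
  have hSN' : ∀ t, u t ≤ ENNReal.ofReal (S * ν) := by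
    intro t
    rw [ENNReal.ofReal_mul hS.le]
    exact hSN t
  unfold LoG
  have h1 : ∀ t ∈ Ioi (0 : ℝ), μ {a | ENNReal.ofReal t < u a} ^ (1 / d) ≤
      (Ioo 0 (S * ν)).indicator (fun t => ENNReal.ofReal (ν ^ (r / d) * t ^ (-(r / d)))) t := by
    intro t ht
    have ht' : 0 < t := ht
    by_cases h : t < S * ν
    · rw [indicator_of_mem (show t ∈ Ioo 0 (S * ν) from ⟨ht', h⟩)]
      have hc : μ {a | ENNReal.ofReal t < u a} ≤ ENNReal.ofReal (ν ^ r * t ^ (-r)) := by
        have h2 := mul_meas_ge_le_lintegral (μ := μ) (hu.pow_const r) (ENNReal.ofReal t ^ r)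
        have h3 : μ {a | ENNReal.ofReal t < u a} ≤
            μ {a | ENNReal.ofReal t ^ r ≤ u a ^ r} :=
          measure_mono fun a ha => ENNReal.rpow_le_rpow (le_of_lt ha) hr0.le
        have h4 : ENNReal.ofReal t ^ r * μ {a | ENNReal.ofReal t < u a} ≤
            ENNReal.ofReal ν ^ r := (mul_le_mul_right h3 _).trans (h2.trans hN)
        rw [ENNReal.ofReal_rpow_of_pos ht', ENNReal.ofReal_rpow_of_nonneg hν0 hr0.le] at h4
        rw [Real.rpow_neg ht'.le, ← div_eq_mul_inv, ENNReal.ofReal_div_of_pos (by positivity),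
          ENNReal.le_div_iff_mul_le]
        · rw [mul_comm]; exact h4
        · left
          have : 0 < t ^ r := by positivity
          simpa using this
        · left
          exact ENNReal.ofReal_ne_top
      refine (ENNReal.rpow_le_rpow hc (by positivity)).trans (le_of_eq ?_)
      rw [ENNReal.ofReal_rpow_of_nonneg (by positivity) (by positivity),
        Real.mul_rpow (by positivity) (by positivity), ← Real.rpow_mul hν0, ← Real.rpow_mul ht'.le]
      congr 3 <;> ring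
    · rw [indicator_of_notMem (fun h' : t ∈ Ioo 0 (S * ν) => h h'.2)]
      have h2 : {a | ENNReal.ofReal t < u a} = ∅ := by
        ext a
        simp only [mem_ofPred_eq, mem_empty_iff_false, iff_false, not_lt]
        exact (hSN' a).trans (ENNReal.ofReal_le_ofReal (not_lt.1 h))
      rw [h2, measure_empty, ENNReal.zero_rpow_of_pos (by positivity)]
  calc ∫⁻ t in Ioi (0 : ℝ), μ {a | ENNReal.ofReal t < u a} ^ (1 / d)
      ≤ ∫⁻ t in Ioi (0 : ℝ), (Ioo 0 (S * ν)).indicator
          (fun t => ENNReal.ofReal (ν ^ (r / d) * t ^ (-(r / d)))) t :=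
        setLIntegral_mono' measurableSet_Ioi h1
    _ ≤ ∫⁻ t, (Ioo 0 (S * ν)).indicator
          (fun t => ENNReal.ofReal (ν ^ (r / d) * t ^ (-(r / d)))) t :=
        setLIntegral_le_lintegral _ _
    _ = ∫⁻ t in Ioo 0 (S * ν), ENNReal.ofReal (ν ^ (r / d) * t ^ (-(r / d))) :=
        lintegral_indicator measurableSet_Ioo _
    _ = ∫⁻ t in Ioc 0 (S * ν), ENNReal.ofReal (ν ^ (r / d) * t ^ (-(r / d))) := by
        rw [setLIntegral_congr Ioo_ae_eq_Ioc]
    _ = ENNReal.ofReal (Cr d r S) * ENNReal.ofReal ν := by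
        have hSν : 0 ≤ S * ν := by positivity
        have hex : -1 < -(r / d) := by linarith
        have hint : IntervalIntegrable (fun t : ℝ => ν ^ (r / d) * t ^ (-(r / d))) volume 0
            (S * ν) := (intervalIntegral.intervalIntegrable_rpow' hex).const_mul _
        rw [← ofReal_integral_eq_lintegral_ofReal, ← intervalIntegral.integral_of_le hSν,
          intervalIntegral.integral_const_mul, integral_rpow (Or.inl hex),
          ← ENNReal.ofReal_mul hC.le]
        · congr 1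
          have h5 : -(r / d) + 1 = 1 - r / d := by ring
          have h6 : 0 < 1 - r / d := by linarith
          rw [h5, Real.zero_rpow h6.ne', sub_zero, Real.mul_rpow hS.le hν0]
          unfold Cr
          by_cases hν : ν = 0
          · rw [hν, Real.zero_rpow (by positivity), zero_mul, mul_zero]
          · have hν' : 0 < ν := lt_of_le_of_ne hν0 (Ne.symm hν)
            have h7 : ν ^ (r / d) * ν ^ (1 - r / d) = ν := by
              rw [← Real.rpow_add hν']
              have : r / d + (1 - r / d) = 1 := by ring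
              rw [this, Real.rpow_one]
            calc ν ^ (r / d) * (S ^ (1 - r / d) * ν ^ (1 - r / d) / (1 - r / d))
                = S ^ (1 - r / d) / (1 - r / d) * (ν ^ (r / d) * ν ^ (1 - r / d)) := by ring
              _ = _ := by rw [h7]
        · rw [intervalIntegrable_iff_integrableOn_Ioc_of_le hSν] at hint
          exact hint
        · refine (ae_restrict_mem measurableSet_Ioc).mono fun t ht => ?_
          have : 0 ≤ t := ht.1.le
          positivity

theorem layer2 [SFinite μ] (U V G : α → ℝ≥0∞) (hU : Measurable U) (hV : Measurable V)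
    (hG : Measurable G) :
    ∫⁻ ξ, U ξ * V ξ * G ξ ∂μ = ∫⁻ s in Ioi (0 : ℝ), ∫⁻ t in Ioi (0 : ℝ),
      ∫⁻ ξ in {ξ | ENNReal.ofReal s < U ξ ∧ ENNReal.ofReal t < V ξ}, G ξ ∂μ := by
  have hUm : Measurable fun q : ℝ × α => if ENNReal.ofReal q.1 < U q.2 then (1 : ℝ≥0∞) else 0 :=
    Measurable.ite (measurableSet_lt measurable_fst.ennreal_ofReal (hU.comp measurable_snd))
      measurable_const measurable_const
  have hVm : Measurable fun q : ℝ × α => if ENNReal.ofReal q.1 < V q.2 then (1 : ℝ≥0∞) else 0 :=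
    Measurable.ite (measurableSet_lt measurable_fst.ennreal_ofReal (hV.comp measurable_snd))
      measurable_const measurable_const
  calc ∫⁻ ξ, U ξ * V ξ * G ξ ∂μ
      = ∫⁻ ξ, (∫⁻ s in Ioi (0 : ℝ), (if ENNReal.ofReal s < U ξ then 1 else 0) * (V ξ * G ξ)) ∂μ := by
        refine lintegral_congr fun ξ => ?_
        rw [lintegral_mul_const, ← layer, mul_assoc]
        exact hUm.comp (measurable_id.prodMk measurable_const)
    _ = ∫⁻ s in Ioi (0 : ℝ), (∫⁻ ξ, (if ENNReal.ofReal s < U ξ then 1 else 0) * (V ξ * G ξ) ∂μ) := by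
        refine lintegral_lintegral_swap ?_
        exact ((hUm.comp measurable_swap).mul ((hV.comp measurable_fst).mul
          (hG.comp measurable_fst))).aemeasurable
    _ = ∫⁻ s in Ioi (0 : ℝ), ∫⁻ t in Ioi (0 : ℝ),
      ∫⁻ ξ in {ξ | ENNReal.ofReal s < U ξ ∧ ENNReal.ofReal t < V ξ}, G ξ ∂μ := by
        refine lintegral_congr fun s => ?_
        have hUs : Measurable fun ξ => if ENNReal.ofReal s < U ξ then (1 : ℝ≥0∞) else 0 :=
          hUm.comp (measurable_const.prodMk measurable_id)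
        calc ∫⁻ ξ, (if ENNReal.ofReal s < U ξ then 1 else 0) * (V ξ * G ξ) ∂μ
            = ∫⁻ ξ, (∫⁻ t in Ioi (0 : ℝ), (if ENNReal.ofReal t < V ξ then 1 else 0) *
                ((if ENNReal.ofReal s < U ξ then 1 else 0) * G ξ)) ∂μ := by
              refine lintegral_congr fun ξ => ?_
              rw [lintegral_mul_const, ← layer]
              · ring
              · exact hVm.comp (measurable_id.prodMk measurable_const)
          _ = ∫⁻ t in Ioi (0 : ℝ), (∫⁻ ξ, (if ENNReal.ofReal t < V ξ then 1 else 0) *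
                ((if ENNReal.ofReal s < U ξ then 1 else 0) * G ξ) ∂μ) := by
              refine lintegral_lintegral_swap ?_
              exact ((hVm.comp measurable_swap).mul ((hUs.comp measurable_fst).mul
                (hG.comp measurable_fst))).aemeasurable
          _ = _ := by
              refine lintegral_congr fun t => ?_
              have hms : MeasurableSet {ξ | ENNReal.ofReal s < U ξ ∧ ENNReal.ofReal t < V ξ} :=
                (measurableSet_lt measurable_const hU).inter (measurableSet_lt measurable_const hV)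
              rw [← lintegral_indicator hms]
              refine lintegral_congr fun ξ => ?_
              by_cases h1 : ENNReal.ofReal s < U ξ <;> by_cases h2 : ENNReal.ofReal t < V ξ <;>
                simp [h1, h2]

end gen

/-! ### local constancy for general weights -/

/-- the scale -/
noncomputable def dt : ℝ := 1 / (8 * Real.pi)

theorem dt_pos : 0 < dt := by
  unfold dt
  have := Real.pi_pos
  positivity

theorem dt_le : 4 * Real.pi * 2 * dt ≤ 1 := by
  unfold dt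
  have := Real.pi_pos
  rw [mul_one_div, div_le_one (by positivity)]
  linarith

variable (e : OrthonormalBasis (Fin 3) ℝ (E 3))

/-- averaging a weight in the coordinate `j` -/
noncomputable def Aw (j : Fin 3) (W : (Fin 3 → ℝ) → ℝ≥0∞) (y : Fin 3 → ℝ) : ℝ≥0∞ :=
  ∫⁻ τ, W (y - Pi.single j τ) ∂(nu dt)

theorem single_meas (j : Fin 3) : Measurable fun τ : ℝ => (Pi.single j τ : Fin 3 → ℝ) :=
  measurable_pi_iff.2 fun i => by
    by_cases hi : i = j
    · subst hi; simp only [Pi.single_eq_same]; exact measurable_id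
    · simp only [Pi.single_eq_of_ne hi]; exact measurable_const

theorem Aw_meas (j : Fin 3) (W : (Fin 3 → ℝ) → ℝ≥0∞) (hW : Measurable W) : Measurable (Aw j W) := by
  have : Measurable (Function.uncurry fun (y : Fin 3 → ℝ) (τ : ℝ) =>
      W (y - Pi.single j τ)) :=
    hW.comp (measurable_fst.sub ((single_meas j).comp measurable_snd))
  exact this.lintegral_prod_right'

theorem lcN (j : Fin 3) {M : ℝ} {f : E 2 → ℂ} (hf : Nice M f) (W : (Fin 3 → ℝ) → ℝ≥0∞)
    (hW : Measurable W) : ∃ g : E 2 → ℂ, Nice (2 * M) g ∧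
      ∫⁻ y, W y * ‖Ey e f y‖ₑ ^ 2 ≤ ∫⁻ y, Aw j W y * ‖Ey e g y‖ₑ ^ 2 := by
  have hprob := nu_prob dt dt_pos
  have hs : ∀ x, f x ≠ 0 → |ph e j x| ≤ 2 := by
    intro x hx
    have h1 : ‖x‖ ≤ 1 := by
      by_contra h
      exact hx (hf.supp x (not_le.1 h).le)
    refine (abs_real_inner_le_norm _ _).trans ?_
    rw [e.orthonormal.1 j, one_mul]
    exact (Phi_norm x 1 h1).trans (by norm_num)
  set g : E 2 → ℂ := fun x => f x / mj dt (ph e j x) with hg
  have hgle : ∀ x, ‖g x‖ ≤ 2 * ‖f x‖ := by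
    intro x
    by_cases hx : f x = 0
    · simp [hg, hx]
    · have h1 := mj_ge dt dt_pos 2 (ph e j x) (hs x hx) dt_le
      rw [hg]
      simp only
      rw [norm_div, div_le_iff₀ (by linarith)]
      nlinarith [norm_nonneg (f x)]
  have hfg : ∀ x, f x = g x * mj dt (ph e j x) := by
    intro x
    by_cases hx : f x = 0
    · simp [hg, hx]
    · have h1 := mj_ge dt dt_pos 2 (ph e j x) (hs x hx) dt_le
      have : mj dt (ph e j x) ≠ 0 := by
        intro h0
        rw [h0, norm_zero] at h1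
        linarith
      rw [hg]
      field_simp
  have hgN : Nice (2 * M) g := by
    refine ⟨?_, ?_, ?_⟩
    · exact hf.meas.div ((mj_meas dt).comp (ph_cont e j).measurable)
    · intro x
      exact (hgle x).trans (mul_le_mul_of_nonneg_left (hf.bd x) (by norm_num))
    · intro x hx
      have := hgle x
      rw [hf.supp x hx, norm_zero, mul_zero] at this
      exact norm_le_zero_iff.1 this
  refine ⟨g, hgN, ?_⟩
  have hgi := hgN.integrable
  have hEm : Measurable (Ey e g) := Ey_meas e g hgi.1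
  have hsm := single_meas j
  have hEf : ∀ y, Ey e f y = ∫ τ, Ey e g (y + Pi.single j τ) ∂(nu dt) := by
    intro y
    have hint : Integrable (Function.uncurry fun (x : E 2) (τ : ℝ) =>
        ee (∑ i, ph e i x * (y + (Pi.single j τ : Fin 3 → ℝ)) i) * g x)
        (volume.prod (nu dt)) := by
      have h1 : Integrable (fun q : E 2 × ℝ => g q.1) (volume.prod (nu dt)) :=
        hgi.comp_fst (nu dt)
      refine h1.bdd_mul (c := 1) ?_ (Eventually.of_forall fun q => (ee_norm _).le)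
      refine (ee_meas.comp ?_).aestronglyMeasurable
      refine Finset.measurable_sum _ fun i _ =>
        ((ph_cont e i).measurable.comp measurable_fst).mul ?_
      exact measurable_const.add ((measurable_pi_apply i).comp (hsm.comp measurable_snd))
    unfold Ey
    rw [← integral_integral_swap hint]
    congr 1
    ext x
    rw [hfg x, mul_comm (g x), ← mul_assoc, integral_mul_const]
    congr 1
    unfold mj
    rw [← integral_const_mul]
    congr 1
    ext τ
    rw [← ee_add]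
    congr 1
    simp only [Pi.add_apply, mul_add, Finset.sum_add_distrib]
    congr 1
    rw [Finset.sum_eq_single j]
    · rw [Pi.single_eq_same]
    · intro i _ hi
      rw [Pi.single_eq_of_ne hi, mul_zero]
    · intro h
      exact absurd (Finset.mem_univ j) h
  have hshift : ∀ y : Fin 3 → ℝ, Measurable fun τ : ℝ => y + (Pi.single j τ : Fin 3 → ℝ) :=
    fun y => measurable_const.add hsm
  calc ∫⁻ y, W y * ‖Ey e f y‖ₑ ^ 2 ≤ ∫⁻ y : Fin 3 → ℝ, (∫⁻ τ, W y *
        ‖Ey e g (y + (Pi.single j τ : Fin 3 → ℝ))‖ₑ ^ 2 ∂(nu dt)) ∂volume := by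
        refine lintegral_mono fun y => ?_
        have hEm' : Measurable fun τ : ℝ => ‖Ey e g (y + (Pi.single j τ : Fin 3 → ℝ))‖ₑ ^ 2 :=
          (hEm.comp (hshift y)).enorm.pow_const 2
        rw [lintegral_const_mul _ hEm']
        refine mul_le_mul_right ?_ _
        rw [hEf y]
        have h1 : ‖∫ τ, Ey e g (y + (Pi.single j τ : Fin 3 → ℝ)) ∂(nu dt)‖ₑ ≤
            ∫⁻ τ, ‖Ey e g (y + (Pi.single j τ : Fin 3 → ℝ))‖ₑ ∂(nu dt) :=
          enorm_integral_le_lintegral_enorm _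
        refine (pow_le_pow_left' h1 2).trans ?_
        have h2 := jens (nu dt) 2 (by norm_num) (fun τ => ‖Ey e g (y + (Pi.single j τ : Fin 3 → ℝ))‖ₑ)
          (hEm.comp (hshift y)).enorm.aemeasurable
        simpa using h2
    _ = ∫⁻ τ, (∫⁻ y : Fin 3 → ℝ, W y *
        ‖Ey e g (y + (Pi.single j τ : Fin 3 → ℝ))‖ₑ ^ 2 ∂volume) ∂(nu dt) := by
        refine lintegral_lintegral_swap ?_
        refine ((hW.comp measurable_fst).mul ((hEm.comp ?_).enorm.pow_const 2)).aemeasurable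
        exact measurable_fst.add (hsm.comp measurable_snd)
    _ = ∫⁻ τ, (∫⁻ y : Fin 3 → ℝ, W (y - (Pi.single j τ : Fin 3 → ℝ)) *
        ‖Ey e g y‖ₑ ^ 2 ∂volume) ∂(nu dt) := by
        refine lintegral_congr fun τ => ?_
        rw [← lintegral_add_right_eq_self (fun y : Fin 3 → ℝ =>
          W (y - (Pi.single j τ : Fin 3 → ℝ)) * ‖Ey e g y‖ₑ ^ 2)
          (Pi.single j τ : Fin 3 → ℝ)]
        refine lintegral_congr fun y => ?_
        rw [add_sub_cancel_right]
    _ = ∫⁻ y : Fin 3 → ℝ, (∫⁻ τ, W (y - (Pi.single j τ : Fin 3 → ℝ)) *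
        ‖Ey e g y‖ₑ ^ 2 ∂(nu dt)) ∂volume := by
        refine lintegral_lintegral_swap ?_
        refine ((hW.comp ?_).mul ((hEm.comp measurable_snd).enorm.pow_const 2)).aemeasurable
        exact measurable_snd.sub (hsm.comp measurable_fst)
    _ = ∫⁻ y, Aw j W y * ‖Ey e g y‖ₑ ^ 2 := by
        refine lintegral_congr fun y => ?_
        have hWy : Measurable fun τ : ℝ => W (y - (Pi.single j τ : Fin 3 → ℝ)) :=
          hW.comp (measurable_const.sub hsm)
        rw [lintegral_mul_const _ hWy]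
        rfl

/-- the planar average -/
noncomputable def aP (u : ℝ × ℝ → ℝ≥0∞) (p : ℝ × ℝ) : ℝ≥0∞ :=
  ∫⁻ τ, u (p - τ) ∂((nu dt).prod (nu dt))

/-- the product weight -/
noncomputable def Wp (u : ℝ × ℝ → ℝ≥0∞) (v : ℝ → ℝ≥0∞) (y : Fin 3 → ℝ) : ℝ≥0∞ :=
  u (y 0, y 2) * v (y 1)

theorem Wp_meas (u : ℝ × ℝ → ℝ≥0∞) (v : ℝ → ℝ≥0∞) (hu : Measurable u) (hv : Measurable v) :
    Measurable (Wp u v) :=
  (hu.comp ((measurable_pi_apply 0).prodMk (measurable_pi_apply 2))).mul
    (hv.comp (measurable_pi_apply 1))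

theorem Aw_Wp (u : ℝ × ℝ → ℝ≥0∞) (v : ℝ → ℝ≥0∞) (hu : Measurable u) (hv : Measurable v) :
    Aw 0 (Aw 2 (Aw 1 (Wp u v))) = Wp (aP u) (av dt v) := by
  have h1 : Aw 1 (Wp u v) = Wp u (av dt v) := by
    ext y
    unfold Aw Wp av
    have h2 : ∀ τ : ℝ, u ((y - (Pi.single 1 τ : Fin 3 → ℝ)) 0, (y - (Pi.single 1 τ : Fin 3 → ℝ)) 2) *
        v ((y - (Pi.single 1 τ : Fin 3 → ℝ)) 1) = u (y 0, y 2) * v (y 1 - τ) := by
      intro τ
      simp
    simp_rw [h2]
    have hvm : Measurable fun τ : ℝ => v (y 1 - τ) := hv.comp (measurable_const.sub measurable_id)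
    rw [lintegral_const_mul _ hvm]
  rw [h1]
  ext y
  unfold Aw Wp aP
  have h2 : ∀ τ τ' : ℝ, u (((y - (Pi.single 0 τ : Fin 3 → ℝ)) - (Pi.single 2 τ' : Fin 3 → ℝ)) 0,
      ((y - (Pi.single 0 τ : Fin 3 → ℝ)) - (Pi.single 2 τ' : Fin 3 → ℝ)) 2) *
      av dt v (((y - (Pi.single 0 τ : Fin 3 → ℝ)) - (Pi.single 2 τ' : Fin 3 → ℝ)) 1) =
      u ((y 0, y 2) - (τ, τ')) * av dt v (y 1) := by
    intro τ τ'
    simp
  simp_rw [h2]
  have hm : Measurable fun q : ℝ × ℝ => u ((y 0, y 2) - q) :=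
    hu.comp (measurable_const.sub measurable_id)
  rw [lintegral_prod _ hm.aemeasurable]
  have h3 : ∀ τ : ℝ, ∫⁻ τ', u ((y 0, y 2) - (τ, τ')) * av dt v (y 1) ∂(nu dt) =
      (∫⁻ τ', u ((y 0, y 2) - (τ, τ')) ∂(nu dt)) * av dt v (y 1) := by
    intro τ
    have : Measurable fun τ' : ℝ => u ((y 0, y 2) - (τ, τ')) :=
      hm.comp (measurable_const.prodMk measurable_id)
    rw [lintegral_mul_const _ this]
  simp_rw [h3]
  rw [lintegral_mul_const]
  exact hm.lintegral_prod_right'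

theorem nu_le (F : ℝ → ℝ≥0∞) : ∫⁻ τ, F τ ∂(nu dt) ≤ (ENNReal.ofReal dt)⁻¹ * ∫⁻ τ, F τ := by
  unfold nu
  rw [lintegral_smul_measure, smul_eq_mul]
  exact mul_le_mul_right (setLIntegral_le_lintegral _ _) _

theorem aP_meas (u : ℝ × ℝ → ℝ≥0∞) (hu : Measurable u) : Measurable (aP u) := by
  have : Measurable (Function.uncurry fun (p τ : ℝ × ℝ) => u (p - τ)) :=
    hu.comp (measurable_fst.sub measurable_snd)
  exact this.lintegral_prod_right'

theorem aP_sup (r : ℝ) (hr : 1 ≤ r) (u : ℝ × ℝ → ℝ≥0∞) (hu : Measurable u) (p : ℝ × ℝ) :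
    aP u p ≤ ((ENNReal.ofReal dt)⁻¹ ^ (1 / r)) ^ 2 * (∫⁻ a, u a ^ r) ^ (1 / r) := by
  have := nu_prob dt dt_pos
  have hm : Measurable fun τ : ℝ × ℝ => u (p - τ) := hu.comp (measurable_const.sub measurable_id)
  have h1 := jens ((nu dt).prod (nu dt)) r hr (fun τ => u (p - τ)) hm.aemeasurable
  have h2 : ∫⁻ τ, u (p - τ) ^ r ∂((nu dt).prod (nu dt)) ≤
      (ENNReal.ofReal dt)⁻¹ ^ 2 * ∫⁻ a, u a ^ r := by
    rw [lintegral_prod _ (hm.pow_const r).aemeasurable]
    calc ∫⁻ τ, ∫⁻ τ', u (p - (τ, τ')) ^ r ∂(nu dt) ∂(nu dt)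
        ≤ ∫⁻ τ, ((ENNReal.ofReal dt)⁻¹ * ∫⁻ τ', u (p - (τ, τ')) ^ r) ∂(nu dt) :=
          lintegral_mono fun τ => nu_le _
      _ ≤ (ENNReal.ofReal dt)⁻¹ * ∫⁻ τ, ((ENNReal.ofReal dt)⁻¹ *
            ∫⁻ τ', u (p - (τ, τ')) ^ r) := nu_le _
      _ = (ENNReal.ofReal dt)⁻¹ ^ 2 * ∫⁻ τ, ∫⁻ τ', u (p - (τ, τ')) ^ r := by
          rw [lintegral_const_mul _ (hm.pow_const r).lintegral_prod_right', ← mul_assoc, sq]
      _ = (ENNReal.ofReal dt)⁻¹ ^ 2 * ∫⁻ a, u a ^ r := by
          congr 1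
          have h3 : ∫⁻ τ : ℝ, ∫⁻ τ' : ℝ, u (p - (τ, τ')) ^ r = ∫⁻ q : ℝ × ℝ, u (p - q) ^ r := by
            rw [Measure.volume_eq_prod, lintegral_prod _ (hm.pow_const r).aemeasurable]
          rw [h3]
          exact lintegral_sub_left_eq_self (fun a => u a ^ r) p
  have h3 : aP u p = (aP u p ^ r) ^ (1 / r) := by
    rw [← ENNReal.rpow_mul, mul_one_div, div_self (by linarith), ENNReal.rpow_one]
  rw [h3]
  refine (ENNReal.rpow_le_rpow (h1.trans h2) (by positivity)).trans (le_of_eq ?_)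
  rw [ENNReal.mul_rpow_of_nonneg _ _ (by positivity)]
  congr 1
  rw [← ENNReal.rpow_natCast, ← ENNReal.rpow_natCast, ← ENNReal.rpow_mul, ← ENNReal.rpow_mul,
    mul_comm]

theorem aP_norm (r : ℝ) (hr : 1 ≤ r) (u : ℝ × ℝ → ℝ≥0∞) (hu : Measurable u) :
    ∫⁻ p, aP u p ^ r ≤ ∫⁻ a, u a ^ r := by
  have := nu_prob dt dt_pos
  calc ∫⁻ p, aP u p ^ r ≤ ∫⁻ p : ℝ × ℝ, (∫⁻ τ, u (p - τ) ^ r ∂((nu dt).prod (nu dt))) := by
        refine lintegral_mono fun p => ?_
        have hm : Measurable fun τ : ℝ × ℝ => u (p - τ) :=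
          hu.comp (measurable_const.sub measurable_id)
        exact jens _ r hr (fun τ => u (p - τ)) hm.aemeasurable
    _ = ∫⁻ τ, (∫⁻ p : ℝ × ℝ, u (p - τ) ^ r) ∂((nu dt).prod (nu dt)) := by
        refine lintegral_lintegral_swap ?_
        exact ((hu.comp (measurable_fst.sub measurable_snd)).pow_const r).aemeasurable
    _ = ∫⁻ τ, (∫⁻ a, u a ^ r) ∂((nu dt).prod (nu dt)) := by
        refine lintegral_congr fun τ => ?_
        exact lintegral_sub_right_eq_self (fun a => u a ^ r) τ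
    _ = ∫⁻ a, u a ^ r := by rw [lintegral_const, measure_univ, mul_one]

/-- **products of a planar and a linear weight** -/
theorem planar_weights (r : ℝ) (hr : 1 ≤ r) (hr3 : r < 3) : ∃ C : ℝ, 0 < C ∧
    ∀ (e : OrthonormalBasis (Fin 3) ℝ (E 3)), Vert e → ∀ (M : ℝ) (f : E 2 → ℂ), 0 ≤ M →
    Nice M f → ∀ (u : ℝ × ℝ → ℝ≥0∞) (v : ℝ → ℝ≥0∞), Measurable u → Measurable v →
    ∫⁻ ξ, u (⟪e 0, ξ⟫, ⟪e 2, ξ⟫) * v ⟪e 1, ξ⟫ * ‖Ex f ξ‖ₑ ^ 2 ≤
      ENNReal.ofReal (C * M ^ 2) * (∫⁻ p, u p ^ r) ^ (1 / r) * (∫⁻ t, v t ^ r) ^ (1 / r) := by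
  obtain ⟨d, hd2, hd3, hrd⟩ : ∃ d : ℝ, 2 < d ∧ d < 3 ∧ r < d := by
    refine ⟨(max r 2 + 3) / 2, ?_, ?_, ?_⟩
    · have := le_max_right r 2
      linarith
    · have : max r 2 < 3 := max_lt hr3 (by norm_num)
      linarith
    · rcases le_total r 2 with h | h
      · rw [max_eq_right h]; linarith
      · rw [max_eq_left h]; linarith
  set q : ℝ := 2 * d / (d - 1) with hq
  have hd1 : 0 < d - 1 := by linarith
  have hq3 : 3 < q := by rw [hq, lt_div_iff₀ hd1]; linarith
  have hq4 : q < 4 := by rw [hq, div_lt_iff₀ hd1]; linarith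
  have hqd : 1 - 2 / q = 1 / d := by
    rw [hq]
    field_simp
    ring
  obtain ⟨C, hC, hsets⟩ := planar_sets q hq3 hq4
  set S1 : ℝ := dt⁻¹ ^ (1 / r) with hS1
  have hdt := dt_pos
  have hS10 : 0 < S1 := by positivity
  have hCr : ∀ S : ℝ, 0 < S → 0 < Cr d r S := by
    intro S hS
    unfold Cr
    have : r / d < 1 := (div_lt_one (by linarith)).2 hrd
    have : 0 < 1 - r / d := by linarith
    positivity
  refine ⟨C * 8 ^ 2 * (Cr d r (S1 ^ 2) * Cr d r S1), by
    have := hCr (S1 ^ 2) (by positivity)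
    have := hCr S1 hS10
    positivity, ?_⟩
  intro e he M f hM hf u v hu hv
  -- to coordinates
  have hcoord : ∀ g : E 2 → ℂ, Integrable g → ∀ (u : ℝ × ℝ → ℝ≥0∞) (v : ℝ → ℝ≥0∞),
      Measurable u → Measurable v →
      ∫⁻ ξ, u (⟪e 0, ξ⟫, ⟪e 2, ξ⟫) * v ⟪e 1, ξ⟫ * ‖Ex g ξ‖ₑ ^ 2 =
      ∫⁻ y, Wp u v y * ‖Ey e g y‖ₑ ^ 2 := by
    intro g hg u v hu hv
    rw [cov e]
    · refine lintegral_congr fun y => ?_
      rw [Ex_eq]
      simp only [inner_repr_symm]
      rfl
    · refine Measurable.mul (Measurable.mul ?_ ?_) ((Ex_meas g hg.1).enorm.pow_const 2)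
      · exact hu.comp (by fun_prop)
      · exact hv.comp (by fun_prop)
  rw [hcoord f hf.integrable u v hu hv]
  have hWm := Wp_meas u v hu hv
  obtain ⟨g1, hg1, hT1⟩ := lcN e 1 hf (Wp u v) hWm
  have hW1 := Aw_meas 1 _ hWm
  obtain ⟨g2, hg2, hT2⟩ := lcN e 2 hg1 _ hW1
  have hW2 := Aw_meas 2 _ hW1
  obtain ⟨g, hg, hT3⟩ := lcN e 0 hg2 _ hW2
  refine hT1.trans (hT2.trans (hT3.trans ?_))
  rw [Aw_Wp u v hu hv, ← hcoord g hg.integrable _ _ (aP_meas u hu) (av_meas dt v hv)]
  -- layer cake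
  have hUm : Measurable fun ξ : E 3 => aP u (⟪e 0, ξ⟫, ⟪e 2, ξ⟫) :=
    (aP_meas u hu).comp (by fun_prop)
  have hVm : Measurable fun ξ : E 3 => av dt v ⟪e 1, ξ⟫ := (av_meas dt v hv).comp (by fun_prop)
  rw [layer2 volume _ _ _ hUm hVm ((Ex_meas g hg.integrable.1).enorm.pow_const 2)]
  have hM8 : 0 ≤ 2 * (2 * (2 * M)) := by positivity
  have hset : ∀ s t : ℝ, ∫⁻ ξ in {ξ : E 3 | ENNReal.ofReal s < aP u (⟪e 0, ξ⟫, ⟪e 2, ξ⟫) ∧
      ENNReal.ofReal t < av dt v ⟪e 1, ξ⟫}, ‖Ex g ξ‖ₑ ^ 2 ≤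
      ENNReal.ofReal (C * (2 * (2 * (2 * M))) ^ 2) *
        volume {p | ENNReal.ofReal s < aP u p} ^ (1 / d) *
        volume {a | ENNReal.ofReal t < av dt v a} ^ (1 / d) := by
    intro s t
    have h1 := hsets e he (2 * (2 * (2 * M))) g hM8 hg 0 {p | ENNReal.ofReal s < aP u p}
      {a | ENNReal.ofReal t < av dt v a}
      (measurableSet_lt measurable_const (aP_meas u hu))
      (measurableSet_lt measurable_const (av_meas dt v hv))
    rw [hqd, ENNReal.mul_rpow_of_nonneg _ _ (by positivity), ← mul_assoc] at h1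
    refine le_trans (le_of_eq ?_) h1
    congr 2
    ext ξ
    simp only [BS, mem_ofPred_eq, zero_mul, add_zero]
  calc ∫⁻ s in Ioi (0 : ℝ), ∫⁻ t in Ioi (0 : ℝ),
        ∫⁻ ξ in {ξ : E 3 | ENNReal.ofReal s < aP u (⟪e 0, ξ⟫, ⟪e 2, ξ⟫) ∧
        ENNReal.ofReal t < av dt v ⟪e 1, ξ⟫}, ‖Ex g ξ‖ₑ ^ 2
      ≤ ∫⁻ s in Ioi (0 : ℝ), ∫⁻ t in Ioi (0 : ℝ),
        ENNReal.ofReal (C * (2 * (2 * (2 * M))) ^ 2) *
        volume {p | ENNReal.ofReal s < aP u p} ^ (1 / d) *
        volume {a | ENNReal.ofReal t < av dt v a} ^ (1 / d) :=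
        lintegral_mono fun s => lintegral_mono fun t => hset s t
    _ = ENNReal.ofReal (C * (2 * (2 * (2 * M))) ^ 2) * LoG volume d (aP u) *
          LoG volume d (av dt v) := by
        have hanti : ∀ {α : Type} [MeasurableSpace α] (μ : Measure α) (w : α → ℝ≥0∞),
            Measurable fun t : ℝ => μ {a | ENNReal.ofReal t < w a} ^ (1 / d) := by
          intro α _ μ w
          refine Measurable.pow_const ?_ _
          refine Antitone.measurable fun t t' htt => measure_mono fun a ha => ?_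
          exact lt_of_le_of_lt (ENNReal.ofReal_le_ofReal htt) ha
        have h2 : ∀ s : ℝ, ∫⁻ t in Ioi (0 : ℝ), ENNReal.ofReal (C * (2 * (2 * (2 * M))) ^ 2) *
            volume {p | ENNReal.ofReal s < aP u p} ^ (1 / d) *
            volume {a | ENNReal.ofReal t < av dt v a} ^ (1 / d) =
            volume {p | ENNReal.ofReal s < aP u p} ^ (1 / d) *
            (ENNReal.ofReal (C * (2 * (2 * (2 * M))) ^ 2) * LoG volume d (av dt v)) := by
          intro s
          rw [lintegral_const_mul _ (hanti volume (av dt v))]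
          unfold LoG
          ring
        simp_rw [h2]
        rw [lintegral_mul_const _ (hanti volume (aP u))]
        show LoG volume d (aP u) * _ = _
        ring
    _ ≤ ENNReal.ofReal (C * (2 * (2 * (2 * M))) ^ 2) *
          (ENNReal.ofReal (Cr d r (S1 ^ 2)) * (∫⁻ p, u p ^ r) ^ (1 / r)) *
          (ENNReal.ofReal (Cr d r S1) * (∫⁻ t, v t ^ r) ^ (1 / r)) := by
        have hS1e : (ENNReal.ofReal dt)⁻¹ ^ (1 / r) = ENNReal.ofReal S1 := by
          rw [← ENNReal.ofReal_inv_of_pos hdt, ENNReal.ofReal_rpow_of_pos (by positivity)]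
        have hNr : ∀ N : ℝ≥0∞, (N ^ (1 / r)) ^ r = N := by
          intro N
          rw [← ENNReal.rpow_mul, one_div, inv_mul_cancel₀ (by linarith), ENNReal.rpow_one]
        refine mul_le_mul' (mul_le_mul_right ?_ _) ?_
        · refine loG_le volume d r hr hrd (S1 ^ 2) (by positivity) _ (aP_meas u hu) _ ?_ ?_
          · rw [hNr]; exact aP_norm r hr u hu
          · intro p
            refine (aP_sup r hr u hu p).trans (le_of_eq ?_)
            rw [hS1e, ENNReal.ofReal_pow hS10.le]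
        · refine loG_le volume d r hr hrd S1 hS10 _ (av_meas dt v hv) _ ?_ ?_
          · rw [hNr]; exact av_norm dt hdt r hr v hv
          · intro t
            refine (av_sup dt hdt r hr v hv t).trans (le_of_eq ?_)
            rw [hS1e]
    _ = _ := by
        have e1 : C * 8 ^ 2 * (Cr d r (S1 ^ 2) * Cr d r S1) * M ^ 2 =
            (C * (2 * (2 * (2 * M))) ^ 2) * (Cr d r (S1 ^ 2) * Cr d r S1) := by ring
        rw [e1, ENNReal.ofReal_mul (p := C * (2 * (2 * (2 * M))) ^ 2) (by positivity),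
          ENNReal.ofReal_mul (p := Cr d r (S1 ^ 2)) (hCr _ (by positivity)).le]
        ring

end Pool.Agent.R412.RH
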