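import Mathlib
import Pool.Agent.R412.RT.T4
set_option autoImplicit false

/-! Conversion to the normalisation `e^{-i Φ(x)·ξ}`. -/

namespace Pool.Agent.R412.RZ

open MeasureTheory Complex Set Filter Topology
open scoped ENNReal NNReal RealInnerProductSpace ComplexConjugate
open Pool.Agent.R412.RT (E ee ee_norm Ex Ex_meas Lo nf Cn)
open Pool.Agent.R412.RS (cell PS endpointW lorentzS weightsO Cb Cb_ne_top)
open Pool.Agent.R412.RH (Vert Nice BS planar_sets planar_weights)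

/-- the paraboloid `x ↦ (x_1, x_2, x_1^2 + x_2^2)` -/
noncomputable def Phi (x : E 2) : E 3 := !₂[x 0, x 1, x 0 ^ 2 + x 1 ^ 2]

/-- the Fourier extension operator of the paraboloid over `U` -/
noncomputable def ext (U : Set (E 2)) (f : E 2 → ℂ) (ξ : E 3) : ℂ :=
  ∫ x in U, Complex.exp (-((⟪Phi x, ξ⟫ : ℝ) : ℂ) * I) * f x

theorem Phi_eq (x : E 2) : Phi x = Pool.Agent.R412.RT.Phi x := by
  ext i
  have h0 : Pool.Agent.R412.RT.Phi x (0 : Fin 3) = x 0 := Pool.Agent.R412.RT.Phi_cast x 0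
  have h1 : Pool.Agent.R412.RT.Phi x (1 : Fin 3) = x 1 := Pool.Agent.R412.RT.Phi_cast x 1
  have h2 : Pool.Agent.R412.RT.Phi x (2 : Fin 3) = ∑ i, x i ^ 2 := Pool.Agent.R412.RT.Phi_last x
  fin_cases i
  · exact h0.symm
  · exact h1.symm
  · refine Eq.trans ?_ h2.symm
    rw [Fin.sum_univ_two]
    rfl

/-- the scaling factor -/
noncomputable def cs : ℝ := -(2 * Real.pi)

theorem cs_ne : cs ≠ 0 := by
  unfold cs
  have := Real.pi_pos
  intro h
  linarith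

theorem cs_abs : 1 ≤ |cs| := by
  unfold cs
  rw [abs_neg, abs_of_pos (by positivity)]
  linarith [Real.pi_gt_three]

theorem ext_eq (U : Set (E 2)) (hU : MeasurableSet U) (f : E 2 → ℂ) (ξ : E 3) :
    ext U f ξ = Ex (U.indicator f) (cs⁻¹ • ξ) := by
  unfold ext Ex
  rw [← integral_indicator hU]
  congr 1
  ext x
  by_cases hx : x ∈ U
  · rw [indicator_of_mem hx, indicator_of_mem hx, inner_smul_right, Phi_eq]
    congr 1
    unfold ee
    congr 1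
    have h1 : (2 * Real.pi * (cs⁻¹ * ⟪Pool.Agent.R412.RT.Phi x, ξ⟫) : ℝ) =
        -⟪Pool.Agent.R412.RT.Phi x, ξ⟫ := by
      have := cs_ne
      have h2 : 2 * Real.pi = -cs := by unfold cs; ring
      rw [h2]
      field_simp
    have h3 := congrArg (fun r : ℝ => (r : ℂ)) h1
    push_cast at h3 ⊢
    rw [← h3]
  · rw [indicator_of_notMem hx, indicator_of_notMem hx, mul_zero]

theorem scaleV {V : Type*} [NormedAddCommGroup V] [NormedSpace ℝ V] [MeasurableSpace V]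
    [BorelSpace V] [FiniteDimensional ℝ V] (μ : Measure V) [μ.IsAddHaarMeasure]
    (G : V → ℝ≥0∞) (hG : Measurable G) : ∫⁻ x, G (cs • x) ∂μ ≤ ∫⁻ x, G x ∂μ := by
  have h5 := Measure.map_addHaar_smul μ cs_ne
  have h6 : ∫⁻ a, G a ∂(Measure.map (cs • ·) μ) = ∫⁻ a, G (cs • a) ∂μ :=
    lintegral_map hG (measurable_const_smul cs)
  rw [← h6, h5, lintegral_smul_measure, smul_eq_mul]
  refine mul_le_of_le_one_left zero_le ?_
  rw [← ENNReal.ofReal_one]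
  refine ENNReal.ofReal_le_ofReal ?_
  rw [abs_inv, abs_pow]
  exact inv_le_one_of_one_le₀ (one_le_pow₀ cs_abs)

/-- change of variables -/
theorem ext_lint (U : Set (E 2)) (hU : MeasurableSet U) (f : E 2 → ℂ) (W : E 3 → ℝ≥0∞) :
    ∫⁻ ξ, W ξ * ‖ext U f ξ‖ₑ ^ 2 =
      ENNReal.ofReal ((2 * Real.pi) ^ 3) * ∫⁻ ξ, W (cs • ξ) * ‖Ex (U.indicator f) ξ‖ₑ ^ 2 := by
  have hpi := Real.pi_pos
  have h0 : cs⁻¹ ≠ 0 := inv_ne_zero cs_ne
  have hme : MeasurableEmbedding fun ξ : E 3 => cs⁻¹ • ξ :=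
    (Homeomorph.smulOfNeZero cs⁻¹ h0).toMeasurableEquiv.measurableEmbedding
  have h5 := Measure.map_addHaar_smul (volume : Measure (E 3)) h0
  have h6 : ∫⁻ ξ, W (cs • ξ) * ‖Ex (U.indicator f) ξ‖ₑ ^ 2
      ∂(Measure.map (cs⁻¹ • ·) (volume : Measure (E 3))) =
      ∫⁻ ξ, W ξ * ‖ext U f ξ‖ₑ ^ 2 := by
    rw [hme.lintegral_map]
    refine lintegral_congr fun ξ => ?_
    rw [ext_eq U hU, smul_smul, mul_inv_cancel₀ cs_ne, one_smul]
  rw [← h6, h5, lintegral_smul_measure, smul_eq_mul]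
  congr 2
  rw [finrank_euclideanSpace, Fintype.card_fin, ← inv_pow, inv_inv, abs_pow]
  unfold cs
  rw [abs_neg, abs_of_pos (by positivity)]

theorem ind_int (U : Set (E 2)) (hU : MeasurableSet U) (f : E 2 → ℂ) (hf : IntegrableOn f U) :
    Integrable (U.indicator f) := (integrable_indicator_iff hU).2 hf

theorem nf_eq (U : Set (E 2)) (hU : MeasurableSet U) (f : E 2 → ℂ) :
    nf (U.indicator f) = eLpNorm f 3 (volume.restrict U) ^ 2 := by
  rw [eLpNorm_eq_lintegral_rpow_enorm_toReal (by norm_num) (by norm_num)]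
  unfold nf
  have h1 : ∀ x, ‖U.indicator f x‖ₑ ^ (2 * (((2 : ℕ) : ℝ) + 1) / ((2 : ℕ) : ℝ)) =
      U.indicator (fun x => ‖f x‖ₑ ^ (3 : ℝ)) x := by
    intro x
    by_cases hx : x ∈ U
    · rw [indicator_of_mem hx, indicator_of_mem hx]
      congr 1
      norm_num
    · rw [indicator_of_notMem hx, indicator_of_notMem hx, enorm_zero, ENNReal.zero_rpow_of_pos]
      norm_num
  simp_rw [h1]
  rw [lintegral_indicator hU, ← ENNReal.rpow_natCast, ← ENNReal.rpow_mul]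
  norm_num

/-- the constant -/
noncomputable def K0 : ℝ≥0∞ := ENNReal.ofReal ((2 * Real.pi) ^ 3)

theorem K0_ne : K0 ≠ ∞ := ENNReal.ofReal_ne_top

theorem Cn_ne_top (n : ℕ) : Cn n ≠ ∞ := by
  unfold Cn
  refine ENNReal.mul_ne_top ?_ ?_
  · exact ENNReal.mul_ne_top (by norm_num) (by simp)
  · exact ENNReal.rpow_ne_top_of_nonneg (by positivity)
      (ENNReal.mul_ne_top (by norm_num) (by simp))

theorem ex3 : (1 : ℝ) / (((2 : ℕ) : ℝ) + 1) = 1 / 3 := by norm_num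

/-- part B -/
theorem partB (U : Set (E 2)) (hU : MeasurableSet U) (f : E 2 → ℂ) (hf : IntegrableOn f U)
    (v : Fin 3 → E 3) (hv : LinearIndependent ℝ v) (w : Fin 3 → ℝ → ℝ≥0∞) (W : E 3 → ℝ≥0∞)
    (hw : ∀ i, Measurable (w i)) (hW : ∀ ξ i, W ξ ≤ w i ⟪v i, ξ⟫) :
    ∫⁻ ξ, W ξ * ‖ext U f ξ‖ₑ ^ 2 ≤ (K0 * Cn 2) *
      (cell v * ∏ i, ∫⁻ t, w i t) ^ (1 / 3 : ℝ) * eLpNorm f 3 (volume.restrict U) ^ 2 := by
  rw [ext_lint U hU]
  have h1 := endpointW v two_pos hv (fun i t => w i (cs * t))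
    (fun i => (hw i).comp (measurable_const.mul measurable_id)) (fun ξ => W (cs • ξ))
    (fun ξ i => by
      refine (hW (cs • ξ) i).trans (le_of_eq ?_)
      rw [inner_smul_right]) (U.indicator f) (ind_int U hU f hf)
  rw [nf_eq U hU, ex3] at h1
  calc ENNReal.ofReal ((2 * Real.pi) ^ 3) * ∫⁻ ξ, W (cs • ξ) * ‖Ex (U.indicator f) ξ‖ₑ ^ 2
      ≤ K0 * (Cn 2 * (cell v * ∏ i, ∫⁻ t, w i (cs * t)) ^ (1 / 3 : ℝ) *
        eLpNorm f 3 (volume.restrict U) ^ 2) := mul_le_mul_right h1 _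
    _ ≤ K0 * (Cn 2 * (cell v * ∏ i, ∫⁻ t, w i t) ^ (1 / 3 : ℝ) *
        eLpNorm f 3 (volume.restrict U) ^ 2) := by
        refine mul_le_mul_right (mul_le_mul_left (mul_le_mul_right (ENNReal.rpow_le_rpow
          (mul_le_mul_right (Finset.prod_le_prod' fun i _ => ?_) _) (by norm_num)) _) _) _
        exact scaleV (volume : Measure ℝ) (w i) (hw i)
    _ = _ := by ring

/-- part A -/
theorem partA (U : Set (E 2)) (hU : MeasurableSet U) (f : E 2 → ℂ) (hf : IntegrableOn f U)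
    (v : Fin 3 → E 3) (hv : LinearIndependent ℝ v) (A : Fin 3 → Set ℝ)
    (hA : ∀ i, MeasurableSet (A i)) :
    ∫⁻ ξ in {ξ | ∀ i, ⟪v i, ξ⟫ ∈ A i}, ‖ext U f ξ‖ₑ ^ 2 ≤ (K0 * Cn 2) *
      volume {ξ : E 3 | ∀ i, ⟪v i, ξ⟫ ∈ A i} ^ (1 / 3 : ℝ) *
        eLpNorm f 3 (volume.restrict U) ^ 2 := by
  have hPS : MeasurableSet (PS v A) := Pool.Agent.R412.RS.PS_meas v A hA
  have h := partB U hU f hf v hv (fun i => (A i).indicator 1) ((PS v A).indicator 1)
    (fun i => measurable_one.indicator (hA i)) (fun ξ i => by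
      by_cases hξ : ξ ∈ PS v A
      · rw [indicator_of_mem hξ, indicator_of_mem (hξ i)]
        exact le_rfl
      · rw [indicator_of_notMem hξ]
        exact zero_le)
  have h1 : ∀ i, ∫⁻ a, (A i).indicator (1 : ℝ → ℝ≥0∞) a = volume (A i) := fun i =>
    lintegral_indicator_one (hA i)
  simp_rw [h1] at h
  rw [← Pool.Agent.R412.RS.PS_vol v hv A hA] at h
  refine le_trans (le_of_eq ?_) h
  show ∫⁻ ξ in PS v A, ‖ext U f ξ‖ₑ ^ 2 = _
  rw [← lintegral_indicator hPS]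
  refine lintegral_congr fun ξ => ?_
  by_cases hξ : ξ ∈ PS v A
  · rw [indicator_of_mem hξ, indicator_of_mem hξ, Pi.one_apply, one_mul]
  · rw [indicator_of_notMem hξ, indicator_of_notMem hξ, zero_mul]

/-- the Lorentz norm `L^(3,1)` -/
noncomputable def lorentz (u : ℝ → ℝ≥0∞) : ℝ≥0∞ :=
  ∫⁻ t in Ioi (0 : ℝ), volume {a | ENNReal.ofReal t < u a} ^ (1 / 3 : ℝ)

theorem lorentz_scale (u : ℝ → ℝ≥0∞) (hu : Measurable u) :
    Lo (((2 : ℕ) : ℝ) + 1) (fun t => u (cs * t)) ≤ lorentz u := by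
  unfold Lo lorentz
  rw [ex3]
  refine lintegral_mono fun t => ENNReal.rpow_le_rpow ?_ (by norm_num)
  have hm : MeasurableSet {a | ENNReal.ofReal t < u a} := measurableSet_lt measurable_const hu
  have hm2 : MeasurableSet {a | ENNReal.ofReal t < u (cs * a)} :=
    measurableSet_lt measurable_const (hu.comp (measurable_const.mul measurable_id))
  rw [← lintegral_indicator_one hm, ← lintegral_indicator_one hm2]
  exact scaleV (volume : Measure ℝ) _ (measurable_one.indicator hm)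

/-- part C -/
theorem partC (U : Set (E 2)) (hU : MeasurableSet U) (f : E 2 → ℂ) (hf : IntegrableOn f U)
    (v : Fin 3 → E 3) (hv : LinearIndependent ℝ v) (w : Fin 3 → ℝ → ℝ≥0∞)
    (hw : ∀ i, Measurable (w i)) :
    ∫⁻ ξ, (∏ i, w i ⟪v i, ξ⟫) * ‖ext U f ξ‖ₑ ^ 2 ≤ (K0 * Cn 2) *
      cell v ^ (1 / 3 : ℝ) * (∏ i, lorentz (w i)) * eLpNorm f 3 (volume.restrict U) ^ 2 := by
  rw [ext_lint U hU]
  have h1 := lorentzS two_pos v hv (fun i t => w i (cs * t))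
    (fun i => (hw i).comp (measurable_const.mul measurable_id)) (U.indicator f)
    (ind_int U hU f hf)
  rw [nf_eq U hU, ex3] at h1
  have h2 : ∀ (ξ : E 3) (i : Fin 3), w i ⟪v i, cs • ξ⟫ = w i (cs * ⟪v i, ξ⟫) := by
    intro ξ i
    rw [inner_smul_right]
  simp_rw [h2]
  calc ENNReal.ofReal ((2 * Real.pi) ^ 3) * ∫⁻ ξ, (∏ i, w i (cs * ⟪v i, ξ⟫)) *
        ‖Ex (U.indicator f) ξ‖ₑ ^ 2
      ≤ K0 * (Cn 2 * cell v ^ (1 / 3 : ℝ) * eLpNorm f 3 (volume.restrict U) ^ 2 *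
        ∏ i, Lo (((2 : ℕ) : ℝ) + 1) (fun t => w i (cs * t))) := mul_le_mul_right h1 _
    _ ≤ K0 * (Cn 2 * cell v ^ (1 / 3 : ℝ) * eLpNorm f 3 (volume.restrict U) ^ 2 *
        ∏ i, lorentz (w i)) := by
        refine mul_le_mul_right (mul_le_mul_right (Finset.prod_le_prod' fun i _ => ?_) _) _
        exact lorentz_scale (w i) (hw i)
    _ = _ := by ring

/-- part D -/
theorem partD (r : ℝ) (hr : 1 ≤ r) (hr3 : r < 3) (U : Set (E 2)) (hU : MeasurableSet U)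
    (hUb : U ⊆ Metric.ball 0 (1 / 2)) (f : E 2 → ℂ) (hf : IntegrableOn f U)
    (e : OrthonormalBasis (Fin 3) ℝ (E 3)) (w : Fin 3 → ℝ → ℝ≥0∞)
    (hw : ∀ i, Measurable (w i)) :
    ∫⁻ ξ, (∏ i, w i ⟪e i, ξ⟫) * ‖ext U f ξ‖ₑ ^ 2 ≤ (K0 * Cb 2 (1 / 2) r) *
      (∏ i, (∫⁻ t, w i t ^ r) ^ (1 / r)) * eLpNorm f 3 (volume.restrict U) ^ 2 := by
  rw [ext_lint U hU]
  have h1 := weightsO two_pos (1 / 2) r (by norm_num) hr (by norm_num; exact hr3) e
    (fun i t => w i (cs * t))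
    (fun i => (hw i).comp (measurable_const.mul measurable_id)) (U.indicator f)
    (ind_int U hU f hf) (fun x hx => by
      have : x ∈ U := by
        by_contra h
        exact hx (indicator_of_notMem h _)
      have := hUb this
      rw [Metric.mem_ball, dist_zero_right] at this
      exact this.le)
  rw [nf_eq U hU] at h1
  have h2 : ∀ (ξ : E 3) (i : Fin 3), w i ⟪e i, cs • ξ⟫ = w i (cs * ⟪e i, ξ⟫) := by
    intro ξ i
    rw [inner_smul_right]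
  simp_rw [h2]
  calc ENNReal.ofReal ((2 * Real.pi) ^ 3) * ∫⁻ ξ, (∏ i, w i (cs * ⟪e i, ξ⟫)) *
        ‖Ex (U.indicator f) ξ‖ₑ ^ 2
      ≤ K0 * (Cb 2 (1 / 2) r * eLpNorm f 3 (volume.restrict U) ^ 2 *
        ∏ i, (∫⁻ t, w i (cs * t) ^ r) ^ (1 / r)) := mul_le_mul_right h1 _
    _ ≤ K0 * (Cb 2 (1 / 2) r * eLpNorm f 3 (volume.restrict U) ^ 2 *
        ∏ i, (∫⁻ t, w i t ^ r) ^ (1 / r)) := by
        refine mul_le_mul_right (mul_le_mul_right (Finset.prod_le_prod' fun i _ =>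
          ENNReal.rpow_le_rpow ?_ (by positivity)) _) _
        exact scaleV (volume : Measure ℝ) (fun t => w i t ^ r) ((hw i).pow_const r)
    _ = _ := by ring

/-! ### planar blocks -/

/-- a nice representative -/
theorem rep (U : Set (E 2)) (hU : MeasurableSet U) (hUb : U ⊆ Metric.ball 0 (1 / 2))
    (f : E 2 → ℂ) (hf : MemLp f ∞ (volume.restrict U)) :
    ∃ g : E 2 → ℂ, Nice ((eLpNorm f ∞ (volume.restrict U)).toReal) g ∧
      Ex (U.indicator f) = Ex g := by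
  set M : ℝ := (eLpNorm f ∞ (volume.restrict U)).toReal with hM
  have hM0 : 0 ≤ M := ENNReal.toReal_nonneg
  obtain ⟨f0, hf0, hff⟩ := hf.1
  have hbd : ∀ᵐ x ∂(volume.restrict U), ‖f x‖ ≤ M := by
    have h2 := hf.2.ne
    rw [eLpNorm_exponent_top] at h2
    filter_upwards [enorm_ae_le_eLpNormEssSup f (volume.restrict U)] with x hx
    rw [hM, ← toReal_enorm, eLpNorm_exponent_top]
    exact ENNReal.toReal_mono h2 hx
  have hms : MeasurableSet (U ∩ {x | ‖f0 x‖ ≤ M}) :=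
    hU.inter (measurableSet_le hf0.measurable.norm measurable_const)
  refine ⟨(U ∩ {x | ‖f0 x‖ ≤ M}).indicator f0, ⟨hf0.measurable.indicator hms, ?_, ?_⟩, ?_⟩
  · intro x
    by_cases hx : x ∈ U ∩ {x | ‖f0 x‖ ≤ M}
    · rw [indicator_of_mem hx]; exact hx.2
    · rw [indicator_of_notMem hx, norm_zero]; exact hM0
  · intro x hx
    rw [indicator_of_notMem]
    intro h
    have := hUb h.1
    rw [Metric.mem_ball, dist_zero_right] at this
    linarith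
  · have hae : U.indicator f =ᵐ[volume] (U ∩ {x | ‖f0 x‖ ≤ M}).indicator f0 := by
      have h3 : ∀ᵐ x ∂(volume.restrict U), f x = f0 x ∧ ‖f x‖ ≤ M := hff.and hbd
      rw [ae_restrict_iff' hU] at h3
      filter_upwards [h3] with x hx
      by_cases hxU : x ∈ U
      · have h4 := hx hxU
        rw [indicator_of_mem hxU, indicator_of_mem, h4.1]
        exact ⟨hxU, by show ‖f0 x‖ ≤ M; rw [← h4.1]; exact h4.2⟩
      · rw [indicator_of_notMem hxU, indicator_of_notMem (fun h => hxU h.1)]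
    ext ξ
    unfold Ex
    refine integral_congr_ae ?_
    filter_upwards [hae] with x hx
    rw [hx]

theorem BS_vol (e : OrthonormalBasis (Fin 3) ℝ (E 3)) (a : ℝ) (A : Set (ℝ × ℝ)) (A1 : Set ℝ)
    (hA : MeasurableSet A) (hA1 : MeasurableSet A1) :
    volume (BS e a A A1) = volume A * volume A1 := by
  have hB := Pool.Agent.R412.RH.BS_meas e a A A1 hA hA1
  rw [← lintegral_indicator_one hB, Pool.Agent.R412.RT.cov e _ (measurable_one.indicator hB)]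
  have h1 : ∀ y : Fin 3 → ℝ, (BS e a A A1).indicator (1 : E 3 → ℝ≥0∞)
      (e.repr.symm (WithLp.toLp 2 y)) =
      A.indicator (1 : ℝ × ℝ → ℝ≥0∞) (y 0, y 2) *
        A1.indicator (1 : ℝ → ℝ≥0∞) (y 1 + a * y 2) := by
    intro y
    have h2 : e.repr.symm (WithLp.toLp 2 y) ∈ BS e a A A1 ↔
        (y 0, y 2) ∈ A ∧ y 1 + a * y 2 ∈ A1 := by
      unfold BS
      simp only [mem_ofPred_eq, Pool.Agent.R412.RT.inner_repr_symm]
    by_cases h3 : (y 0, y 2) ∈ A <;> by_cases h4 : y 1 + a * y 2 ∈ A1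
    · rw [indicator_of_mem (h2.2 ⟨h3, h4⟩), indicator_of_mem h3, indicator_of_mem h4]
      simp
    · rw [indicator_of_notMem (fun h => h4 (h2.1 h).2), indicator_of_notMem h4, mul_zero]
    · rw [indicator_of_notMem (fun h => h3 (h2.1 h).1), indicator_of_notMem h3, zero_mul]
    · rw [indicator_of_notMem (fun h => h3 (h2.1 h).1), indicator_of_notMem h3, zero_mul]
  simp_rw [h1]
  have hm : Measurable fun y : Fin 3 → ℝ => A.indicator (1 : ℝ × ℝ → ℝ≥0∞) (y 0, y 2) *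
      A1.indicator (1 : ℝ → ℝ≥0∞) (y 1 + a * y 2) := by
    refine Measurable.mul ?_ ?_
    · exact (measurable_one.indicator hA).comp (by fun_prop)
    · exact (measurable_one.indicator hA1).comp (by fun_prop)
  rw [Pool.Agent.R412.RT.split_lint 1 _ hm]
  have hi0 : ∀ (β : ℝ) (t : Fin 2 → ℝ), ((1 : Fin 3).insertNth β t : Fin 3 → ℝ) 0 = t 0 ∧
      ((1 : Fin 3).insertNth β t : Fin 3 → ℝ) 1 = β ∧
      ((1 : Fin 3).insertNth β t : Fin 3 → ℝ) 2 = t 1 := by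
    intro β t
    refine ⟨?_, ?_, ?_⟩
    · exact Fin.insertNth_apply_succAbove (α := fun _ => ℝ) (1 : Fin 3) β t 0
    · exact Fin.insertNth_apply_same (α := fun _ => ℝ) (1 : Fin 3) β t
    · exact Fin.insertNth_apply_succAbove (α := fun _ => ℝ) (1 : Fin 3) β t 1
  simp_rw [(hi0 _ _).1, (hi0 _ _).2.1, (hi0 _ _).2.2]
  have hm3 : Measurable (Function.uncurry fun (β : ℝ) (t : Fin 2 → ℝ) =>
      A.indicator (1 : ℝ × ℝ → ℝ≥0∞) (t 0, t 1) *
        A1.indicator (1 : ℝ → ℝ≥0∞) (β + a * t 1)) := by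
    refine Measurable.mul ?_ ?_
    · exact (measurable_one.indicator hA).comp
        (by fun_prop : Measurable fun q : ℝ × (Fin 2 → ℝ) => (q.2 0, q.2 1))
    · exact (measurable_one.indicator hA1).comp
        (by fun_prop : Measurable fun q : ℝ × (Fin 2 → ℝ) => q.1 + a * q.2 1)
  rw [lintegral_lintegral_swap hm3.aemeasurable]
  have h5 : ∀ t : Fin 2 → ℝ, ∫⁻ β : ℝ, A.indicator (1 : ℝ × ℝ → ℝ≥0∞) (t 0, t 1) *
        A1.indicator (1 : ℝ → ℝ≥0∞) (β + a * t 1) =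
      A.indicator (1 : ℝ × ℝ → ℝ≥0∞) (t 0, t 1) * volume A1 := by
    intro t
    have hmt : Measurable fun β : ℝ => A1.indicator (1 : ℝ → ℝ≥0∞) (β + a * t 1) :=
      (measurable_one.indicator hA1).comp (by fun_prop)
    rw [lintegral_const_mul _ hmt,
      lintegral_add_right_eq_self (fun β => A1.indicator (1 : ℝ → ℝ≥0∞) β) (a * t 1),
      lintegral_indicator_one hA1]
  simp_rw [h5]
  have hmA : Measurable fun t : Fin 2 → ℝ => A.indicator (1 : ℝ × ℝ → ℝ≥0∞) (t 0, t 1) :=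
    (measurable_one.indicator hA).comp
        (by fun_prop : Measurable fun t : Fin 2 → ℝ => (t 0, t 1))
  rw [lintegral_mul_const _ hmA]
  congr 1
  rw [← lintegral_indicator_one hA]
  exact (volume_preserving_finTwoArrow ℝ).lintegral_comp_emb
    (MeasurableEquiv.finTwoArrow (α := ℝ)).measurableEmbedding (A.indicator 1)

/-- part E -/
theorem partE (q : ℝ) (hq3 : 3 < q) (hq4 : q < 4) : ∃ C : ℝ≥0, ∀ (U : Set (E 2))
    (f : E 2 → ℂ) (e : OrthonormalBasis (Fin 3) ℝ (E 3)) (a : ℝ) (A : Set (ℝ × ℝ)) (A1 : Set ℝ),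
    MeasurableSet U → U ⊆ Metric.ball 0 (1 / 2) → MemLp f ∞ (volume.restrict U) →
    e 2 = EuclideanSpace.single (2 : Fin 3) (1 : ℝ) → MeasurableSet A → MeasurableSet A1 →
    ∫⁻ ξ in {ξ : E 3 | (⟪e 0, ξ⟫, ⟪e 2, ξ⟫) ∈ A ∧ ⟪e 1, ξ⟫ + a * ⟪e 2, ξ⟫ ∈ A1},
        ‖ext U f ξ‖ₑ ^ 2 ≤
      C * volume {ξ : E 3 | (⟪e 0, ξ⟫, ⟪e 2, ξ⟫) ∈ A ∧ ⟪e 1, ξ⟫ + a * ⟪e 2, ξ⟫ ∈ A1} ^
        (1 - 2 / q) * eLpNorm f ∞ (volume.restrict U) ^ 2 := by
  obtain ⟨C, hC, h⟩ := planar_sets q hq3 hq4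
  refine ⟨(K0 * ENNReal.ofReal C).toNNReal, ?_⟩
  rw [ENNReal.coe_toNNReal (ENNReal.mul_ne_top K0_ne ENNReal.ofReal_ne_top)]
  intro U f e a A A1 hU hUb hf he hA hA1
  obtain ⟨g, hg, hgE⟩ := rep U hU hUb f hf
  set M : ℝ := (eLpNorm f ∞ (volume.restrict U)).toReal with hM
  have hMe : ENNReal.ofReal M = eLpNorm f ∞ (volume.restrict U) :=
    ENNReal.ofReal_toReal hf.2.ne
  have hB := Pool.Agent.R412.RH.BS_meas e a A A1 hA hA1
  show ∫⁻ ξ in BS e a A A1, ‖ext U f ξ‖ₑ ^ 2 ≤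
    K0 * ENNReal.ofReal C * volume (BS e a A A1) ^ (1 - 2 / q) *
      eLpNorm f ∞ (volume.restrict U) ^ 2
  have h0 : ∫⁻ ξ in BS e a A A1, ‖ext U f ξ‖ₑ ^ 2 =
      ∫⁻ ξ, (BS e a A A1).indicator 1 ξ * ‖ext U f ξ‖ₑ ^ 2 := by
    rw [← lintegral_indicator hB]
    refine lintegral_congr fun ξ => ?_
    by_cases hξ : ξ ∈ BS e a A A1
    · rw [indicator_of_mem hξ, indicator_of_mem hξ, Pi.one_apply, one_mul]
    · rw [indicator_of_notMem hξ, indicator_of_notMem hξ, zero_mul]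
  rw [h0, ext_lint U hU, hgE]
  set A' : Set (ℝ × ℝ) := (fun p => cs • p) ⁻¹' A with hA'
  set A1' : Set ℝ := (fun p => cs • p) ⁻¹' A1 with hA1'
  have hA'm : MeasurableSet A' := (measurable_const_smul cs) hA
  have hA1'm : MeasurableSet A1' := (measurable_const_smul cs) hA1
  have h1 := h e he M g ENNReal.toReal_nonneg hg a A' A1' hA'm hA1'm
  have hB' := Pool.Agent.R412.RH.BS_meas e a A' A1' hA'm hA1'm
  have h2 : ∫⁻ ξ, (BS e a A A1).indicator 1 (cs • ξ) * ‖Ex g ξ‖ₑ ^ 2 =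
      ∫⁻ ξ in BS e a A' A1', ‖Ex g ξ‖ₑ ^ 2 := by
    rw [← lintegral_indicator hB']
    refine lintegral_congr fun ξ => ?_
    have hiff : cs • ξ ∈ BS e a A A1 ↔ ξ ∈ BS e a A' A1' := by
      unfold BS
      simp only [mem_ofPred_eq, hA', hA1', mem_preimage, inner_smul_right, Prod.smul_mk,
        smul_eq_mul]
      rw [show cs * ⟪e 1, ξ⟫ + a * (cs * ⟪e 2, ξ⟫) = cs * (⟪e 1, ξ⟫ + a * ⟪e 2, ξ⟫) by ring]
    by_cases hξ : ξ ∈ BS e a A' A1'
    · rw [indicator_of_mem hξ, indicator_of_mem (hiff.2 hξ), Pi.one_apply, one_mul]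
    · rw [indicator_of_notMem hξ, indicator_of_notMem (fun h => hξ (hiff.1 h)), zero_mul]
  rw [h2, BS_vol e a A A1 hA hA1]
  have h3 : volume A' * volume A1' ≤ volume A * volume A1 := by
    refine mul_le_mul' ?_ ?_
    · rw [← lintegral_indicator_one hA, ← lintegral_indicator_one hA'm]
      exact scaleV (volume : Measure (ℝ × ℝ)) (A.indicator 1) (measurable_one.indicator hA)
    · rw [← lintegral_indicator_one hA1, ← lintegral_indicator_one hA1'm]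
      exact scaleV (volume : Measure ℝ) (A1.indicator 1) (measurable_one.indicator hA1)
  have hex : 0 ≤ 1 - 2 / q := by
    have : 2 / q < 1 := by rw [div_lt_one (by linarith)]; linarith
    linarith
  calc ENNReal.ofReal ((2 * Real.pi) ^ 3) * ∫⁻ ξ in BS e a A' A1', ‖Ex g ξ‖ₑ ^ 2
      ≤ K0 * (ENNReal.ofReal (C * M ^ 2) * (volume A' * volume A1') ^ (1 - 2 / q)) :=
        mul_le_mul_right h1 _
    _ ≤ K0 * (ENNReal.ofReal (C * M ^ 2) * (volume A * volume A1) ^ (1 - 2 / q)) :=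
        mul_le_mul_right (mul_le_mul_right (ENNReal.rpow_le_rpow h3 hex) _) _
    _ = _ := by
        rw [ENNReal.ofReal_mul hC.le, ENNReal.ofReal_pow ENNReal.toReal_nonneg, hMe]
        ring

/-- part F -/
theorem partF (r : ℝ) (hr : 1 ≤ r) (hr3 : r < 3) : ∃ C : ℝ≥0, ∀ (U : Set (E 2))
    (f : E 2 → ℂ) (e : OrthonormalBasis (Fin 3) ℝ (E 3)) (u : ℝ × ℝ → ℝ≥0∞) (w : ℝ → ℝ≥0∞),
    MeasurableSet U → U ⊆ Metric.ball 0 (1 / 2) → MemLp f ∞ (volume.restrict U) →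
    e 2 = EuclideanSpace.single (2 : Fin 3) (1 : ℝ) → Measurable u → Measurable w →
    ∫⁻ ξ, u (⟪e 0, ξ⟫, ⟪e 2, ξ⟫) * w ⟪e 1, ξ⟫ * ‖ext U f ξ‖ₑ ^ 2 ≤
      C * (∫⁻ p, u p ^ r) ^ (1 / r) * (∫⁻ t, w t ^ r) ^ (1 / r) *
        eLpNorm f ∞ (volume.restrict U) ^ 2 := by
  obtain ⟨C, hC, h⟩ := planar_weights r hr hr3
  refine ⟨(K0 * ENNReal.ofReal C).toNNReal, ?_⟩
  rw [ENNReal.coe_toNNReal (ENNReal.mul_ne_top K0_ne ENNReal.ofReal_ne_top)]
  intro U f e u w hU hUb hf he hu hw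
  obtain ⟨g, hg, hgE⟩ := rep U hU hUb f hf
  set M : ℝ := (eLpNorm f ∞ (volume.restrict U)).toReal with hM
  have hMe : ENNReal.ofReal M = eLpNorm f ∞ (volume.restrict U) :=
    ENNReal.ofReal_toReal hf.2.ne
  rw [ext_lint U hU, hgE]
  have hum : Measurable fun p : ℝ × ℝ => u (cs • p) := hu.comp (measurable_const_smul cs)
  have hwm : Measurable fun t : ℝ => w (cs • t) := hw.comp (measurable_const_smul cs)
  have h1 := h e he M g ENNReal.toReal_nonneg hg (fun p => u (cs • p)) (fun t => w (cs • t))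
    hum hwm
  have h2 : ∀ ξ : E 3, u (⟪e 0, cs • ξ⟫, ⟪e 2, cs • ξ⟫) * w ⟪e 1, cs • ξ⟫ * ‖Ex g ξ‖ₑ ^ 2 =
      u (cs • (⟪e 0, ξ⟫, ⟪e 2, ξ⟫)) * w (cs • ⟪e 1, ξ⟫) * ‖Ex g ξ‖ₑ ^ 2 := by
    intro ξ
    simp only [inner_smul_right, Prod.smul_mk, smul_eq_mul]
  simp_rw [h2]
  calc ENNReal.ofReal ((2 * Real.pi) ^ 3) * ∫⁻ ξ, u (cs • (⟪e 0, ξ⟫, ⟪e 2, ξ⟫)) *
        w (cs • ⟪e 1, ξ⟫) * ‖Ex g ξ‖ₑ ^ 2
      ≤ K0 * (ENNReal.ofReal (C * M ^ 2) * (∫⁻ p, u (cs • p) ^ r) ^ (1 / r) *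
        (∫⁻ t, w (cs • t) ^ r) ^ (1 / r)) := mul_le_mul_right h1 _
    _ ≤ K0 * (ENNReal.ofReal (C * M ^ 2) * (∫⁻ p, u p ^ r) ^ (1 / r) *
        (∫⁻ t, w t ^ r) ^ (1 / r)) := by
        refine mul_le_mul_right (mul_le_mul' (mul_le_mul_right (ENNReal.rpow_le_rpow ?_
          (by positivity)) _) (ENNReal.rpow_le_rpow ?_ (by positivity))) _
        · exact scaleV (volume : Measure (ℝ × ℝ)) (fun p => u p ^ r) (hu.pow_const r)
        · exact scaleV (volume : Measure ℝ) (fun t => w t ^ r) (hw.pow_const r)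
    _ = _ := by
        rw [ENNReal.ofReal_mul hC.le, ENNReal.ofReal_pow ENNReal.toReal_nonneg, hMe]
        ring

end Pool.Agent.R412.RZ
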